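import Pool.Agent.Helper346.Cay.Defs

set_option autoImplicit false

open Polynomial

namespace Pool.Agent.Helper346.Cay

section LL
variable {Ω Γ₀ : Type*} [Field Ω] [LinearOrderedCommGroupWithZero Γ₀] {W : Valuation Ω Γ₀}
  {p : ℕ} [Fact p.Prime] {ζ α β : Ω} {Kt K' : Subfield Ω} {χ₁ : V p} {e : ℕ}


theorem LL3 (H : LH W p ζ α β Kt K' χ₁ e) (i j : ℤ)
    (hij : (((i : ZMod p), (j : ZMod p)) : V p) ≠ 0) (u : Ω) (hu : u ∈ Kt)
    (h : W (α ^ i * β ^ j) = W u) (θ : Ω) (hθ : θ ∈ K') :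
    ¬ W (θ - α ^ i * β ^ j * u⁻¹) < 1 := by
  classical
  intro hlt
  have hα := H.α0
  have hβ := H.β0
  set η : Ω := α ^ i * β ^ j * u⁻¹ with hη
  have hab : α ^ i * β ^ j ≠ 0 := mul_ne_zero (zpow_ne_zero _ hα) (zpow_ne_zero _ hβ)
  have hu0 : u ≠ 0 := by
    intro h0
    rw [h0, map_zero] at h
    exact hab ((Valuation.zero_iff W).1 h)
  have hWu : W u ≠ 0 := (Valuation.ne_zero_iff W).2 hu0
  have hWη : W η = 1 := by
    rw [hη, map_mul, h, map_inv₀, mul_inv_cancel₀ hWu]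
  have hWθ : W θ ≤ 1 := by
    have e1 : θ = (θ - η) + η := by ring
    rw [e1]
    exact (Valuation.map_add W _ _).trans (max_le hlt.le hWη.le)
  obtain ⟨q, hq1, hq2, hq3, hq4⟩ := H.H3 θ hθ
  -- the maximal coefficient
  obtain ⟨l0, hl0, hmax⟩ := Finset.exists_max_image (Finset.range (e + 1))
    (fun l => W (q.coeff l)) ⟨0, by simp⟩
  have hl0ne : q.coeff l0 ≠ 0 := by
    intro h0
    have h1 := hmax q.natDegree (by simp; omega)
    simp only [h0, map_zero, le_zero_iff] at h1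
    have h2 : q.coeff q.natDegree = 0 := (Valuation.zero_iff W).1 h1
    exact hq2 (Polynomial.leadingCoeff_eq_zero.1 h2)
  have hWl0 : W (q.coeff l0) ≠ 0 := (Valuation.ne_zero_iff W).2 hl0ne
  set a : ℕ → Ω := fun l => q.coeff l / q.coeff l0 with ha
  have haK : ∀ l, a l ∈ Kt := fun l => Kt.div_mem (hq1 l) (hq1 l0)
  have hWa : ∀ l ∈ Finset.range (e + 1), W (a l) ≤ 1 := by
    intro l hl
    simp only [ha, map_div₀]
    exact div_le_one_of_le₀ (hmax l hl) zero_le'
  have ha0 : a l0 = 1 := by simp only [ha]; exact div_self hl0ne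
  have hsum : ∑ l ∈ Finset.range (e + 1), a l * θ ^ l = 0 := by
    have h1 : q.eval θ = ∑ l ∈ Finset.range (e + 1), q.coeff l * θ ^ l :=
      Polynomial.eval_eq_sum_range' (by omega) θ
    rw [hq4] at h1
    have h2 : ∑ l ∈ Finset.range (e + 1), a l * θ ^ l =
        (∑ l ∈ Finset.range (e + 1), q.coeff l * θ ^ l) / q.coeff l0 := by
      rw [Finset.sum_div]
      apply Finset.sum_congr rfl
      intro l _
      simp only [ha]; ring
    rw [h2, ← h1, zero_div]
  have hpow : ∀ l : ℕ, W (η ^ l - θ ^ l) < 1 := by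
    intro l
    induction l with
    | zero => simp
    | succ l ih =>
      have e1 : η ^ (l + 1) - θ ^ (l + 1) = η ^ l * (η - θ) + (η ^ l - θ ^ l) * θ := by ring
      rw [e1]
      refine lt_of_le_of_lt (Valuation.map_add W _ _) (max_lt ?_ ?_)
      · rw [map_mul, map_pow, hWη, one_pow, one_mul, Valuation.map_sub_swap]
        exact hlt
      · rw [map_mul]
        exact mul_lt_one_of_lt_of_le ih hWθ
  have hsum2 : W (∑ l ∈ Finset.range (e + 1), a l * η ^ l) < 1 := by
    have e1 : ∑ l ∈ Finset.range (e + 1), a l * η ^ l =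
        ∑ l ∈ Finset.range (e + 1), a l * (η ^ l - θ ^ l) := by
      have : ∑ l ∈ Finset.range (e + 1), a l * (η ^ l - θ ^ l) =
          ∑ l ∈ Finset.range (e + 1), a l * η ^ l - ∑ l ∈ Finset.range (e + 1), a l * θ ^ l := by
        rw [← Finset.sum_sub_distrib]
        apply Finset.sum_congr rfl
        intro l _
        ring
      rw [this, hsum, sub_zero]
    rw [e1]
    apply Valuation.map_sum_lt W one_ne_zero
    intro l hl
    rw [map_mul, mul_comm]
    exact mul_lt_one_of_lt_of_le (hpow l) (hWa l hl)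
  -- the classes
  set χ : ℕ → V p := fun l => ((((l : ℤ) * i : ℤ) : ZMod p), (((l : ℤ) * j : ℤ) : ZMod p)) with hχ
  have hp0 : 0 < p := (Fact.out : p.Prime).pos
  have hχinj : ∀ l ∈ Finset.range (e + 1), ∀ l' ∈ Finset.range (e + 1), χ l = χ l' → l = l' := by
    intro l hl l' hl' hll
    have hl1 : l < p := lt_of_lt_of_le (Finset.mem_range.1 hl) H.he
    have hl2 : l' < p := lt_of_lt_of_le (Finset.mem_range.1 hl') H.he
    simp only [hχ, Prod.mk.injEq, Int.cast_mul, Int.cast_natCast] at hll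
    obtain ⟨h1, h2⟩ := hll
    have key : (l : ZMod p) = (l' : ZMod p) := by
      by_contra hne
      have hne' : (l : ZMod p) - l' ≠ 0 := sub_ne_zero.2 hne
      apply hij
      have h3 : ((l : ZMod p) - l') * (i : ZMod p) = 0 := by rw [sub_mul, h1, sub_self]
      have h4 : ((l : ZMod p) - l') * (j : ZMod p) = 0 := by rw [sub_mul, h2, sub_self]
      have h5 := (mul_eq_zero.1 h3).resolve_left hne'
      have h6 := (mul_eq_zero.1 h4).resolve_left hne'
      rw [h5, h6]; rfl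
    have h7 := (ZMod.natCast_eq_natCast_iff' l l' p).1 key
    rwa [Nat.mod_eq_of_lt hl1, Nat.mod_eq_of_lt hl2] at h7
  set w : ℕ → Ω := fun l => (α ^ p) ^ ((l : ℤ) * i / p) * (β ^ p) ^ ((l : ℤ) * j / p) *
    (u ^ l)⁻¹ with hw
  have hwK : ∀ l, w l ∈ Kt := by
    intro l
    simp only [hw]
    exact Kt.mul_mem (Kt.mul_mem (Kt.zpow_mem H.αK _) (Kt.zpow_mem H.βK _))
      (Kt.inv_mem (Kt.pow_mem hu l))
  have hdecomp : ∀ (γ : Ω), γ ≠ 0 → ∀ (l : ℕ) (z : ℤ),
      (γ ^ z) ^ l = γ ^ ((((l : ℤ) * z : ℤ) : ZMod p)).val * (γ ^ p) ^ ((l : ℤ) * z / p) := by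
    intro γ hγ l z
    haveI : NeZero p := ⟨hp0.ne'⟩
    have e1 : (((((l : ℤ) * z : ℤ) : ZMod p)).val : ℤ) = ((l : ℤ) * z) % p :=
      ZMod.val_intCast _
    rw [← zpow_natCast γ p, ← zpow_mul, ← zpow_natCast γ (ZMod.val _), ← zpow_add₀ hγ, e1,
      Int.emod_add_mul_ediv, ← zpow_natCast, ← zpow_mul, mul_comm]
  have hηl : ∀ l : ℕ, η ^ l = ee α β (χ l) * w l := by
    intro l
    simp only [hη, hw, ee, hχ]
    rw [mul_pow, mul_pow, hdecomp α hα, hdecomp β hβ, inv_pow]
    ring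
  -- the combination
  set u' : V p → Ω := fun c => ∑ l ∈ Finset.range (e + 1), if χ l = c then a l * w l else 0 with hu'
  have hu'K : ∀ c, u' c ∈ Kt := by
    intro c
    apply Kt.sum_mem
    intro l _
    split_ifs
    · exact Kt.mul_mem (haK l) (hwK l)
    · exact Kt.zero_mem
  haveI : NeZero p := ⟨hp0.ne'⟩
  have hcomb : ∑ c, u' c * ee α β c = ∑ l ∈ Finset.range (e + 1), a l * η ^ l := by
    simp only [hu', Finset.sum_mul]
    rw [Finset.sum_comm]
    apply Finset.sum_congr rfl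
    intro l _
    rw [Finset.sum_eq_single (χ l)]
    · rw [if_pos rfl, hηl]; ring
    · intro c _ hc
      rw [if_neg (fun h => hc h.symm), zero_mul]
    · intro h; exact absurd (Finset.mem_univ _) h
  have hfin := H.H2 u' hu'K (by rw [hcomb]; exact hsum2) (χ l0)
  have hu'0 : u' (χ l0) = w l0 := by
    simp only [hu']
    rw [Finset.sum_eq_single_of_mem l0 hl0]
    · rw [if_pos rfl, ha0, one_mul]
    · intro l hl hne
      rw [if_neg (fun h => hne (hχinj l hl l0 hl0 h))]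
  rw [hu'0, mul_comm, ← hηl, map_pow, hWη, one_pow] at hfin
  exact lt_irrefl _ hfin

end LL

end Pool.Agent.Helper346.Cay
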