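import Pool.Agent.Helper346.Cay.Defs

set_option autoImplicit false

open Polynomial

namespace Pool.Agent.Helper346.Cay

section LL
variable {Ω Γ₀ : Type*} [Field Ω] [LinearOrderedCommGroupWithZero Γ₀] {W : Valuation Ω Γ₀}
  {p : ℕ} [Fact p.Prime] {ζ α β : Ω} {Kt K' : Subfield Ω} {χ₁ : V p} {e : ℕ}


theorem LL1_aux {Ω Γ₀ : Type*} [Field Ω] [LinearOrderedCommGroupWithZero Γ₀]
    (W : Valuation Ω Γ₀) {Kt : Subfield Ω} {θ a b : Ω} (hθ0 : θ ≠ 0) (ha : a ∈ Kt) (hb : b ∈ Kt)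
    (ha0 : a ≠ 0) (hb0 : b ≠ 0) {i j : ℕ} (hij : i < j) (h : W (a * θ ^ i) = W (b * θ ^ j)) :
    ∃ u ∈ Kt, u ≠ 0 ∧ W (θ ^ (j - i)) = W u := by
  refine ⟨a / b, Kt.div_mem ha hb, div_ne_zero ha0 hb0, ?_⟩
  have hWb : W b ≠ 0 := (Valuation.ne_zero_iff W).2 hb0
  have hWθ : W (θ ^ i) ≠ 0 := (Valuation.ne_zero_iff W).2 (pow_ne_zero _ hθ0)
  rw [map_div₀, eq_div_iff hWb, ← map_mul]
  have e1 : θ ^ j = θ ^ i * θ ^ (j - i) := by rw [← pow_add]; congr 1; omega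
  rw [e1] at h
  have h2 : W a * W (θ ^ i) = W (θ ^ (j - i) * b) * W (θ ^ i) := by
    rw [← map_mul, h, ← map_mul]
    congr 1; ring
  exact (mul_right_cancel₀ hWθ h2).symm

theorem LL1 (H : LH W p ζ α β Kt K' χ₁ e) (θ : Ω) (hθ : θ ∈ K') (hθ0 : θ ≠ 0) :
    ∃ m : ℕ, 0 < m ∧ m ≤ e ∧ ∃ u ∈ Kt, u ≠ 0 ∧ W (θ ^ m) = W u := by
  classical
  obtain ⟨q, hqK, hq0, hqd, hqe⟩ := H.H3 θ hθ
  have hsum : ∑ i ∈ Finset.range (e + 1), q.coeff i * θ ^ i = 0 := by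
    rw [← hqe, Polynomial.eval_eq_sum_range' (Nat.lt_succ_of_le hqd)]
  set s := (Finset.range (e + 1)).filter (fun i => q.coeff i ≠ 0) with hs
  have hne : s.Nonempty := by
    refine ⟨q.natDegree, ?_⟩
    rw [hs, Finset.mem_filter, Finset.mem_range]
    exact ⟨by omega, Polynomial.leadingCoeff_ne_zero.2 hq0⟩
  have hsum' : ∑ i ∈ s, q.coeff i * θ ^ i = 0 := by
    rw [← hsum, hs, Finset.sum_filter]
    apply Finset.sum_congr rfl
    intro i _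
    split_ifs with hi
    · rfl
    · push Not at hi
      rw [hi, zero_mul]
  obtain ⟨i, hi, hmax⟩ := Finset.exists_max_image s (fun i => W (q.coeff i * θ ^ i)) hne
  have hi' := hi
  rw [hs, Finset.mem_filter, Finset.mem_range] at hi'
  have hWi : W (q.coeff i * θ ^ i) ≠ 0 :=
    (Valuation.ne_zero_iff W).2 (mul_ne_zero hi'.2 (pow_ne_zero _ hθ0))
  have hex : ∃ j ∈ s.erase i, W (q.coeff i * θ ^ i) ≤ W (q.coeff j * θ ^ j) := by
    by_contra hcon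
    push Not at hcon
    have h1 : W (∑ j ∈ s.erase i, q.coeff j * θ ^ j) < W (q.coeff i * θ ^ i) :=
      Valuation.map_sum_lt W hWi hcon
    have h2 : q.coeff i * θ ^ i = - ∑ j ∈ s.erase i, q.coeff j * θ ^ j := by
      have := Finset.add_sum_erase s (fun i => q.coeff i * θ ^ i) hi
      rw [hsum'] at this
      exact eq_neg_of_add_eq_zero_left this
    rw [h2, Valuation.map_neg] at h1
    exact lt_irrefl _ h1
  obtain ⟨j, hj, hle⟩ := hex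
  rw [Finset.mem_erase] at hj
  have hj' := hj.2
  rw [hs, Finset.mem_filter, Finset.mem_range] at hj'
  have heq : W (q.coeff i * θ ^ i) = W (q.coeff j * θ ^ j) := le_antisymm hle (hmax j hj.2)
  rcases lt_or_gt_of_ne hj.1 with h | h
  · obtain ⟨u, h1, h2, h3⟩ := LL1_aux W hθ0 (hqK j) (hqK i) hj'.2 hi'.2 h heq.symm
    exact ⟨i - j, by omega, by omega, u, h1, h2, h3⟩
  · obtain ⟨u, h1, h2, h3⟩ := LL1_aux W hθ0 (hqK i) (hqK j) hi'.2 hj'.2 h heq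
    exact ⟨j - i, by omega, by omega, u, h1, h2, h3⟩

theorem LL2 (H : LH W p ζ α β Kt K' χ₁ e) (i j : ℤ) (θ : Ω) (hθ : θ ∈ K')
    (h : W (α ^ i * β ^ j) = W θ) : ∃ u ∈ Kt, W (α ^ i * β ^ j) = W u := by
  have hp : p.Prime := Fact.out
  have hαβ : α ^ i * β ^ j ≠ 0 := mul_ne_zero (zpow_ne_zero _ H.α0) (zpow_ne_zero _ H.β0)
  have hθ0 : θ ≠ 0 := by
    rintro rfl
    rw [map_zero] at h
    exact (Valuation.ne_zero_iff W).2 hαβ h
  obtain ⟨m, hm0, hme, u1, hu1, hu10, hW1⟩ := LL1 H θ hθ hθ0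
  have hcop : Nat.Coprime m p :=
    (Nat.coprime_comm.1 ((Nat.Prime.coprime_iff_not_dvd hp).2
      (fun hd => absurd (Nat.le_of_dvd hm0 hd) (by have := H.he; omega))))
  set u2 : Ω := (α ^ p) ^ i * (β ^ p) ^ j with hu2
  have hu2K : u2 ∈ Kt := Kt.mul_mem (Kt.zpow_mem H.αK i) (Kt.zpow_mem H.βK j)
  have hW2 : W (θ ^ p) = W u2 := by
    rw [map_pow, ← h, ← map_pow, hu2]
    congr 1
    rw [mul_pow, ← zpow_natCast, ← zpow_natCast, ← zpow_mul, ← zpow_mul, ← zpow_natCast α,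
      ← zpow_natCast β, ← zpow_mul, ← zpow_mul, mul_comm i, mul_comm j]
  have hbez : (m : ℤ) * Int.gcdA m p + (p : ℤ) * Int.gcdB m p = 1 := by
    have := Int.gcd_eq_gcd_ab (m : ℤ) (p : ℤ)
    rw [Int.gcd_natCast_natCast, hcop.gcd_eq_one] at this
    rw [← this]; rfl
  set a := Int.gcdA m p
  set b := Int.gcdB m p
  refine ⟨u1 ^ a * u2 ^ b, Kt.mul_mem (Kt.zpow_mem hu1 a) (Kt.zpow_mem hu2K b), ?_⟩
  rw [h, map_mul, map_zpow₀, map_zpow₀, ← hW1, ← hW2, ← map_zpow₀, ← map_zpow₀, ← map_mul]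
  congr 1
  rw [← zpow_natCast, ← zpow_natCast, ← zpow_mul, ← zpow_mul, ← zpow_add₀ hθ0, hbez, zpow_one]

end LL

end Pool.Agent.Helper346.Cay
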