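import Pool.Agent.Helper346.Cay.Defs
import Pool.Agent.Helper346.Cay.JA
import Pool.Agent.Helper346.Cay.JB

set_option autoImplicit false

open Polynomial

namespace Pool.Agent.Helper346.Cay


theorem res_zero_iff {F Γ₀ : Type*} [Field F] [LinearOrderedCommGroupWithZero Γ₀] (v : Valuation F Γ₀)
    (x : v.valuationSubring) : IsLocalRing.residue v.valuationSubring x = 0 ↔ v (x : F) < 1 := by
  rw [IsLocalRing.residue_eq_zero_iff, IsLocalRing.mem_maximalIdeal, mem_nonunits_iff]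
  have hx : v (x : F) ≤ 1 := x.2
  constructor
  · intro h
    by_contra h1
    push Not at h1
    have h2 : v (x : F) = 1 := le_antisymm hx h1
    have hx0 : (x : F) ≠ 0 := by
      intro h3; rw [h3, map_zero] at h2; exact zero_ne_one h2
    apply h
    refine IsUnit.of_mul_eq_one (⟨(x : F)⁻¹, ?_⟩ : v.valuationSubring) ?_
    · show v ((x : F)⁻¹) ≤ 1
      rw [map_inv₀, h2, inv_one]
    · apply Subtype.ext
      show (x : F) * (x : F)⁻¹ = 1
      exact mul_inv_cancel₀ hx0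
  · intro h hu
    obtain ⟨y, hy⟩ := hu.exists_right_inv
    have h1 : (x : F) * (y : F) = 1 := congrArg Subtype.val hy
    have h2 : v (x : F) * v (y : F) = 1 := by rw [← map_mul, h1, map_one]
    have hy1 : v (y : F) ≤ 1 := y.2
    have : v (x : F) * v (y : F) < 1 := by
      calc v (x : F) * v (y : F) ≤ v (x : F) * 1 := by gcongr
        _ = v (x : F) := mul_one _
        _ < 1 := h
    exact absurd h2 this.ne

/-- the residue lemma -/
theorem res_lemma {Ω Γ₀ : Type*} [Field Ω] [LinearOrderedCommGroupWithZero Γ₀] (W : Valuation Ω Γ₀)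
    {p : ℕ} [hp : Fact p.Prime] (K' : Subfield Ω) (ζ : Ω) (hζ : IsPrimitiveRoot ζ p) (hζK : ζ ∈ K')
    (η : Ω) (hη : W η = 1) (hηK : η ^ p ∈ K') (c : ℕ → Ω) (hc : ∀ l, c l ∈ K')
    (hc1 : ∀ l, W (c l) ≤ 1) (hc0 : W (c 0) = 1)
    (hsum : W (∑ l ∈ Finset.range p, c l * η ^ l) < 1) : ∃ θ ∈ K', W (θ - η) < 1 := by
  classical
  let W' : Valuation K' Γ₀ := W.comap K'.subtype
  let O' := W'.valuationSubring
  let O := W.valuationSubring
  let φ : O' →+* O := RingHom.codRestrict ((K'.subtype).comp O'.subtype) O.toSubring (fun x => x.2)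
  have hφ : ∀ x : O', ((φ x : O) : Ω) = ((x : K') : Ω) := fun x => rfl
  have : IsLocalHom φ := by
    constructor
    intro x hx
    by_contra hn
    have h1 : IsLocalRing.residue O' x = 0 := by
      rw [IsLocalRing.residue_eq_zero_iff, IsLocalRing.mem_maximalIdeal, mem_nonunits_iff]
      exact hn
    have h2 : W' (x : K') < 1 := (res_zero_iff W' x).1 h1
    have h3 : IsLocalRing.residue O (φ x) = 0 := (res_zero_iff W (φ x)).2 h2
    rw [IsLocalRing.residue_eq_zero_iff, IsLocalRing.mem_maximalIdeal, mem_nonunits_iff] at h3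
    exact h3 hx
  let f := IsLocalRing.ResidueField.map φ
  have hf : ∀ x : O', f (IsLocalRing.residue O' x) = IsLocalRing.residue O (φ x) :=
    fun x => IsLocalRing.ResidueField.map_residue φ x
  -- elements
  let c' : ℕ → O' := fun l => ⟨⟨c l, hc l⟩, hc1 l⟩
  let η' : O := ⟨η, hη.le⟩
  have hηp : W (η ^ p) ≤ 1 := by rw [map_pow, hη, one_pow]
  let b' : O' := ⟨⟨η ^ p, hηK⟩, hηp⟩
  have hb : f (IsLocalRing.residue O' b') = IsLocalRing.residue O η' ^ p := by
    rw [hf, ← map_pow]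
    rfl
  let P : (IsLocalRing.ResidueField O')[X] :=
    ∑ l ∈ Finset.range p, C (IsLocalRing.residue O' (c' l)) * X ^ l
  have hP0 : P ≠ 0 := by
    intro h
    have h1 : P.coeff 0 = IsLocalRing.residue O' (c' 0) := by
      show (∑ l ∈ Finset.range p, C (IsLocalRing.residue O' (c' l)) * X ^ l).coeff 0 = _
      rw [finsetSum_coeff, Finset.sum_eq_single 0]
      · simp
      · intro l _ hl
        rw [coeff_C_mul, coeff_X_pow, if_neg (Ne.symm hl), mul_zero]
      · intro h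
        exact absurd (Finset.mem_range.2 hp.out.pos) h
    rw [h, coeff_zero] at h1
    have h2 := (res_zero_iff W' (c' 0)).1 h1.symm
    have h3 : W (c 0) < 1 := h2
    exact absurd hc0 h3.ne
  have hPd : P.natDegree < p := by
    have : P.natDegree ≤ p - 1 := by
      apply natDegree_sum_le_of_forall_le
      intro l hl
      refine (natDegree_C_mul_X_pow_le _ _).trans ?_
      have := Finset.mem_range.1 hl
      omega
    have := hp.out.pos
    omega
  have hPr : eval₂ f (IsLocalRing.residue O η') P = 0 := by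
    show eval₂ f (IsLocalRing.residue O η')
      (∑ l ∈ Finset.range p, C (IsLocalRing.residue O' (c' l)) * X ^ l) = 0
    rw [eval₂_finsetSum]
    have e1 : ∀ l ∈ Finset.range p, eval₂ f (IsLocalRing.residue O η')
        (C (IsLocalRing.residue O' (c' l)) * X ^ l) = IsLocalRing.residue O (φ (c' l) * η' ^ l) := by
      intro l _
      rw [eval₂_mul, eval₂_C, eval₂_X_pow, hf, map_mul, map_pow]
    rw [Finset.sum_congr rfl e1, ← map_sum]
    rw [res_zero_iff W]
    have e2 : ((∑ l ∈ Finset.range p, φ (c' l) * η' ^ l : O) : Ω) =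
        ∑ l ∈ Finset.range p, c l * η ^ l := by
      have := map_sum O.subtype (fun l => φ (c' l) * η' ^ l) (Finset.range p)
      exact this
    rw [e2]
    exact hsum
  -- `b` is a `p`-th power in the residue field
  obtain ⟨t, ht⟩ : ∃ t : IsLocalRing.ResidueField O', t ^ p = IsLocalRing.residue O' b' := by
    by_contra hcon
    push Not at hcon
    have hirr : Irreducible (X ^ p - C (IsLocalRing.residue O' b')) :=
      X_pow_sub_C_irreducible_of_prime hp.out hcon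
    have hroot : eval₂ f (IsLocalRing.residue O η') (X ^ p - C (IsLocalRing.residue O' b')) = 0 := by
      rw [eval₂_sub, eval₂_X_pow, eval₂_C, hb, sub_self]
    by_cases hdvd : (X ^ p - C (IsLocalRing.residue O' b')) ∣ P
    · have := natDegree_le_of_dvd hdvd hP0
      rw [natDegree_X_pow_sub_C] at this
      omega
    · have hcop : IsCoprime (X ^ p - C (IsLocalRing.residue O' b')) P :=
        (hirr.coprime_iff_not_dvd).2 hdvd
      obtain ⟨r, s, hrs⟩ := hcop
      have := congrArg (eval₂ f (IsLocalRing.residue O η')) hrs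
      rw [eval₂_add, eval₂_mul, eval₂_mul, hroot, hPr, mul_zero, mul_zero, add_zero, eval₂_one] at this
      exact zero_ne_one this
  obtain ⟨θ', rfl⟩ := IsLocalRing.residue_surjective t
  set θ : Ω := ((θ' : K') : Ω) with hθ
  have hθK : θ ∈ K' := (θ' : K').2
  have hθ1 : W θ ≤ 1 := θ'.2
  have h1 : W (θ ^ p - η ^ p) < 1 := by
    have e1 : IsLocalRing.residue O (φ θ' ^ p - η' ^ p) = 0 := by
      rw [map_sub, map_pow, map_pow, ← hf, ← map_pow, ht, hb, sub_self]
    exact (res_zero_iff W _).1 e1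
  rw [hζ.pow_sub_pow_eq_prod_sub_mul θ η hp.out.pos, map_prod] at h1
  obtain ⟨ω, hω, hω1⟩ : ∃ ω ∈ nthRootsFinset p (1:Ω), W (θ - ω * η) < 1 := by
    by_contra hcon
    push Not at hcon
    have : 1 ≤ ∏ ω ∈ nthRootsFinset p (1:Ω), W (θ - ω * η) := by
      exact Finset.one_le_prod' hcon
    exact absurd h1 (not_lt.2 this)
  have hωp : ω ^ p = 1 := (mem_nthRootsFinset hp.out.pos (1:Ω)).1 hω
  have hωK : ω ∈ K' := by
    obtain ⟨m, _, rfl⟩ := hζ.eq_pow_of_pow_eq_one hωp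
    exact pow_mem hζK m
  have hωW : W ω = 1 := by
    have : W ω ^ p = 1 := by rw [← map_pow, hωp, map_one]
    exact (pow_eq_one_iff_of_nonneg zero_le hp.out.ne_zero).1 this
  have hω0 : ω ≠ 0 := by
    intro h; rw [h, map_zero] at hωW; exact zero_ne_one hωW
  refine ⟨ω⁻¹ * θ, mul_mem (inv_mem hωK) hθK, ?_⟩
  have e1 : ω⁻¹ * θ - η = ω⁻¹ * (θ - ω * η) := by
    rw [mul_sub, ← mul_assoc, inv_mul_cancel₀ hω0, one_mul]
  rw [e1, map_mul, map_inv₀, hωW, inv_one, one_mul]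
  exact hω1

section LL
variable {Ω Γ₀ : Type*} [Field Ω] [LinearOrderedCommGroupWithZero Γ₀] {W : Valuation Ω Γ₀}
  {p : ℕ} [Fact p.Prime] {ζ α β : Ω} {Kt K' : Subfield Ω} {χ₁ : V p} {e : ℕ}




theorem ee_ne_zero {Ω : Type*} [Field Ω] {α β : Ω} (hα : α ≠ 0) (hβ : β ≠ 0) {p : ℕ} (χ : V p) :
    ee α β χ ≠ 0 := mul_ne_zero (pow_ne_zero _ hα) (pow_ne_zero _ hβ)

theorem ee_div {Ω : Type*} [Field Ω] {α β : Ω} (hα : α ≠ 0) (hβ : β ≠ 0) {p : ℕ} (χ χ0 : V p) :
    ee α β χ / ee α β χ0 =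
      α ^ ((χ.1.val : ℤ) - χ0.1.val) * β ^ ((χ.2.val : ℤ) - χ0.2.val) := by
  unfold ee
  rw [zpow_sub₀ hα, zpow_sub₀ hβ]
  simp only [zpow_natCast]
  rw [mul_div_mul_comm]

theorem cast_diff {p : ℕ} [Fact p.Prime] (x y : ZMod p) :
    (((x.val : ℤ) - y.val : ℤ) : ZMod p) = x - y := by
  push_cast
  rw [ZMod.natCast_zmod_val, ZMod.natCast_zmod_val]

/-- powers with exponent divisible by `p` -/
theorem zpow_mem_of_dvd {Ω : Type*} [Field Ω] {Kt : Subfield Ω} {α : Ω} {p : ℕ} (h : α ^ p ∈ Kt)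
    {a : ℤ} (ha : (p : ℤ) ∣ a) : α ^ a ∈ Kt := by
  obtain ⟨m, rfl⟩ := ha
  rw [zpow_mul, zpow_natCast]
  exact zpow_mem h m

theorem LL4 (H : LH W p ζ α β Kt K' χ₁ e) (d : V p → Ω) (hd : ∀ χ, d χ ∈ K') (χ : V p) :
    W (d χ * ee α β χ) ≤ W (∑ χ', d χ' * ee α β χ') := by
  classical
  by_contra hcon
  push Not at hcon
  have hp : Fact p.Prime := inferInstance
  obtain ⟨χ0, -, hmax⟩ := Finset.exists_max_image (Finset.univ : Finset (V p))
    (fun χ => W (d χ * ee α β χ)) ⟨χ, Finset.mem_univ _⟩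
  set M := W (d χ0 * ee α β χ0) with hM
  have hlt : W (∑ χ', d χ' * ee α β χ') < M := lt_of_lt_of_le hcon (hmax χ (Finset.mem_univ _))
  have hM0 : M ≠ 0 := (lt_of_le_of_lt zero_le hlt).ne'
  set T := (Finset.univ : Finset (V p)).filter (fun χ => W (d χ * ee α β χ) = M) with hT
  have hTlt : W (∑ χ ∈ T, d χ * ee α β χ) < M := by
    have h1 : ∑ χ', d χ' * ee α β χ' = ∑ χ ∈ T, d χ * ee α β χ +
        ∑ χ ∈ Finset.univ.filter (fun χ => ¬ W (d χ * ee α β χ) = M), d χ * ee α β χ :=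
      (Finset.sum_filter_add_sum_filter_not _ _ _).symm
    have h2 : W (∑ χ ∈ Finset.univ.filter (fun χ => ¬ W (d χ * ee α β χ) = M), d χ * ee α β χ) < M := by
      apply Valuation.map_sum_lt W hM0
      intro χ hχ
      exact lt_of_le_of_ne (hmax χ (Finset.mem_univ _)) (Finset.mem_filter.1 hχ).2
    have h3 : ∑ χ ∈ T, d χ * ee α β χ = ∑ χ', d χ' * ee α β χ' -
        ∑ χ ∈ Finset.univ.filter (fun χ => ¬ W (d χ * ee α β χ) = M), d χ * ee α β χ := by
      rw [h1]; ring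
    rw [h3]
    exact lt_of_le_of_lt (Valuation.map_sub _ _ _) (max_lt hlt h2)
  have hTmem : ∀ χ, χ ∈ T ↔ W (d χ * ee α β χ) = M := fun χ => by simp [hT]
  have hχ0T : χ0 ∈ T := (hTmem χ0).2 rfl
  have hd0 : ∀ χ ∈ T, d χ ≠ 0 := by
    intro χ hχ h
    apply hM0
    rw [← (hTmem χ).1 hχ, h, zero_mul, map_zero]
  set a0 : Ω := d χ0 * ee α β χ0 with ha0
  have hee : ∀ χ : V p, ee α β χ ≠ 0 := fun χ => ee_ne_zero H.α0 H.β0 χ
  have ha00 : a0 ≠ 0 := mul_ne_zero (hd0 χ0 hχ0T) (hee χ0)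
  have hWa0 : W a0 = M := rfl
  -- valuations of the quotients
  have hkey : ∀ χ ∈ T, ∃ u ∈ Kt, W (α ^ ((χ.1.val : ℤ) - χ0.1.val) *
      β ^ ((χ.2.val : ℤ) - χ0.2.val)) = W u := by
    intro χ hχ
    have h1 : W (α ^ ((χ.1.val : ℤ) - χ0.1.val) * β ^ ((χ.2.val : ℤ) - χ0.2.val)) =
        W (d χ0 / d χ) := by
      rw [← ee_div H.α0 H.β0]
      have h2 : W (d χ) * W (ee α β χ) = W (d χ0) * W (ee α β χ0) := by
        rw [← map_mul, ← map_mul]
        exact (hTmem χ).1 hχ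
      have hn1 : W (d χ) ≠ 0 := (Valuation.ne_zero_iff W).2 (hd0 χ hχ)
      have hn2 : W (ee α β χ0) ≠ 0 := (Valuation.ne_zero_iff W).2 (hee χ0)
      rw [map_div₀, map_div₀, div_eq_div_iff hn2 hn1, mul_comm (W (ee α β χ))]
      exact h2
    exact LL2 H _ _ _ (div_mem (hd χ0) (hd χ)) h1
  have hdir : ∀ χ ∈ T, ∃ c : ZMod p, χ - χ0 = c • χ₁ := by
    intro χ hχ
    obtain ⟨u, hu, hWu⟩ := hkey χ hχ
    obtain ⟨c, hc⟩ := H.H1 _ _ u hu hWu
    refine ⟨c, ?_⟩
    rw [← hc, cast_diff, cast_diff]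
    rfl
  by_cases hsing : ∀ χ ∈ T, χ = χ0
  · have : T = {χ0} := by
      ext χ
      rw [Finset.mem_singleton]
      exact ⟨hsing χ, fun h => h ▸ hχ0T⟩
    rw [this, Finset.sum_singleton] at hTlt
    exact lt_irrefl _ hTlt
  push Not at hsing
  obtain ⟨χ', hχ', hne⟩ := hsing
  set δ : V p := χ' - χ0 with hδ
  have hδ0 : δ ≠ 0 := sub_ne_zero.2 hne
  obtain ⟨c', hc'⟩ := hdir χ' hχ'
  have hc'0 : c' ≠ 0 := by
    rintro rfl
    rw [zero_smul] at hc'
    exact hδ0 hc'
  have hline : ∀ χ ∈ T, ∃ l : ZMod p, χ = χ0 + l • δ := by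
    intro χ hχ
    obtain ⟨c, hc⟩ := hdir χ hχ
    refine ⟨c * c'⁻¹, ?_⟩
    have : δ = c' • χ₁ := hc'
    rw [this, smul_smul, mul_assoc, inv_mul_cancel₀ hc'0, mul_one, ← hc]
    abel
  have hinj : Function.Injective fun l : ZMod p => χ0 + l • δ := by
    intro l l' h
    have h1 : l • δ = l' • δ := add_left_cancel h
    exact smul_left_injective _ hδ0 h1
  -- the element η
  obtain ⟨u, hu, hWu⟩ := hkey χ' hχ'
  set i : ℤ := (χ'.1.val : ℤ) - χ0.1.val with hi
  set j : ℤ := (χ'.2.val : ℤ) - χ0.2.val with hj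
  have hαβ : α ^ i * β ^ j ≠ 0 := mul_ne_zero (zpow_ne_zero _ H.α0) (zpow_ne_zero _ H.β0)
  have hu0 : u ≠ 0 := by
    intro h
    rw [h, map_zero] at hWu
    exact (Valuation.ne_zero_iff W).2 hαβ hWu
  set η : Ω := α ^ i * β ^ j * u⁻¹ with hη
  have hη0 : η ≠ 0 := mul_ne_zero hαβ (inv_ne_zero hu0)
  have hWη : W η = 1 := by
    rw [hη, map_mul, map_inv₀, hWu]
    exact mul_inv_cancel₀ ((Valuation.ne_zero_iff W).2 hu0)
  have hηK : η ^ p ∈ K' := by
    apply H.sub
    have : η ^ p = (α ^ p) ^ i * (β ^ p) ^ j * (u⁻¹) ^ p := by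
      rw [hη, mul_pow, mul_pow]
      congr 2
      · rw [← zpow_natCast, ← zpow_natCast, ← zpow_mul, ← zpow_mul, mul_comm]
      · rw [← zpow_natCast, ← zpow_natCast, ← zpow_mul, ← zpow_mul, mul_comm]
    rw [this]
    exact mul_mem (mul_mem (zpow_mem H.αK i) (zpow_mem H.βK j)) (pow_mem (inv_mem hu) p)
  have hij : (((i : ZMod p), (j : ZMod p)) : V p) ≠ 0 := by
    rw [hi, hj, cast_diff, cast_diff]
    exact hδ0
  -- quotient of the monomials
  have hquot : ∀ l : ZMod p, ee α β (χ0 + l • δ) / ee α β χ0 * (η ^ l.val)⁻¹ ∈ Kt := by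
    intro l
    set x := χ0 + l • δ with hx
    have e1 : ee α β x / ee α β χ0 * (η ^ l.val)⁻¹ =
        α ^ (((x.1.val : ℤ) - χ0.1.val) - i * l.val) *
          β ^ (((x.2.val : ℤ) - χ0.2.val) - j * l.val) * u ^ l.val := by
      rw [ee_div H.α0 H.β0, zpow_sub₀ H.α0 _ (i * l.val), zpow_sub₀ H.β0 _ (j * l.val), hη, mul_pow,
        mul_pow, zpow_mul α, zpow_mul β, zpow_natCast, zpow_natCast, inv_pow]
      have h1 : (α ^ i) ^ l.val ≠ 0 := pow_ne_zero _ (zpow_ne_zero _ H.α0)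
      have h2 : (β ^ j) ^ l.val ≠ 0 := pow_ne_zero _ (zpow_ne_zero _ H.β0)
      have h3 : u ^ l.val ≠ 0 := pow_ne_zero _ hu0
      field_simp
    rw [e1]
    refine mul_mem (mul_mem (zpow_mem_of_dvd H.αK ?_) (zpow_mem_of_dvd H.βK ?_)) (pow_mem hu _)
    · rw [← ZMod.intCast_zmod_eq_zero_iff_dvd]
      rw [Int.cast_sub, cast_diff, Int.cast_mul, hi, cast_diff, Int.cast_natCast,
        ZMod.natCast_zmod_val]
      have : x.1 = χ0.1 + l * (χ'.1 - χ0.1) := rfl
      rw [this]; ring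
    · rw [← ZMod.intCast_zmod_eq_zero_iff_dvd]
      rw [Int.cast_sub, cast_diff, Int.cast_mul, hj, cast_diff, Int.cast_natCast,
        ZMod.natCast_zmod_val]
      have : x.2 = χ0.2 + l * (χ'.2 - χ0.2) := rfl
      rw [this]; ring
  -- the coefficients
  set g : ZMod p → Ω := fun l => if χ0 + l • δ ∈ T then
    d (χ0 + l • δ) * ee α β (χ0 + l • δ) / a0 else 0 with hg
  have hWg : ∀ l, χ0 + l • δ ∈ T → W (g l) = 1 := by
    intro l hl
    rw [hg]
    simp only [if_pos hl]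
    rw [map_div₀, (hTmem _).1 hl, hWa0, div_self hM0]
  let c : ℕ → Ω := fun l => g (l : ZMod p) * (η ^ (l : ZMod p).val)⁻¹
  have hcK : ∀ l, c l ∈ K' := by
    intro l
    show g (l : ZMod p) * (η ^ (l : ZMod p).val)⁻¹ ∈ K'
    by_cases hl : χ0 + (l : ZMod p) • δ ∈ T
    · have e1 : g (l : ZMod p) * (η ^ (l : ZMod p).val)⁻¹ =
          (d (χ0 + (l : ZMod p) • δ) / d χ0) * (ee α β (χ0 + (l : ZMod p) • δ) / ee α β χ0 *
            (η ^ (l : ZMod p).val)⁻¹) := by
        rw [hg]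
        simp only [if_pos hl]
        rw [ha0, mul_div_mul_comm, mul_assoc]
      rw [e1]
      exact mul_mem (div_mem (hd _) (hd _)) (H.sub (hquot _))
    · have e1 : g (l : ZMod p) = 0 := by
        rw [hg]; simp only [if_neg hl]
      rw [e1, zero_mul]
      exact zero_mem _
  have hWηp : ∀ n : ℕ, W (η ^ n)⁻¹ = 1 := by
    intro n
    rw [map_inv₀, map_pow, hWη, one_pow, inv_one]
  have hc1 : ∀ l, W (c l) ≤ 1 := by
    intro l
    show W (g (l : ZMod p) * (η ^ (l : ZMod p).val)⁻¹) ≤ 1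
    rw [map_mul, hWηp, mul_one]
    by_cases hl : χ0 + (l : ZMod p) • δ ∈ T
    · exact (hWg _ hl).le
    · have e1 : g (l : ZMod p) = 0 := by
        rw [hg]; simp only [if_neg hl]
      rw [e1, map_zero]
      exact zero_le
  have hc0 : W (c 0) = 1 := by
    show W (g ((0:ℕ) : ZMod p) * (η ^ ((0:ℕ) : ZMod p).val)⁻¹) = 1
    rw [map_mul, hWηp, mul_one]
    apply hWg
    simpa using hχ0T
  have hsum : W (∑ l ∈ Finset.range p, c l * η ^ l) < 1 := by
    have e1 : ∑ l ∈ Finset.range p, c l * η ^ l = ∑ l : ZMod p, g l := by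
      have e2 : ∀ l ∈ Finset.range p, c l * η ^ l = g (l : ZMod p) := by
        intro l hl
        show g (l : ZMod p) * (η ^ (l : ZMod p).val)⁻¹ * η ^ l = _
        rw [ZMod.val_natCast_of_lt (Finset.mem_range.1 hl), mul_assoc,
          inv_mul_cancel₀ (pow_ne_zero _ hη0), mul_one]
      rw [Finset.sum_congr rfl e2]
      refine Finset.sum_bij' (fun l _ => (l : ZMod p)) (fun l _ => l.val) ?_ ?_ ?_ ?_ ?_
      · intro l _; exact Finset.mem_univ _
      · intro l _; exact Finset.mem_range.2 (ZMod.val_lt l)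
      · intro l hl; exact ZMod.val_natCast_of_lt (Finset.mem_range.1 hl)
      · intro l _; exact ZMod.natCast_zmod_val l
      · intro l _; rfl
    have e3 : ∑ l : ZMod p, g l = (∑ χ ∈ T, d χ * ee α β χ) / a0 := by
      rw [hg, ← Finset.sum_filter, Finset.sum_div]
      have e4 : T = (Finset.univ.filter (fun l : ZMod p => χ0 + l • δ ∈ T)).image
          (fun l => χ0 + l • δ) := by
        ext χ
        rw [Finset.mem_image]
        constructor
        · intro hχ
          obtain ⟨l, hl⟩ := hline χ hχ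
          exact ⟨l, by rw [Finset.mem_filter]; exact ⟨Finset.mem_univ _, hl ▸ hχ⟩, hl.symm⟩
        · rintro ⟨l, hl, rfl⟩
          exact (Finset.mem_filter.1 hl).2
      conv_rhs => rw [e4]
      rw [Finset.sum_image (fun l _ l' _ h => hinj h)]
    rw [e1, e3, map_div₀, hWa0]
    exact (div_lt_one₀ (zero_lt_iff.2 hM0)).2 hTlt
  obtain ⟨θ, hθK, hθ⟩ := res_lemma W K' ζ H.ζp (H.sub H.ζK) η hWη hηK c hcK hc1 hc0 hsum
  exact LL3 H i j hij u hu hWu θ hθK hθ

end LL

end Pool.Agent.Helper346.Cay
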