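import Pool.Agent.Helper346.Cay.Defs
import Pool.Agent.Helper346.Cay.JA
import Pool.Agent.Helper346.Cay.JC

set_option autoImplicit false

open Polynomial

namespace Pool.Agent.Helper346.Cay

section LL
variable {Ω Γ₀ : Type*} [Field Ω] [LinearOrderedCommGroupWithZero Γ₀] {W : Valuation Ω Γ₀}
  {p : ℕ} [Fact p.Prime] {ζ α β : Ω} {Kt K' : Subfield Ω} {χ₁ : V p} {e : ℕ}


theorem LL5_aux_mul {a b : Γ₀} (ha : a < 1) (hb : b ≤ 1) : a * b < 1 :=
  (mul_le_of_le_one_right' hb).trans_lt ha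

theorem LL5_aux_prod {ι : Type*} (W : Valuation Ω Γ₀) (s : Finset ι) (f g : ι → Ω)
    (hf : ∀ i ∈ s, W (f i) ≤ 1) (hg : ∀ i ∈ s, W (g i) ≤ 1) (h : ∀ i ∈ s, W (f i - g i) < 1) :
    W (∏ i ∈ s, f i - ∏ i ∈ s, g i) < 1 ∧ W (∏ i ∈ s, f i) ≤ 1 ∧ W (∏ i ∈ s, g i) ≤ 1 := by
  classical
  induction s using Finset.induction_on with
  | empty => simp
  | insert a s ha ih =>
    obtain ⟨h1, h2, h3⟩ := ih (fun i hi => hf i (Finset.mem_insert_of_mem hi))
      (fun i hi => hg i (Finset.mem_insert_of_mem hi))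
      (fun i hi => h i (Finset.mem_insert_of_mem hi))
    have fa := hf a (Finset.mem_insert_self _ _)
    have ga := hg a (Finset.mem_insert_self _ _)
    have fga := h a (Finset.mem_insert_self _ _)
    rw [Finset.prod_insert ha, Finset.prod_insert ha]
    refine ⟨?_, ?_, ?_⟩
    · have e : f a * ∏ i ∈ s, f i - g a * ∏ i ∈ s, g i =
        (f a - g a) * ∏ i ∈ s, f i + (∏ i ∈ s, f i - ∏ i ∈ s, g i) * g a := by ring
      rw [e]
      refine W.map_add_lt ?_ ?_
      · rw [map_mul]; exact LL5_aux_mul fga h2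
      · rw [map_mul]; exact LL5_aux_mul h1 ga
    · rw [map_mul]; exact mul_le_one' fa h2
    · rw [map_mul]; exact mul_le_one' ga h3

theorem LL5_aux_range (p : ℕ) [Fact p.Prime] (F : ZMod p → Ω) :
    ∏ m ∈ Finset.range p, F (m : ZMod p) = ∏ r : ZMod p, F r := by
  refine Finset.prod_nbij' (fun m => (m : ZMod p)) (fun r => r.val) ?_ ?_ ?_ ?_ ?_
  · intro m _; exact Finset.mem_univ _
  · intro r _; exact Finset.mem_range.mpr (ZMod.val_lt r)
  · intro m hm; exact ZMod.val_cast_of_lt (Finset.mem_range.mp hm)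
  · intro r _; exact ZMod.natCast_zmod_val r
  · intro m _; rfl

theorem LL5_aux_fib (p : ℕ) [Fact p.Prime] (F : ZMod p → Ω) (χ : V p) (hχ : χ ≠ 0) :
    ∏ τ : V p, F (dot χ τ) = (∏ r : ZMod p, F r) ^ p := by
  have key : ∏ τ : V p, F τ.1 = (∏ r : ZMod p, F r) ^ p := by
    rw [Fintype.prod_prod_type]
    simp [Finset.prod_pow, ZMod.card]
  rw [← key]
  by_cases h1 : χ.1 = 0
  · have h2 : χ.2 ≠ 0 := fun h => hχ (Prod.ext h1 h)
    refine Fintype.prod_bijective (fun τ : V p => ((dot χ τ, τ.1) : V p)) ?_ _ _ (fun _ => rfl)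
    refine (Finite.injective_iff_bijective).mp ?_
    intro a b hab
    simp only [dot, Prod.mk.injEq] at hab
    obtain ⟨hab1, hab2⟩ := hab
    rw [hab2] at hab1
    have := add_left_cancel hab1
    exact Prod.ext hab2 (mul_left_cancel₀ h2 this)
  · refine Fintype.prod_bijective (fun τ : V p => ((dot χ τ, τ.2) : V p)) ?_ _ _ (fun _ => rfl)
    refine (Finite.injective_iff_bijective).mp ?_
    intro a b hab
    simp only [dot, Prod.mk.injEq] at hab
    obtain ⟨hab1, hab2⟩ := hab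
    rw [hab2] at hab1
    have := add_right_cancel hab1
    exact Prod.ext (mul_left_cancel₀ h1 this) hab2

theorem LL5_aux_dot {p : ℕ} (a : ZMod p) (x y : V p) : dot (a • x) y = a * dot x y := by
  simp only [dot, Prod.smul_fst, Prod.smul_snd, smul_eq_mul]; ring

theorem LL5_aux_dot' {p : ℕ} (a : ZMod p) (x y : V p) : dot x (a • y) = a * dot x y := by
  simp only [dot, Prod.smul_fst, Prod.smul_snd, smul_eq_mul]; ring

theorem LL5 (H : LH W p ζ α β Kt K' χ₁ e) (c : V p → Ω) (hc : ∀ χ, c χ ∈ K')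
    (hprod : ∏ τ : V p, (∑ χ, ζ ^ (dot χ τ).val * (c χ * ee α β χ)) = 1) :
    ∃ i : ℕ, ∀ h : V p, dot χ₁ h ≠ 0 →
      W ((∏ m ∈ Finset.range p, (∑ χ, ζ ^ (dot χ ((m : ZMod p) • h)).val * (c χ * ee α β χ)))
        - ζ ^ i) < 1 := by
  classical
  have hp : p.Prime := Fact.out
  by_cases hχ : χ₁ = 0
  · refine ⟨0, fun h hh => absurd ?_ hh⟩
    rw [hχ]; simp [dot]
  have hWζ : W ζ = 1 := by
    have h1 : W ζ ^ p = 1 := by rw [← map_pow, H.ζp.pow_eq_one, map_one]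
    exact (pow_eq_one_iff_of_nonneg zero_le hp.ne_zero).mp h1
  have hWζn : ∀ n : ℕ, W (ζ ^ n) = 1 := fun n => by rw [map_pow, hWζ, one_pow]
  set b : V p → Ω := fun χ => c χ * ee α β χ with hb
  set x : V p → Ω := fun τ => ∑ χ, ζ ^ (dot χ τ).val * b χ with hx
  obtain ⟨χ0, hχ0⟩ := Finite.exists_max (fun χ => W (b χ))
  have hWx : ∀ τ, W (x τ) = W (b χ0) := by
    intro τ
    apply le_antisymm
    · refine W.map_sum_le fun χ _ => ?_
      rw [map_mul, hWζn, one_mul]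
      exact hχ0 χ
    · have := LL4 H (fun χ => ζ ^ (dot χ τ).val * c χ)
        (fun χ => K'.mul_mem (K'.pow_mem (H.sub H.ζK) _) (hc χ)) χ0
      simp only [mul_assoc] at this
      rw [map_mul, hWζn, one_mul] at this
      exact this
  have hM : W (b χ0) = 1 := by
    have h1 : W (∏ τ : V p, x τ) = 1 := by
      rw [show ∏ τ : V p, x τ = 1 from hprod, map_one]
    rw [map_prod, Finset.prod_congr rfl (fun τ _ => hWx τ), Finset.prod_const] at h1
    refine (pow_eq_one_iff_of_nonneg zero_le ?_).mp h1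
    rw [Finset.card_univ]
    exact Fintype.card_ne_zero
  have hb1 : ∀ χ, W (b χ) ≤ 1 := fun χ => (hχ0 χ).trans hM.le
  have hb2 : ∀ χ, W (b χ) = 1 → ∃ a : ZMod p, χ = a • χ₁ := by
    intro χ h1
    have hcne : c χ ≠ 0 := by
      intro h0
      simp only [hb, h0, zero_mul, map_zero] at h1
      exact zero_ne_one h1
    have h2 : W (α ^ (χ.1.val : ℤ) * β ^ (χ.2.val : ℤ)) = W (c χ)⁻¹ := by
      simp only [hb, map_mul] at h1
      rw [map_inv₀, zpow_natCast, zpow_natCast]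
      exact eq_inv_of_mul_eq_one_right h1
    obtain ⟨u, hu, hWu⟩ := LL2 H _ _ _ (K'.inv_mem (hc χ)) h2
    obtain ⟨a, ha⟩ := H.H1 _ _ u hu hWu
    refine ⟨a, ?_⟩
    rw [← ha]
    refine Prod.ext ?_ ?_ <;> simp
  set ξ : ZMod p → Ω := fun r => ∑ a : ZMod p, ζ ^ (a * r).val * b (a • χ₁) with hξ
  have hinj : Function.Injective (fun a : ZMod p => a • χ₁) := by
    intro a a' haa
    simp only at haa
    by_contra hne
    apply hχ
    have h1 : (a - a') • χ₁ = 0 := by rw [sub_smul, haa, sub_self]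
    have h2 : a - a' ≠ 0 := sub_ne_zero.mpr hne
    refine Prod.ext ?_ ?_
    · have := congrArg Prod.fst h1
      simpa [h2] using this
    · have := congrArg Prod.snd h1
      simpa [h2] using this
  have hxξ : ∀ τ, W (x τ - ξ (dot χ₁ τ)) < 1 := by
    intro τ
    have e1 : ξ (dot χ₁ τ) = ∑ χ ∈ Finset.univ.image (fun a : ZMod p => a • χ₁),
        ζ ^ (dot χ τ).val * b χ := by
      rw [Finset.sum_image (fun a _ a' _ h => hinj h)]
      simp only [LL5_aux_dot, hξ]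
    have e2 : x τ - ξ (dot χ₁ τ) = ∑ χ ∈ (Finset.univ.image (fun a : ZMod p => a • χ₁))ᶜ,
        ζ ^ (dot χ τ).val * b χ := by
      rw [e1, sub_eq_iff_eq_add, add_comm, Finset.sum_add_sum_compl]
    rw [e2]
    refine W.map_sum_lt one_ne_zero fun χ hχ' => ?_
    rw [map_mul, hWζn, one_mul]
    refine lt_of_le_of_ne (hb1 χ) fun h1 => ?_
    obtain ⟨a, ha⟩ := hb2 χ h1
    rw [Finset.mem_compl] at hχ'
    exact hχ' (Finset.mem_image.mpr ⟨a, Finset.mem_univ _, ha.symm⟩)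
  have hξ1 : ∀ r, W (ξ r) ≤ 1 := by
    intro r
    refine W.map_sum_le fun a _ => ?_
    rw [map_mul, hWζn, one_mul]
    exact hb1 _
  have hx1 : ∀ τ, W (x τ) ≤ 1 := fun τ => ((hWx τ).trans hM).le
  have hν : W ((∏ r : ZMod p, ξ r) ^ p - 1) < 1 := by
    have h1 := (LL5_aux_prod W Finset.univ x (fun τ => ξ (dot χ₁ τ)) (fun τ _ => hx1 τ)
      (fun τ _ => hξ1 _) (fun τ _ => hxξ τ)).1
    rw [show ∏ τ : V p, x τ = 1 from hprod, LL5_aux_fib p ξ χ₁ hχ] at h1
    rwa [W.map_sub_swap] at h1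
  have hex : ∃ η ∈ nthRootsFinset p (1 : Ω), W ((∏ r : ZMod p, ξ r) - η) < 1 := by
    by_contra hcon
    push Not at hcon
    have h1 : (∏ r : ZMod p, ξ r) ^ p - 1 = ∏ η ∈ nthRootsFinset p (1 : Ω),
        ((∏ r : ZMod p, ξ r) - η) := by
      have h2 := congrArg (Polynomial.eval (∏ r : ZMod p, ξ r))
        (X_pow_sub_one_eq_prod hp.pos H.ζp)
      simpa [Polynomial.eval_prod] using h2
    rw [h1, map_prod] at hν
    exact absurd (Finset.one_le_prod' hcon) (not_le.mpr hν)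
  obtain ⟨η, hη, hWη⟩ := hex
  rw [mem_nthRootsFinset hp.pos] at hη
  obtain ⟨i, _, hi⟩ := H.ζp.eq_pow_of_pow_eq_one hη
  refine ⟨i, fun h hh => ?_⟩
  have h1 := (LL5_aux_prod W (Finset.range p) (fun m : ℕ => x ((m : ZMod p) • h))
    (fun m : ℕ => ξ (dot χ₁ ((m : ZMod p) • h))) (fun m _ => hx1 _)
      (fun m _ => hξ1 _) (fun m _ => hxξ _)).1
  have h2 : ∏ m ∈ Finset.range p, ξ (dot χ₁ ((m : ZMod p) • h)) = ∏ r : ZMod p, ξ r := by
    simp only [LL5_aux_dot']
    rw [LL5_aux_range p (fun r => ξ (r * dot χ₁ h))]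
    exact Fintype.prod_equiv (Equiv.mulRight₀ _ hh) _ _ (fun _ => rfl)
  rw [h2] at h1
  have h3 : ∏ m ∈ Finset.range p, x ((m : ZMod p) • h) - ζ ^ i =
      (∏ m ∈ Finset.range p, x ((m : ZMod p) • h) - ∏ r : ZMod p, ξ r) +
        ((∏ r : ZMod p, ξ r) - η) := by
    rw [← hi]; ring
  rw [h3]
  exact W.map_add_lt h1 hWη

end LL

end Pool.Agent.Helper346.Cay
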