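import Pool.Agent.Helper346.Cay.Defs

set_option autoImplicit false

open Polynomial

namespace Pool.Agent.Helper346.Cay

section VAL
variable {E : Type*} [Field E]



theorem h556_mul {K1 : Subfield E} {f g : E[X]} (hf : ∀ i, f.coeff i ∈ K1) (hg : ∀ i, g.coeff i ∈ K1) :
    ∀ i, (f * g).coeff i ∈ K1 := by
  intro i
  rw [Polynomial.coeff_mul]
  exact Subfield.sum_mem _ (fun c _ => mul_mem (hf _) (hg _))

theorem h556_quot {K1 : Subfield E} {z : Et E} (hz : z ∈ KT K1) : ∃ f g : E[X],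
    (∀ i, f.coeff i ∈ K1) ∧ (∀ i, g.coeff i ∈ K1) ∧ g ≠ 0 ∧
    z = algebraMap E[X] (Et E) f / algebraMap E[X] (Et E) g := by
  have hinj : Function.Injective (algebraMap E[X] (Et E)) := IsFractionRing.injective _ _
  have hne : ∀ g : E[X], g ≠ 0 → algebraMap E[X] (Et E) g ≠ 0 := fun g hg h =>
    hg (hinj (by rw [h, map_zero]))
  have h1 : ∀ i, (1 : E[X]).coeff i ∈ K1 := by
    intro i
    rw [Polynomial.coeff_one]
    split_ifs
    · exact one_mem _
    · exact zero_mem _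
  unfold KT at hz
  induction hz using Subfield.closure_induction with
  | mem x hx =>
    obtain ⟨f, hf, rfl⟩ := hx
    exact ⟨f, 1, hf, h1, one_ne_zero, by simp⟩
  | one => exact ⟨1, 1, h1, h1, one_ne_zero, by simp⟩
  | add x y _ _ hx hy =>
    obtain ⟨f, g, hf, hg, hg0, rfl⟩ := hx
    obtain ⟨f', g', hf', hg', hg0', rfl⟩ := hy
    refine ⟨f * g' + g * f', g * g', ?_, h556_mul hg hg', mul_ne_zero hg0 hg0', ?_⟩
    · intro i
      rw [Polynomial.coeff_add]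
      exact add_mem (h556_mul hf hg' i) (h556_mul hg hf' i)
    · rw [div_add_div _ _ (hne _ hg0) (hne _ hg0')]
      simp
  | neg x _ hx =>
    obtain ⟨f, g, hf, hg, hg0, rfl⟩ := hx
    refine ⟨-f, g, ?_, hg, hg0, by simp [neg_div]⟩
    intro i
    rw [Polynomial.coeff_neg]
    exact neg_mem (hf i)
  | inv x _ hx =>
    obtain ⟨f, g, hf, hg, hg0, rfl⟩ := hx
    by_cases h : f = 0
    · subst h
      exact ⟨0, 1, hf, h1, one_ne_zero, by simp⟩
    · exact ⟨g, f, hg, hf, h, by simp⟩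
  | mul x y _ _ hx hy =>
    obtain ⟨f, g, hf, hg, hg0, rfl⟩ := hx
    obtain ⟨f', g', hf', hg', hg0', rfl⟩ := hy
    refine ⟨f * f', g * g', h556_mul hf hf', h556_mul hg hg', mul_ne_zero hg0 hg0', ?_⟩
    rw [div_mul_div_comm]
    simp

theorem h556_val {p : ℕ} {k : Type*} [Field k] [Algebra k E] (D : Dat p k E) (s : ℝ) (f : E[X])
    (hf : ∀ i, f.coeff i ∈ D.K1) (hf0 : f ≠ 0) : ∃ a b m : ℤ,
    (GV D.v D.na s (algebraMap E[X] (Et E) f) : ℝ) =
      Real.exp (-((p : ℝ) * (a + b * Real.sqrt 2) + m * s)) := by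
  rw [GV_alg]
  obtain ⟨i, hi⟩ := Polynomial.exists_eq_gaussNorm D.v (Real.exp (-s)) f
  have hc : f.coeff i ≠ 0 := by
    intro h
    rw [h, AbsoluteValue.map_zero, zero_mul] at hi
    exact hf0 ((Polynomial.gaussNorm_eq_zero_iff D.v f
      (fun x hx => (AbsoluteValue.eq_zero D.v).mp hx) (Real.exp_pos _)).mp hi)
  obtain ⟨a, b, hab⟩ := D.val _ (hf i) hc
  refine ⟨a, b, i, ?_⟩
  rw [hi, hab, ← Real.exp_nat_mul, ← Real.exp_add]
  congr 1
  push_cast
  ring

theorem VT1 {p : ℕ} {k : Type*} [Field k] [Algebra k E] (D : Dat p k E) (s : ℝ) (z : Et E)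
    (hz : z ∈ KT D.K1) (hz0 : z ≠ 0) : ∃ a b m : ℤ,
    (GV D.v D.na s z : ℝ) = Real.exp (-((p : ℝ) * (a + b * Real.sqrt 2) + m * s)) := by
  obtain ⟨f, g, hf, hg, hg0, rfl⟩ := h556_quot hz
  have hf0 : f ≠ 0 := by
    rintro rfl
    simp at hz0
  obtain ⟨a, b, m, h1⟩ := h556_val D s f hf hf0
  obtain ⟨a', b', m', h2⟩ := h556_val D s g hg hg0
  refine ⟨a - a', b - b', m - m', ?_⟩
  rw [map_div₀, NNReal.coe_div, h1, h2, ← Real.exp_sub]
  congr 1
  push_cast
  ring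

theorem VT6 (v : AbsoluteValue E ℝ) (na : IsNonarchimedean v) (s : ℝ) (c : E) :
    (GV v na s (cE E c) : ℝ) = v c := by
  unfold cE
  rw [RingHom.comp_apply, GV_alg, Polynomial.gaussNorm_C]

end VAL

end Pool.Agent.Helper346.Cay

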