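import Pool.Agent.Helper346.Cay.Defs

set_option autoImplicit false

open Polynomial

namespace Pool.Agent.Helper346.Cay

section VAL
variable {E : Type*} [Field E]



theorem VT2_aux0 {p : ℕ} [Fact p.Prime] {k : Type*} [Field k] [Algebra k E] (D : Dat p k E)
    (c : E) (hc : c ∈ D.K1) (h0 : c ≠ 0) (χ : V p) :
    ∃ a b : ℤ, D.v (c * ee D.α D.β χ) =
      Real.exp (-((p : ℝ) * (a + b * Real.sqrt 2) + (χ.1.val + χ.2.val * Real.sqrt 2))) := by
  obtain ⟨a, b, hab⟩ := D.val c hc h0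
  refine ⟨a, b, ?_⟩
  rw [ee, map_mul, map_mul, map_pow, map_pow, hab, D.hα, D.hβ, ← Real.exp_nat_mul,
    ← Real.exp_nat_mul, ← Real.exp_add, ← Real.exp_add]
  congr 1
  ring

theorem VT2_aux1 {m n : ℤ} (h : (m : ℝ) + n * Real.sqrt 2 = 0) : m = 0 ∧ n = 0 := by
  have hn : n = 0 := by
    by_contra hn
    apply irrational_sqrt_two
    refine ⟨-(m : ℚ) / n, ?_⟩
    have hn' : (n : ℝ) ≠ 0 := by exact_mod_cast hn
    push_cast
    field_simp
    linarith
  subst hn
  simp at h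
  exact ⟨h, rfl⟩

theorem VT2_aux2 {p : ℕ} [Fact p.Prime] {k : Type*} [Field k] [Algebra k E] (D : Dat p k E)
    (c c' : E) (hc : c ∈ D.K1) (h0 : c ≠ 0) (hc' : c' ∈ D.K1) (h0' : c' ≠ 0) (χ χ' : V p)
    (h : D.v (c * ee D.α D.β χ) = D.v (c' * ee D.α D.β χ')) : χ = χ' := by
  obtain ⟨a, b, hab⟩ := VT2_aux0 D c hc h0 χ
  obtain ⟨a', b', hab'⟩ := VT2_aux0 D c' hc' h0' χ'
  rw [hab, hab'] at h
  have h1 := Real.exp_injective h
  have h2 : (((p : ℤ) * (a - a') + ((χ.1.val : ℤ) - χ'.1.val) : ℤ) : ℝ) +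
      (((p : ℤ) * (b - b') + ((χ.2.val : ℤ) - χ'.2.val) : ℤ) : ℝ) * Real.sqrt 2 = 0 := by
    push_cast
    linear_combination -h1
  obtain ⟨e1, e2⟩ := VT2_aux1 h2
  have f1 := congrArg (Int.cast : ℤ → ZMod p) e1
  have f2 := congrArg (Int.cast : ℤ → ZMod p) e2
  push_cast at f1 f2
  simp [sub_eq_zero] at f1 f2
  exact Prod.ext f1 f2

theorem VT2_step1 {p : ℕ} [Fact p.Prime] {k : Type*} [Field k] [Algebra k E] (D : Dat p k E)
    (c : V p → E) (hc : ∀ χ, c χ ∈ D.K1) (χ : V p) :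
    D.v (c χ * ee D.α D.β χ) ≤ D.v (∑ χ', c χ' * ee D.α D.β χ') := by
  haveI : NeZero p := ⟨(Fact.out : p.Prime).ne_zero⟩
  obtain ⟨χ0, -, hmax⟩ := Finset.exists_max_image (Finset.univ : Finset (V p))
    (fun χ => D.v (c χ * ee D.α D.β χ)) ⟨0, Finset.mem_univ _⟩
  have hα0 : D.α ≠ 0 := by
    intro h
    have := D.hα
    rw [h, map_zero] at this
    exact absurd this.symm (Real.exp_pos _).ne'
  have hβ0 : D.β ≠ 0 := by
    intro h
    have := D.hβ
    rw [h, map_zero] at this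
    exact absurd this.symm (Real.exp_pos _).ne'
  have hee : ∀ χ : V p, ee D.α D.β χ ≠ 0 := by
    intro χ
    unfold ee
    exact mul_ne_zero (pow_ne_zero _ hα0) (pow_ne_zero _ hβ0)
  by_cases h0 : c χ0 = 0
  · have h1 := hmax χ (Finset.mem_univ _)
    simp only [h0, zero_mul, map_zero] at h1
    exact h1.trans (D.v.nonneg _)
  · have hpos : 0 < D.v (c χ0 * ee D.α D.β χ0) := D.v.pos (mul_ne_zero h0 (hee χ0))
    have key : ∀ j ∈ (Finset.univ : Finset (V p)), j ≠ χ0 →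
        D.v (c j * ee D.α D.β j) < D.v (c χ0 * ee D.α D.β χ0) := by
      intro j hj hne
      refine lt_of_le_of_ne (hmax j hj) ?_
      intro heq
      by_cases hj0 : c j = 0
      · rw [hj0, zero_mul, map_zero] at heq
        exact absurd heq hpos.ne
      · exact hne (VT2_aux2 D _ _ (hc j) hj0 (hc χ0) h0 j χ0 heq)
    rw [IsNonarchimedean.apply_sum_eq_of_lt D.na (fun a => (D.v.map_neg a).symm)
      (Finset.mem_univ χ0) key]
    exact hmax χ (Finset.mem_univ _)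

theorem VT2_quot (K1 : Subfield E) (x : Et E) (hx : x ∈ KT K1) :
    ∃ f g : E[X], (∀ i, f.coeff i ∈ K1) ∧ (∀ i, g.coeff i ∈ K1) ∧ g ≠ 0 ∧
      x * algebraMap E[X] (Et E) g = algebraMap E[X] (Et E) f := by
  have hinj : Function.Injective (algebraMap E[X] (Et E)) := IsFractionRing.injective _ _
  have hmul : ∀ f g : E[X], (∀ i, f.coeff i ∈ K1) → (∀ i, g.coeff i ∈ K1) →
      ∀ i, (f * g).coeff i ∈ K1 := by
    intro f g hf hg i
    rw [Polynomial.coeff_mul]
    exact sum_mem (fun x _ => mul_mem (hf _) (hg _))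
  have h1c : ∀ i, (1 : E[X]).coeff i ∈ K1 := by
    intro i
    rw [Polynomial.coeff_one]
    split_ifs
    · exact one_mem _
    · exact zero_mem _
  unfold KT at hx
  induction hx using Subfield.closure_induction with
  | mem x hx =>
    obtain ⟨f, hf, rfl⟩ := hx
    exact ⟨f, 1, hf, h1c, one_ne_zero, by simp⟩
  | one => exact ⟨1, 1, h1c, h1c, one_ne_zero, by simp⟩
  | add x y _ _ hx hy =>
    obtain ⟨f, g, hf, hg, h0, h1⟩ := hx
    obtain ⟨f', g', hf', hg', h0', h1'⟩ := hy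
    refine ⟨f * g' + f' * g, g * g', ?_, hmul _ _ hg hg', mul_ne_zero h0 h0', ?_⟩
    · intro i
      rw [Polynomial.coeff_add]
      exact add_mem (hmul _ _ hf hg' i) (hmul _ _ hf' hg i)
    · rw [map_mul, map_add, map_mul, map_mul, ← h1, ← h1']
      ring
  | neg x _ hx =>
    obtain ⟨f, g, hf, hg, h0, h1⟩ := hx
    refine ⟨-f, g, ?_, hg, h0, ?_⟩
    · intro i
      rw [Polynomial.coeff_neg]
      exact neg_mem (hf i)
    · rw [map_neg, ← h1]; ring
  | inv x _ hx =>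
    obtain ⟨f, g, hf, hg, h0, h1⟩ := hx
    by_cases hf0 : f = 0
    · have hx0 : x = 0 := by
        rw [hf0, map_zero] at h1
        rcases mul_eq_zero.mp h1 with h | h
        · exact h
        · exact absurd ((map_eq_zero_iff _ hinj).mp h) h0
      refine ⟨0, 1, ?_, h1c, one_ne_zero, ?_⟩
      · intro i; simp
      · rw [hx0]; simp
    · refine ⟨g, f, hg, hf, hf0, ?_⟩
      rw [← h1]
      have hx0 : x ≠ 0 := by
        rintro rfl
        rw [zero_mul] at h1
        exact hf0 ((map_eq_zero_iff _ hinj).mp h1.symm)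
      field_simp
  | mul x y _ _ hx hy =>
    obtain ⟨f, g, hf, hg, h0, h1⟩ := hx
    obtain ⟨f', g', hf', hg', h0', h1'⟩ := hy
    refine ⟨f * f', g * g', hmul _ _ hf hf', hmul _ _ hg hg', mul_ne_zero h0 h0', ?_⟩
    rw [map_mul, map_mul, ← h1, ← h1']
    ring

theorem VT2_common (K1 : Subfield E) {ι : Type*} (s : Finset ι) (u : ι → Et E)
    (hu : ∀ i, u i ∈ KT K1) :
    ∃ g : E[X], (∀ i, g.coeff i ∈ K1) ∧ g ≠ 0 ∧ ∀ i ∈ s, ∃ f : E[X], (∀ j, f.coeff j ∈ K1) ∧
      u i * algebraMap E[X] (Et E) g = algebraMap E[X] (Et E) f := by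
  classical
  have hmul : ∀ f g : E[X], (∀ i, f.coeff i ∈ K1) → (∀ i, g.coeff i ∈ K1) →
      ∀ i, (f * g).coeff i ∈ K1 := by
    intro f g hf hg i
    rw [Polynomial.coeff_mul]
    exact sum_mem (fun x _ => mul_mem (hf _) (hg _))
  have h1c : ∀ i, (1 : E[X]).coeff i ∈ K1 := by
    intro i
    rw [Polynomial.coeff_one]
    split_ifs
    · exact one_mem _
    · exact zero_mem _
  induction s using Finset.induction_on with
  | empty => exact ⟨1, h1c, one_ne_zero, by simp⟩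
  | insert a s ha ih =>
    obtain ⟨g, hg, h0, hs⟩ := ih
    obtain ⟨f', g', hf', hg', h0', h1'⟩ := VT2_quot K1 (u a) (hu a)
    refine ⟨g * g', hmul _ _ hg hg', mul_ne_zero h0 h0', ?_⟩
    intro i hi
    rcases Finset.mem_insert.mp hi with rfl | hi
    · refine ⟨f' * g, hmul _ _ hf' hg, ?_⟩
      rw [map_mul, map_mul, ← h1']; ring
    · obtain ⟨f, hf, h1⟩ := hs i hi
      refine ⟨f * g', hmul _ _ hf hg', ?_⟩
      rw [map_mul, map_mul, ← h1]; ring

theorem VT2_gauss_mono (v : AbsoluteValue E ℝ) (na : IsNonarchimedean v) (s : ℝ) (F G : E[X])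
    (h : ∀ i, v (F.coeff i) ≤ v (G.coeff i)) :
    GV v na s (algebraMap E[X] (Et E) F) ≤ GV v na s (algebraMap E[X] (Et E) G) := by
  rw [← NNReal.coe_le_coe, GV_alg, GV_alg]
  obtain ⟨i, hi⟩ := Polynomial.exists_eq_gaussNorm v (Real.exp (-s)) F
  rw [hi]
  exact (mul_le_mul_of_nonneg_right (h i) (pow_nonneg (Real.exp_pos _).le _)).trans
    (Polynomial.le_gaussNorm v G (Real.exp_pos _).le i)

theorem VT2_ee {p : ℕ} (α β : E) (χ : V p) :
    ee (cE E α) (cE E β) χ = algebraMap E[X] (Et E) (Polynomial.C (ee α β χ)) := by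
  unfold ee cE
  simp

theorem VT2 {p : ℕ} [Fact p.Prime] {k : Type*} [Field k] [Algebra k E] (D : Dat p k E) (s : ℝ)
    (u : V p → Et E) (hu : ∀ χ, u χ ∈ KT D.K1) (χ : V p) :
    GV D.v D.na s (u χ * ee (cE E D.α) (cE E D.β) χ) ≤
      GV D.v D.na s (∑ χ', u χ' * ee (cE E D.α) (cE E D.β) χ') := by
  haveI : NeZero p := ⟨(Fact.out : p.Prime).ne_zero⟩
  obtain ⟨g, hg, h0, hs⟩ := VT2_common D.K1 (Finset.univ : Finset (V p)) u hu
  choose f hf h1 using fun χ => hs χ (Finset.mem_univ χ)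
  have hinj : Function.Injective (algebraMap E[X] (Et E)) := IsFractionRing.injective _ _
  have hg0 : algebraMap E[X] (Et E) g ≠ 0 := fun h => h0 ((map_eq_zero_iff _ hinj).mp h)
  have hW : GV D.v D.na s (algebraMap E[X] (Et E) g) ≠ 0 := by
    rwa [Valuation.ne_zero_iff]
  have hmain : GV D.v D.na s (u χ * ee (cE E D.α) (cE E D.β) χ) *
      GV D.v D.na s (algebraMap E[X] (Et E) g) ≤
      GV D.v D.na s (∑ χ', u χ' * ee (cE E D.α) (cE E D.β) χ') *
      GV D.v D.na s (algebraMap E[X] (Et E) g) := by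
    rw [← map_mul, ← map_mul]
    have e1 : u χ * ee (cE E D.α) (cE E D.β) χ * algebraMap E[X] (Et E) g =
        algebraMap E[X] (Et E) (f χ * Polynomial.C (ee D.α D.β χ)) := by
      rw [map_mul, ← h1, VT2_ee]; ring
    have e2 : (∑ χ', u χ' * ee (cE E D.α) (cE E D.β) χ') * algebraMap E[X] (Et E) g =
        algebraMap E[X] (Et E) (∑ χ', f χ' * Polynomial.C (ee D.α D.β χ')) := by
      rw [map_sum, Finset.sum_mul]
      refine Finset.sum_congr rfl (fun χ' _ => ?_)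
      rw [map_mul, ← h1, VT2_ee]; ring
    rw [e1, e2]
    apply VT2_gauss_mono
    intro i
    rw [Polynomial.coeff_mul_C, Polynomial.finset_sum_coeff]
    simp only [Polynomial.coeff_mul_C]
    exact VT2_step1 D (fun χ' => (f χ').coeff i) (fun χ' => hf χ' i) χ
  exact le_of_mul_le_mul_right hmain (pos_iff_ne_zero.mpr hW)

end VAL

end Pool.Agent.Helper346.Cay
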