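import Pool.Agent.Helper346.Cay.Defs

set_option autoImplicit false

open Polynomial

namespace Pool.Agent.Helper346.Cay

section VAL
variable {E : Type*} [Field E]


theorem GN_cont (v : AbsoluteValue E ℝ) (f : E[X]) :
    Continuous (fun s : ℝ => f.gaussNorm v (Real.exp (-s))) := by
  unfold Polynomial.gaussNorm
  by_cases h : f.support.Nonempty
  · simp only [h, dite_true]
    apply Continuous.finset_sup'_apply
    intro i _
    fun_prop
  · simp only [h, dite_false]
    exact continuous_const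

theorem GV_div_lt (v : AbsoluteValue E ℝ) (na : IsNonarchimedean v) (s : ℝ) (f g : E[X])
    (hg : g ≠ 0) :
    GV v na s (algebraMap E[X] (Et E) f / algebraMap E[X] (Et E) g) < 1 ↔
      f.gaussNorm v (Real.exp (-s)) < g.gaussNorm v (Real.exp (-s)) := by
  have hg' : algebraMap E[X] (Et E) g ≠ 0 := by
    intro h
    exact hg ((IsFractionRing.injective E[X] (Et E)) (by rw [h, map_zero]))
  have hpos : 0 < GV v na s (algebraMap E[X] (Et E) g) := by
    rw [zero_lt_iff]
    exact (Valuation.ne_zero_iff _).mpr hg'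
  rw [map_div₀, div_lt_one₀ hpos, ← GV_alg v na s f, ← GV_alg v na s g, NNReal.coe_lt_coe]

theorem VT3 (v : AbsoluteValue E ℝ) (na : IsNonarchimedean v) (z : Et E) :
    IsOpen {s : ℝ | GV v na s z < 1} := by
  obtain ⟨f, g, hg, rfl⟩ := IsFractionRing.div_surjective (A := E[X]) z
  have hg0 : g ≠ 0 := nonZeroDivisors.ne_zero hg
  simp only [GV_div_lt v na _ f g hg0]
  exact isOpen_lt (GN_cont v f) (GN_cont v g)

theorem VT4 (v : AbsoluteValue E ℝ) (na : IsNonarchimedean v) (f g : E[X]) (hf : f.eval 0 = 0)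
    (hg : g.eval 0 ≠ 0) : ∃ s0 : ℝ, ∀ s ≥ s0,
    GV v na s (algebraMap E[X] (Et E) f / algebraMap E[X] (Et E) g) < 1 := by
  have hg0 : g ≠ 0 := by
    rintro rfl
    simp at hg
  have hgc : g.coeff 0 ≠ 0 := by rwa [Polynomial.coeff_zero_eq_eval_zero]
  have hfc : f.coeff 0 = 0 := by rw [Polynomial.coeff_zero_eq_eval_zero, hf]
  have hgpos : 0 < v (g.coeff 0) := v.pos hgc
  set M : ℝ := ∑ i ∈ f.support, v (f.coeff i) with hM
  have hM0 : 0 ≤ M := Finset.sum_nonneg fun i _ => v.nonneg _
  have hlim : Filter.Tendsto (fun s : ℝ => Real.exp (-s) * M) Filter.atTop (nhds 0) := by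
    have := Real.tendsto_exp_neg_atTop_nhds_zero.mul_const M
    simpa using this
  have hev := (hlim.eventually (gt_mem_nhds hgpos)).and (Filter.eventually_ge_atTop (0 : ℝ))
  obtain ⟨s0, hs0⟩ := Filter.eventually_atTop.mp hev
  refine ⟨s0, fun s hs => ?_⟩
  obtain ⟨h1, h2⟩ := hs0 s hs
  rw [GV_div_lt v na s f g hg0]
  have hexp : Real.exp (-s) ≤ 1 := Real.exp_le_one_iff.mpr (by linarith)
  have hexp0 : 0 ≤ Real.exp (-s) := (Real.exp_pos _).le
  have hgn : v (g.coeff 0) ≤ g.gaussNorm v (Real.exp (-s)) := by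
    have := Polynomial.le_gaussNorm v g hexp0 0
    simpa using this
  have hfn : f.gaussNorm v (Real.exp (-s)) ≤ Real.exp (-s) * M := by
    unfold Polynomial.gaussNorm
    by_cases h : f.support.Nonempty
    · simp only [h, dite_true]
      apply Finset.sup'_le
      intro i hi
      have hi0 : i ≠ 0 := by
        rintro rfl
        exact (Polynomial.mem_support_iff.mp hi) hfc
      have h3 : v (f.coeff i) ≤ M :=
        Finset.single_le_sum (f := fun i => v (f.coeff i)) (fun j _ => v.nonneg _) hi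
      have h4 : Real.exp (-s) ^ i ≤ Real.exp (-s) := pow_le_of_le_one hexp0 hexp hi0
      calc v (f.coeff i) * Real.exp (-s) ^ i ≤ M * Real.exp (-s) :=
            mul_le_mul h3 h4 (pow_nonneg hexp0 _) hM0
        _ = _ := mul_comm _ _
    · simp only [h, dite_false]
      positivity
  exact lt_of_le_of_lt hfn (lt_of_lt_of_le h1 hgn)

end VAL

end Pool.Agent.Helper346.Cay
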