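import Pool.Agent.Helper346.Cay.Defs

set_option autoImplicit false

open Polynomial

namespace Pool.Agent.Helper346.Cay

section VAL
variable {E : Type*} [Field E]


theorem VT5_C (v : AbsoluteValue E ℝ) (na : IsNonarchimedean v) (a : E) :
    ((GP v na 0 (C a) : NNReal) : ℝ) = v a := by
  rw [GP_apply, gaussNorm_C]

theorem VT5_one_sub_X (v : AbsoluteValue E ℝ) (na : IsNonarchimedean v) :
    GP v na 0 (1 - X) ≤ 1 := by
  refine (GP v na 0).map_sub_le (by rw [map_one]) ?_
  rw [← NNReal.coe_le_coe, GP_apply, ← monomial_one_one_eq_X, gaussNorm_monomial]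
  simp

theorem VT5_le (v : AbsoluteValue E ℝ) (na : IsNonarchimedean v) (f : E[X]) :
    GP v na 0 (f.comp (1 - X)) ≤ GP v na 0 f := by
  have e : f.comp (1 - X) = ∑ i ∈ f.support, C (f.coeff i) * (1 - X) ^ i := by
    rw [comp_eq_sum_left, Polynomial.sum]
  rw [e]
  apply (GP v na 0).map_sum_le
  intro i _
  rw [map_mul, map_pow]
  have h1 : GP v na 0 (1 - X) ^ i ≤ 1 := pow_le_one' (VT5_one_sub_X v na) i
  calc GP v na 0 (C (f.coeff i)) * GP v na 0 (1 - X) ^ i ≤ GP v na 0 (C (f.coeff i)) * 1 :=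
        mul_le_mul_right h1 _
    _ = GP v na 0 (C (f.coeff i)) := mul_one _
    _ ≤ GP v na 0 f := by
        rw [← NNReal.coe_le_coe, VT5_C, GP_apply]
        have := le_gaussNorm v f (Real.exp_pos (-0 : ℝ)).le i
        simpa using this

theorem VT5_invol (f : E[X]) : (f.comp (1 - X)).comp (1 - X) = f := by
  rw [comp_assoc]
  simp

theorem VT5_eq (v : AbsoluteValue E ℝ) (na : IsNonarchimedean v) (f : E[X]) :
    GP v na 0 (f.comp (1 - X)) = GP v na 0 f := by
  apply le_antisymm (VT5_le v na f)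
  have := VT5_le v na (f.comp (1 - X))
  rwa [VT5_invol] at this

theorem VT5_GV (v : AbsoluteValue E ℝ) (na : IsNonarchimedean v) (f : E[X]) :
    GV v na 0 (algebraMap E[X] (Et E) f) = GP v na 0 f := by
  unfold GV
  rw [Valuation.extendToLocalization_apply_map_apply]

theorem VT5 (v : AbsoluteValue E ℝ) (na : IsNonarchimedean v) : ∃ θ : Et E →+* Et E,
    (∀ f : E[X], θ (algebraMap E[X] (Et E) f) = algebraMap E[X] (Et E) (f.comp (1 - X))) ∧
    ∀ z, GV v na 0 (θ z) = GV v na 0 z := by
  have hinj : Function.Injective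
      ((algebraMap E[X] (Et E)).comp (compRingHom (1 - X : E[X]))) := by
    intro f g hfg
    have h1 : f.comp (1 - X) = g.comp (1 - X) :=
      IsFractionRing.injective E[X] (Et E) hfg
    have h2 := congrArg (fun q : E[X] => q.comp (1 - X)) h1
    simpa only [VT5_invol] using h2
  refine ⟨IsFractionRing.lift hinj, ?_, ?_⟩
  · intro f
    rw [IsFractionRing.lift_algebraMap]
    rfl
  · intro z
    obtain ⟨f, g, hg, rfl⟩ := IsFractionRing.div_surjective (A := E[X]) z
    rw [map_div₀, map_div₀, map_div₀, IsFractionRing.lift_algebraMap,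
      IsFractionRing.lift_algebraMap, VT5_GV, VT5_GV]
    show GV v na 0 (algebraMap E[X] (Et E) (f.comp (1 - X))) /
      GV v na 0 (algebraMap E[X] (Et E) (g.comp (1 - X))) = _
    rw [VT5_GV, VT5_GV, VT5_eq, VT5_eq]

end VAL

end Pool.Agent.Helper346.Cay
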