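import Pool.Agent.Helper346.Cay.Defs

set_option autoImplicit false

open Polynomial

namespace Pool.Agent.Helper346.Cay

section VAL
variable {E : Type*} [Field E]


theorem sqrt_two_lin {x y : ℤ} (h : (x : ℝ) + y * Real.sqrt 2 = 0) : x = 0 ∧ y = 0 := by
  have hy : y = 0 := by
    by_contra hne
    have hy' : (y : ℝ) ≠ 0 := by exact_mod_cast hne
    have h1 : Real.sqrt 2 = ((-x / y : ℚ) : ℝ) := by
      push_cast
      rw [eq_div_iff hy']
      linarith
    exact irrational_sqrt_two ⟨_, h1.symm⟩
  subst hy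
  have : (x : ℝ) = 0 := by simpa using h
  exact ⟨by exact_mod_cast this, rfl⟩

theorem VT7 (p : ℕ) [Fact p.Prime] (s : ℝ) : ∃ χ₁ : V p, χ₁ ≠ 0 ∧ ∀ i j a b m : ℤ,
    (i + j * Real.sqrt 2 : ℝ) = (p : ℝ) * (a + b * Real.sqrt 2) + m * s →
    ∃ c : ZMod p, (((i : ZMod p), (j : ZMod p)) : V p) = c • χ₁ := by
  classical
  have hp : p.Prime := Fact.out
  by_cases hall : ∀ i j a b m : ℤ,
      (i + j * Real.sqrt 2 : ℝ) = (p : ℝ) * (a + b * Real.sqrt 2) + m * s →
      (i : ZMod p) = 0 ∧ (j : ZMod p) = 0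
  · refine ⟨(1, 0), ?_, ?_⟩
    · intro h
      have : (1 : ZMod p) = 0 := congrArg Prod.fst h
      exact one_ne_zero this
    · intro i j a b m h
      obtain ⟨h1, h2⟩ := hall i j a b m h
      refine ⟨0, ?_⟩
      rw [h1, h2, zero_smul]
      rfl
  · push Not at hall
    obtain ⟨i0, j0, a0, b0, m0, h0, hne⟩ := hall
    have hχ : (((i0 : ZMod p), (j0 : ZMod p)) : V p) ≠ 0 := by
      intro h
      exact hne (congrArg Prod.fst h) (congrArg Prod.snd h)
    refine ⟨((i0 : ZMod p), (j0 : ZMod p)), hχ, ?_⟩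
    intro i j a b m h
    have e1 : ((m0 * (i - p * a) - m * (i0 - p * a0) : ℤ) : ℝ) +
        ((m0 * (j - p * b) - m * (j0 - p * b0) : ℤ) : ℝ) * Real.sqrt 2 = 0 := by
      push_cast
      linear_combination (m0 : ℝ) * h - (m : ℝ) * h0
    obtain ⟨e2, e3⟩ := sqrt_two_lin e1
    have hgpos : 0 < Int.gcd m0 m := by
      rw [Nat.pos_iff_ne_zero]
      intro hg
      rw [Int.gcd_eq_zero_iff] at hg
      obtain ⟨hg1, hg2⟩ := hg
      subst hg1
      have e4 : ((i0 - p * a0 : ℤ) : ℝ) + ((j0 - p * b0 : ℤ) : ℝ) * Real.sqrt 2 = 0 := by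
        push_cast
        push_cast at h0
        linear_combination h0
      obtain ⟨e5, e6⟩ := sqrt_two_lin e4
      have h5 : i0 = p * a0 := by linarith
      have h6 : j0 = p * b0 := by linarith
      apply hχ
      rw [h5, h6]
      push_cast
      rw [ZMod.natCast_self]
      simp
    obtain ⟨m0', m', hco, hm0, hm⟩ := Int.exists_gcd_one hgpos
    set d : ℤ := (Int.gcd m0 m : ℤ) with hd
    have hd0 : d ≠ 0 := by
      rw [hd]
      exact_mod_cast hgpos.ne'
    have e7 : m0' * (i - p * a) = m' * (i0 - p * a0) := by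
      apply mul_left_cancel₀ hd0
      rw [hm0, hm] at e2
      linear_combination e2
    have e8 : m0' * (j - p * b) = m' * (j0 - p * b0) := by
      apply mul_left_cancel₀ hd0
      rw [hm0, hm] at e3
      linear_combination e3
    have e9 : (m0' : ZMod p) * i = m' * i0 := by
      have := congrArg (fun t : ℤ => (t : ZMod p)) e7
      push_cast at this
      rw [ZMod.natCast_self] at this
      simpa using this
    have e10 : (m0' : ZMod p) * j = m' * j0 := by
      have := congrArg (fun t : ℤ => (t : ZMod p)) e8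
      push_cast at this
      rw [ZMod.natCast_self] at this
      simpa using this
    by_cases hz : (m0' : ZMod p) = 0
    · exfalso
      have hm'0 : (m' : ZMod p) ≠ 0 := by
        intro hz'
        rw [ZMod.intCast_zmod_eq_zero_iff_dvd] at hz hz'
        have h7 := Int.dvd_coe_gcd hz hz'
        rw [hco] at h7
        have h8 : (p : ℤ) ∣ 1 := by exact_mod_cast h7
        have h9 : p ∣ 1 := by exact_mod_cast h8
        exact hp.one_lt.ne' (Nat.dvd_one.1 h9)
      rw [hz, zero_mul] at e9 e10
      apply hχ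
      have h7 : (i0 : ZMod p) = 0 := by
        rcases mul_eq_zero.1 e9.symm with h | h
        · exact absurd h hm'0
        · exact h
      have h8 : (j0 : ZMod p) = 0 := by
        rcases mul_eq_zero.1 e10.symm with h | h
        · exact absurd h hm'0
        · exact h
      rw [h7, h8]
      rfl
    · refine ⟨(m' : ZMod p) / m0', ?_⟩
      apply Prod.ext
      · show (i : ZMod p) = (m' : ZMod p) / m0' * i0
        rw [div_mul_eq_mul_div, ← e9, mul_div_cancel_left₀ _ hz]
      · show (j : ZMod p) = (m' : ZMod p) / m0' * j0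
        rw [div_mul_eq_mul_div, ← e10, mul_div_cancel_left₀ _ hz]

end VAL

end Pool.Agent.Helper346.Cay
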