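import Pool.Agent.Helper346.Cay.Defs

set_option autoImplicit false

open Polynomial

namespace Pool.Agent.Helper346.Cay

section VAL
variable {E : Type*} [Field E]


theorem VT8 {E0 Ω Γ : Type*} [Field E0] [Field Ω] [Algebra E0 Ω]
    [LinearOrderedCommGroupWithZero Γ] (W : Valuation E0 Γ) : ∃ B : ValuationSubring Ω,
    ∀ z : E0, (B.valuation (algebraMap E0 Ω z) < 1 ↔ W z < 1) ∧
      (B.valuation (algebraMap E0 Ω z) ≤ 1 ↔ W z ≤ 1) := by
  classical
  have hinj : Function.Injective (algebraMap E0 Ω) := (algebraMap E0 Ω).injective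
  let A : Subring Ω := W.integer.map (algebraMap E0 Ω)
  let I : Ideal A :=
    { carrier := {a | ∃ z, W z < 1 ∧ algebraMap E0 Ω z = a}
      add_mem' := by
        rintro a b ⟨z, hz, hza⟩ ⟨w, hw, hwb⟩
        exact ⟨z + w, W.map_add_lt hz hw, by rw [map_add, hza, hwb]; rfl⟩
      zero_mem' := ⟨0, by rw [map_zero]; exact zero_lt_one, by rw [map_zero]; rfl⟩
      smul_mem' := by
        rintro ⟨c, hc⟩ a ⟨z, hz, hza⟩
        obtain ⟨w, hw, rfl⟩ := Subring.mem_map.1 hc
        refine ⟨w * z, ?_, ?_⟩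
        · rw [map_mul]
          exact lt_of_le_of_lt (mul_le_of_le_one_left' hw) hz
        · rw [map_mul, hza]; rfl }
  have hI : I ≠ ⊤ := by
    intro h
    have h1 : (1 : A) ∈ I := by rw [h]; exact Submodule.mem_top
    obtain ⟨z, hz, hz1⟩ := h1
    have : z = 1 := hinj (by rw [hz1, map_one]; rfl)
    rw [this, map_one] at hz
    exact lt_irrefl _ hz
  obtain ⟨B, hAB, hIB⟩ := Ideal.image_subset_nonunits_valuationSubring I hI
  have f1 : ∀ z, W z ≤ 1 → B.valuation (algebraMap E0 Ω z) ≤ 1 := by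
    intro z hz
    rw [B.valuation_le_one_iff]
    exact hAB (Subring.mem_map.2 ⟨z, hz, rfl⟩)
  have f2 : ∀ z, W z < 1 → B.valuation (algebraMap E0 Ω z) < 1 := by
    intro z hz
    rw [← ValuationSubring.mem_nonunits_iff]
    exact hIB ⟨⟨algebraMap E0 Ω z, Subring.mem_map.2 ⟨z, hz.le, rfl⟩⟩, ⟨z, hz, rfl⟩, rfl⟩
  have f3 : ∀ z, 1 < W z → 1 < B.valuation (algebraMap E0 Ω z) := by
    intro z hz
    have hz0 : z ≠ 0 := by
      rintro rfl
      rw [map_zero] at hz
      exact absurd hz (not_lt.2 zero_le_one)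
    have h1 : W z⁻¹ < 1 := by
      rw [map_inv₀]
      exact inv_lt_one_of_one_lt₀ hz
    have h2 := f2 _ h1
    rw [map_inv₀, map_inv₀] at h2
    have h3 : 0 < B.valuation (algebraMap E0 Ω z) := by
      rw [Valuation.pos_iff]
      exact (map_ne_zero_iff _ hinj).2 hz0
    exact (inv_lt_one₀ h3).1 h2
  have f4 : ∀ z, W z = 1 → B.valuation (algebraMap E0 Ω z) = 1 := by
    intro z hz
    have hz0 : z ≠ 0 := by
      rintro rfl
      rw [map_zero] at hz
      exact zero_ne_one hz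
    have h1 := f1 z hz.le
    have h2 := f1 z⁻¹ (by rw [map_inv₀, hz, inv_one])
    rw [map_inv₀, map_inv₀] at h2
    have h3 : 0 < B.valuation (algebraMap E0 Ω z) := by
      rw [Valuation.pos_iff]
      exact (map_ne_zero_iff _ hinj).2 hz0
    exact le_antisymm h1 ((inv_le_one₀ h3).1 h2)
  refine ⟨B, fun z => ⟨⟨fun h => ?_, f2 z⟩, ⟨fun h => ?_, f1 z⟩⟩⟩
  · by_contra hc
    rcases (not_lt.1 hc).eq_or_lt with h1 | h1
    · exact absurd (f4 z h1.symm) h.ne
    · exact absurd h (not_lt.2 (f3 z h1).le)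
  · by_contra hc
    exact absurd h (not_le.2 (f3 z (not_le.1 hc)))

end VAL

end Pool.Agent.Helper346.Cay
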