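import Pool.Agent.Helper346.Cay.Defs

set_option autoImplicit false

open Polynomial

namespace Pool.Agent.Helper346.Cay

section PHR
variable {KY K E S : Type*} [Field KY] [Field K] [Algebra KY K] [Field E] [CommRing S]
  {N : Type*} [Fintype N] {e : ℕ}


theorem PH_Zm_map {S' : Type*} [CommRing S'] (b : Module.Basis (Fin e) KY K) (X : Matrix N N K)
    (φ : KY →+* S) (ψ : E →+* S) (γ : N → N → E) (f : S →+* S') :
    (Zm b X φ ψ γ).map f = Zm b X (f.comp φ) (f.comp ψ) γ := by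
  unfold Zm
  ext i j
  simp [Matrix.sum_apply, Matrix.map_apply, map_sum]

theorem PH_vecMul_left {Ω : Type*} [Field Ω] (b : Module.Basis (Fin e) KY K)
    (φ : KY →+* Ω) (ι : K →+* Ω) (hι : ι.comp (algebraMap KY K) = φ) (x : K) :
    Matrix.vecMul (fun l => ι (b l)) ((Algebra.leftMulMatrix b x).map φ) =
      ι x • (fun l => ι (b l)) := by
  ext j
  simp only [Matrix.vecMul, dotProduct, Matrix.map_apply, Pi.smul_apply, smul_eq_mul]
  have h1 : x * b j = ∑ i, (b.repr (x * b j) i) • b i := (b.sum_repr _).symm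
  rw [← map_mul, h1, map_sum]
  refine Finset.sum_congr rfl (fun i _ => ?_)
  rw [Algebra.leftMulMatrix_eq_repr_mul, Algebra.smul_def, map_mul ι, ← hι, mul_comm]
  rfl

theorem PH_vecMul_Zm {Ω : Type*} [Field Ω] (b : Module.Basis (Fin e) KY K)
    (X : Matrix N N K) (φ : KY →+* Ω) (ψ : E →+* Ω) (γ : N → N → E)
    (ι : K →+* Ω) (hι : ι.comp (algebraMap KY K) = φ) :
    Matrix.vecMul (fun l => ι (b l)) (Zm b X φ ψ γ) = xval X ψ ι γ • (fun l => ι (b l)) := by
  unfold Zm xval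
  simp only [Matrix.vecMul_sum, Matrix.vecMul_smul, PH_vecMul_left b φ ι hι, Finset.sum_smul,
    mul_smul]

theorem PH_vecMul_prod {Ω : Type*} [Field Ω] (b : Module.Basis (Fin e) KY K)
    (X : Matrix N N K) (φ : KY →+* Ω) (ψ : E →+* Ω)
    (ι : K →+* Ω) (hι : ι.comp (algebraMap KY K) = φ) (γ : ℕ → N → N → E) (l : List ℕ) :
    Matrix.vecMul (fun l => ι (b l)) ((l.map (fun m => Zm b X φ ψ (γ m))).prod) =
      ((l.map (fun m => xval X ψ ι (γ m))).prod) • (fun l => ι (b l)) := by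
  induction l with
  | nil => simp
  | cons a l ih =>
    rw [List.map_cons, List.prod_cons, List.map_cons, List.prod_cons, ← Matrix.vecMul_vecMul,
      PH_vecMul_Zm b X φ ψ (γ a) ι hι, Matrix.smul_vecMul, ih, mul_smul]

theorem PH1 {S' : Type*} [CommRing S'] (b : Module.Basis (Fin e) KY K) (X : Matrix N N K)
    (φ : KY →+* S) (ψ : E →+* S) (p : ℕ) (γ : V p → N → N → E) (h : V p) (f : S →+* S') :
    (Ph b X φ ψ p γ h).map f = Ph b X (f.comp φ) (f.comp ψ) p γ h := by
  unfold Ph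
  rw [← Matrix.charpoly_map, ← RingHom.mapMatrix_apply, map_list_prod, List.map_map]
  congr 3
  funext m
  simp only [Function.comp, RingHom.mapMatrix_apply]
  exact PH_Zm_map b X φ ψ _ f

theorem PH2 [Nontrivial S] (b : Module.Basis (Fin e) KY K) (X : Matrix N N K)
    (φ : KY →+* S) (ψ : E →+* S) (p : ℕ) (γ : V p → N → N → E) (h : V p) :
    (Ph b X φ ψ p γ h).Monic ∧ (Ph b X φ ψ p γ h).natDegree = e := by
  unfold Ph
  refine ⟨Matrix.charpoly_monic _, ?_⟩
  rw [Matrix.charpoly_natDegree_eq_dim, Fintype.card_fin]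

theorem PH4 {Ω : Type*} [Field Ω] (b : Module.Basis (Fin e) KY K)
    (X : Matrix N N K) (φ : KY →+* Ω) (ψ : E →+* Ω) (p : ℕ) (γ : V p → N → N → E) (h : V p)
    (ι : K →+* Ω) (hι : ι.comp (algebraMap KY K) = φ) :
    (Ph b X φ ψ p γ h).IsRoot (∏ m ∈ Finset.range p, xval X ψ ι (γ ((m : ZMod p) • h))) := by
  unfold Ph
  have h1 := PH_vecMul_prod b X φ ψ ι hι (fun m => γ ((m : ZMod p) • h)) (List.range p)
  have h2 : ((List.range p).map (fun m : ℕ => xval X ψ ι (γ ((m : ZMod p) • h)))).prod =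
      ∏ m ∈ Finset.range p, xval X ψ ι (γ ((m : ZMod p) • h)) := by
    rfl
  rw [h2] at h1
  rw [Polynomial.IsRoot.def, Matrix.eval_charpoly]
  rw [← Matrix.exists_vecMul_eq_zero_iff]
  refine ⟨fun l => ι (b l), ?_, ?_⟩
  · intro h0
    have h3 : (1 : K) = ∑ i, (b.repr 1 i) • b i := (b.sum_repr _).symm
    have h4 : ι 1 = 0 := by
      rw [h3, map_sum]
      refine Finset.sum_eq_zero (fun i _ => ?_)
      rw [Algebra.smul_def, map_mul]
      have h5 : ι (b i) = 0 := congrFun h0 i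
      rw [h5, mul_zero]
    rw [map_one] at h4
    exact one_ne_zero h4
  · rw [Matrix.vecMul_sub, h1]
    ext j
    simp [Matrix.scalar_apply]

end PHR

end Pool.Agent.Helper346.Cay
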