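import Pool.Agent.Helper346.Cay.Defs

set_option autoImplicit false

open Polynomial

namespace Pool.Agent.Helper346.Cay

section PHR
variable {KY K E S : Type*} [Field KY] [Field K] [Algebra KY K] [Field E] [CommRing S]
  {N : Type*} [Fintype N] {e : ℕ}


lemma PH3_aux {Ω D : Type*} [Field Ω] [IsAlgClosed Ω] [CommRing D] [Algebra Ω D]
    [Module.Finite Ω D] (Z : D) (θ : Ω) (h : ¬ IsUnit (algebraMap Ω D θ - Z)) :
    ∃ π : D →ₐ[Ω] Ω, π Z = θ := by
  obtain ⟨m, hm, hmem⟩ := exists_max_ideal_of_mem_nonunits (mem_nonunits_iff.mpr h)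
  haveI := hm
  letI fld : Field (D ⧸ m) := Ideal.Quotient.field m
  haveI : Module.Finite Ω (D ⧸ m) :=
    Module.Finite.of_surjective (Ideal.Quotient.mkₐ Ω m).toLinearMap
      (Ideal.Quotient.mkₐ_surjective Ω m)
  haveI : Algebra.IsIntegral Ω (D ⧸ m) := Algebra.IsIntegral.of_finite Ω (D ⧸ m)
  have hbij : Function.Bijective (algebraMap Ω (D ⧸ m)) :=
    IsAlgClosed.algebraMap_bijective_of_isIntegral
  let e : Ω ≃ₐ[Ω] (D ⧸ m) := AlgEquiv.ofBijective (Algebra.ofId Ω (D ⧸ m)) hbij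
  refine ⟨e.symm.toAlgHom.comp (Ideal.Quotient.mkₐ Ω m), ?_⟩
  have h1 : Ideal.Quotient.mkₐ Ω m Z = algebraMap Ω (D ⧸ m) θ := by
    have : Ideal.Quotient.mkₐ Ω m (algebraMap Ω D θ - Z) = 0 := by
      exact Ideal.Quotient.eq_zero_iff_mem.mpr hmem
    rw [map_sub, AlgHom.commutes, sub_eq_zero] at this
    exact this.symm
  show e.symm (Ideal.Quotient.mkₐ Ω m Z) = θ
  rw [h1, AlgEquiv.commutes]
  rfl

theorem PH3 {Ω : Type*} [Field Ω] [IsAlgClosed Ω] (b : Module.Basis (Fin e) KY K)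
    (X : Matrix N N K) (φ : KY →+* Ω) (ψ : E →+* Ω) (p : ℕ) (γ : V p → N → N → E) (h : V p)
    (θ : Ω) (hθ : (Ph b X φ ψ p γ h).IsRoot θ) : ∃ ι : K →+* Ω,
    ι.comp (algebraMap KY K) = φ ∧
      θ = ∏ m ∈ Finset.range p, xval X ψ ι (γ ((m : ZMod p) • h)) := by
  classical
  let f : K →+* Matrix (Fin e) (Fin e) Ω :=
    (RingHom.mapMatrix φ).comp (Algebra.leftMulMatrix b).toRingHom
  have hfx : ∀ x, f x = (Algebra.leftMulMatrix b x).map φ := fun x => rfl
  have hcomm : ∀ a ∈ Set.range f, ∀ b ∈ Set.range f, a * b = b * a := by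
    rintro _ ⟨x, rfl⟩ _ ⟨y, rfl⟩
    rw [← map_mul, mul_comm, map_mul]
  let A : Subalgebra Ω (Matrix (Fin e) (Fin e) Ω) := Algebra.adjoin Ω (Set.range f)
  letI cr : CommRing A := Algebra.adjoinCommRingOfComm Ω hcomm
  let g : K →+* A := f.codRestrict A (fun x => Algebra.subset_adjoin ⟨x, rfl⟩)
  have hg : ∀ x, ((g x : A) : Matrix (Fin e) (Fin e) Ω) = f x := fun x => rfl
  let Zf : V p → A := fun τ => ∑ i, ∑ j, ψ (γ τ i j) • g (X i j)
  have hZf : ∀ τ, ((Zf τ : A) : Matrix (Fin e) (Fin e) Ω) = Zm b X φ ψ (γ τ) := by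
    intro τ
    have : A.val (Zf τ) = Zm b X φ ψ (γ τ) := by
      simp only [Zf, map_sum, map_smul, Zm]
      rfl
    exact this
  let Z : A := ∏ m ∈ Finset.range p, Zf ((m : ZMod p) • h)
  have hZ : A.val Z = ((List.range p).map (fun m : ℕ => Zm b X φ ψ (γ ((m : ZMod p) • h)))).prod := by
    have e1 : Z = ((List.range p).map (fun m : ℕ => Zf ((m : ZMod p) • h))).prod := by
      simp only [Z]
      rw [Finset.prod_range, List.prod_ofFn.symm]
      congr 1
      rw [List.ofFn_eq_map]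
      rw [← List.map_coe_finRange_eq_range]
      rw [List.map_map]
      rfl
    rw [e1, map_list_prod, List.map_map]
    congr 1
    apply List.map_congr_left
    intro m _
    exact hZf _
  have hnu : ¬ IsUnit (algebraMap Ω A θ - Z) := by
    intro hu
    have hu2 := hu.map A.val
    rw [map_sub, hZ, AlgHom.commutes] at hu2
    rw [Matrix.isUnit_iff_isUnit_det] at hu2
    have h0 : (Ph b X φ ψ p γ h).eval θ = 0 := hθ
    unfold Ph at h0
    rw [Matrix.eval_charpoly] at h0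
    have e2 : (Matrix.scalar (Fin e)) θ = algebraMap Ω (Matrix (Fin e) (Fin e) Ω) θ := rfl
    rw [e2] at h0
    rw [h0] at hu2
    exact not_isUnit_zero hu2
  haveI : Module.Finite Ω A := by
    infer_instance
  obtain ⟨π, hπ⟩ := PH3_aux Z θ hnu
  refine ⟨(π : A →+* Ω).comp g, ?_, ?_⟩
  · ext a
    have e3 : g (algebraMap KY K a) = algebraMap Ω A (φ a) := by
      apply Subtype.ext
      show f (algebraMap KY K a) = algebraMap Ω (Matrix (Fin e) (Fin e) Ω) (φ a)
      rw [hfx, AlgHom.commutes]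
      ext i j
      rw [Matrix.map_apply, Matrix.algebraMap_matrix_apply, Matrix.algebraMap_matrix_apply]
      split_ifs <;> simp
    show π (g (algebraMap KY K a)) = φ a
    rw [e3, AlgHom.commutes]
    rfl
  · rw [← hπ]
    simp only [Z, map_prod]
    apply Finset.prod_congr rfl
    intro m _
    simp only [Zf, map_sum, map_smul, xval, smul_eq_mul]
    rfl

end PHR

end Pool.Agent.Helper346.Cay
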