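import Pool.Agent.Helper346.Cay.Defs

set_option autoImplicit false

open Polynomial

namespace Pool.Agent.Helper346.Cay

section NO


theorem CM1 {L L' : Type*} [CommRing L] [CommRing L'] {n : ℕ} (F : Matrix (Fin n) (Fin n) L)
    (u : Fin n → L) (h : Cyc F u) (φ : L →+* L') : Cyc (F.map φ) (φ ∘ u) := by
  intro i
  obtain ⟨q, hq⟩ := h i
  refine ⟨q.map φ, ?_⟩
  have h1 : (aeval F q).map φ = aeval (F.map φ) (q.map φ) := by
    have := Polynomial.map_aeval_eq_aeval_map (φ := φ) (ψ := φ.mapMatrix (m := Fin n)) (by
      ext a : 1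
      simp only [RingHom.comp_apply, Matrix.algebraMap_eq_diagonal]
      ext i j
      simp [Matrix.diagonal_apply, apply_ite φ]) q F
    exact this
  rw [← h1]
  funext j
  rw [← RingHom.map_mulVec, hq]
  simp only [Pi.single_apply]
  split_ifs <;> simp

theorem CM2 {L : Type*} [CommRing L] {n : ℕ} (F Z : Matrix (Fin n) (Fin n) L)
    (u : Fin n → L) (h : Cyc F u) (hZ : Z * F = F * Z) : ∃ q : L[X], Z = aeval F q := by
  choose q hq using h
  have hc : ∀ p : L[X], Commute Z (aeval F p) := by
    intro p
    induction p using Polynomial.induction_on' with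
    | add a b ha hb =>
      rw [map_add]
      exact ha.add_right hb
    | monomial m a =>
      rw [aeval_monomial]
      exact (Algebra.commute_algebraMap_right a Z).mul_right (Commute.pow_right hZ m)
  have hc2 : ∀ p r : L[X], aeval F p * aeval F r = aeval F r * aeval F p := by
    intro p r
    rw [← map_mul, ← map_mul, mul_comm]
  set r : L[X] := ∑ i, C ((Z.mulVec u) i) * q i with hr
  have h1 : (aeval F r).mulVec u = Z.mulVec u := by
    rw [hr, map_sum, Matrix.sum_mulVec]
    funext j
    rw [Finset.sum_apply]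
    have : ∀ i, ((aeval F (C ((Z.mulVec u) i) * q i)).mulVec u) j =
        (Z.mulVec u) i * (Pi.single i (1 : L) : Fin n → L) j := by
      intro i
      rw [map_mul, aeval_C, ← Algebra.smul_def, Matrix.smul_mulVec, hq i]
      simp
    rw [Finset.sum_congr rfl (fun i _ => this i)]
    simp [Pi.single_apply]
  refine ⟨r, ?_⟩
  apply Matrix.ext_of_mulVec_single
  intro i
  rw [← hq i, Matrix.mulVec_mulVec, Matrix.mulVec_mulVec, (hc (q i)).eq, ← Matrix.mulVec_mulVec,
    ← h1, Matrix.mulVec_mulVec, hc2]

theorem CM3 {L : Type*} [CommRing L] {n : ℕ} (F : Matrix (Fin n) (Fin n) L)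
    (r : Fin n → L) (y : L) (h : Matrix.vecMul r F = y • r) (q : L[X]) :
    Matrix.vecMul r (aeval F q) = (q.eval y) • r := by
  have hp : ∀ m : ℕ, Matrix.vecMul r (F ^ m) = y ^ m • r := by
    intro m
    induction m with
    | zero => simp
    | succ m ih => rw [pow_succ, ← Matrix.vecMul_vecMul, ih, Matrix.smul_vecMul, h, smul_smul, pow_succ]
  induction q using Polynomial.induction_on' with
  | add a b ha hb => rw [map_add, Matrix.vecMul_add, ha, hb, eval_add, add_smul]
  | monomial m a =>
    rw [aeval_monomial, ← Algebra.smul_def, Matrix.vecMul_smul, hp, eval_monomial, smul_smul]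

end NO

end Pool.Agent.Helper346.Cay
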