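import Pool.Agent.Helper346.Cay.Defs2

set_option autoImplicit false

open Polynomial

namespace Pool.Agent.Helper346.Cay

section NO


theorem GN4 {L : Type*} [Field L] {p : ℕ} [Fact p.Prime] (z : L)
    (hz : IsPrimitiveRoot z p) : ∃ Ch' : Matrix (V p) (V p) L,
      (Matrix.of fun (τ χ : V p) => z ^ (dot χ τ).val) * Ch' = 1 ∧
      Ch' * (Matrix.of fun (τ χ : V p) => z ^ (dot χ τ).val) = 1 := by
  classical
  have hp : p.Prime := Fact.out
  haveI : NeZero p := ⟨hp.ne_zero⟩
  haveI hne : NeZero ((p : ℕ) : L) := hz.neZero'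
  have hpL : (p : L) ≠ 0 := hne.out
  set ψ : AddChar (ZMod p) L := AddChar.zmodChar p hz.pow_eq_one with hψ
  have hψa : ∀ a : ZMod p, ψ a = z ^ a.val := fun a => AddChar.zmodChar_apply hz.pow_eq_one a
  have hprim : ψ.IsPrimitive := AddChar.zmodChar_primitive_of_primitive_root p hz
  have hsum : ∀ b : ZMod p, ∑ x : ZMod p, ψ (x * b) = if b = 0 then (p : L) else 0 := by
    intro b
    rw [AddChar.sum_mulShift b hprim, ZMod.card]
    split_ifs <;> simp
  have key : (Matrix.of fun (τ χ : V p) => z ^ (dot χ τ).val) *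
      (((p : L) ^ 2)⁻¹ • Matrix.of fun (χ τ : V p) => z ^ (dot χ (-τ)).val) = 1 := by
    ext τ τ'
    rw [Matrix.mul_apply]
    have h1 : ∀ χ ∈ (Finset.univ : Finset (V p)),
        (Matrix.of fun (τ χ : V p) => z ^ (dot χ τ).val) τ χ *
        (((p : L) ^ 2)⁻¹ • Matrix.of fun (χ τ : V p) => z ^ (dot χ (-τ)).val) χ τ' =
        ((p : L) ^ 2)⁻¹ * (ψ (χ.1 * (τ.1 - τ'.1)) * ψ (χ.2 * (τ.2 - τ'.2))) := by
      intro χ _
      rw [Matrix.smul_apply, Matrix.of_apply, Matrix.of_apply, ← hψa, ← hψa, smul_eq_mul,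
        mul_left_comm, ← AddChar.map_add_eq_mul, ← AddChar.map_add_eq_mul]
      congr 2
      unfold dot
      simp only [Prod.fst_neg, Prod.snd_neg]
      ring
    rw [Finset.sum_congr rfl h1, ← Finset.mul_sum, Fintype.sum_prod_type]
    simp only [← Finset.mul_sum, ← Finset.sum_mul, hsum]
    rw [Matrix.one_apply]
    by_cases h : τ = τ'
    · rw [if_pos h, h]
      simp only [sub_self, if_true]
      field_simp
    · rw [if_neg h]
      by_cases h1 : τ.1 - τ'.1 = 0
      · have h2 : ¬ τ.2 - τ'.2 = 0 := by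
          intro h2
          exact h (Prod.ext (sub_eq_zero.mp h1) (sub_eq_zero.mp h2))
        rw [if_neg h2]
        ring
      · rw [if_neg h1]
        ring
  exact ⟨_, key, (mul_eq_one_comm (M := Matrix (V p) (V p) L)).mp key⟩

end NO

end Pool.Agent.Helper346.Cay
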