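import Pool.Agent.Helper346.Cay.Defs2
import Pool.Agent.Helper346.Cay.JM
import Pool.Agent.Helper346.Cay.KO

set_option autoImplicit false

open Polynomial

namespace Pool.Agent.Helper346.Cay

section NO


theorem LA_field {Ω K KY : Type*} [Field Ω] [Field K] [Field KY] [Algebra KY K] {e : ℕ}
    (b : Module.Basis (Fin e) KY K) (T : Subfield Ω) (ι : K →+* Ω)
    (h : ∀ a : KY, ι (algebraMap KY K a) ∈ T) :
    ∃ K' : Subfield Ω, T ≤ K' ∧ (∀ x, ι x ∈ K') ∧
      ∀ θ ∈ K', ∃ q : Polynomial Ω, (∀ i, q.coeff i ∈ T) ∧ q ≠ 0 ∧ q.natDegree ≤ e ∧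
        q.eval θ = 0 := by
  classical
  let S : Submodule T Ω := Submodule.span T (Set.range (fun l => ι (b l)))
  have hι : ∀ x : K, ι x ∈ S := by
    intro x
    rw [← b.sum_repr x, map_sum]
    refine Submodule.sum_mem _ fun l _ => ?_
    rw [Algebra.smul_def, map_mul]
    have : ι (algebraMap KY K (b.repr x l)) * ι (b l) =
        (⟨ι (algebraMap KY K (b.repr x l)), h _⟩ : T) • ι (b l) := rfl
    rw [this]
    exact Submodule.smul_mem _ _ (Submodule.subset_span ⟨l, rfl⟩)
  have hone : (1 : Ω) ∈ S := by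
    have := hι 1
    rwa [map_one] at this
  have hmul : ∀ s ∈ S, ∀ t ∈ S, s * t ∈ S := by
    have h1 : S * S ≤ S := by
      show Submodule.span T _ * Submodule.span T _ ≤ S
      rw [Submodule.span_mul_span, Submodule.span_le]
      rintro _ ⟨_, ⟨l, rfl⟩, _, ⟨l', rfl⟩, rfl⟩
      show ι (b l) * ι (b l') ∈ S
      rw [← map_mul]
      exact hι _
    intro s hs t ht
    exact h1 (Submodule.mul_mem_mul hs ht)
  have hT : ∀ t : T, (t : Ω) ∈ S := by
    intro t
    have : (t : Ω) = t • (1 : Ω) := by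
      rw [Algebra.smul_def, mul_one]; rfl
    rw [this]
    exact Submodule.smul_mem _ _ hone
  have hfin : Module.Finite T S := Module.Finite.span_of_finite T (Set.finite_range _)
  have hrank : Module.finrank T S ≤ e := by
    have := finrank_range_le_card (R := T) (fun l => ι (b l))
    rw [Fintype.card_fin] at this
    exact this
  have hpow : ∀ θ ∈ S, ∀ i : ℕ, θ ^ i ∈ S := by
    intro θ hθ i
    induction i with
    | zero => rw [pow_zero]; exact hone
    | succ i ih => rw [pow_succ]; exact hmul _ ih _ hθ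
  have hpoly : ∀ θ ∈ S, ∃ g : Fin (e + 1) → T, (∑ i, (g i : Ω) * θ ^ (i : ℕ) = 0) ∧ ∃ i, g i ≠ 0 := by
    intro θ hθ
    let w : Fin (e + 1) → S := fun i => ⟨θ ^ (i : ℕ), hpow θ hθ i⟩
    have hw : ¬ LinearIndependent T w := by
      intro hli
      have := hli.fintype_card_le_finrank
      rw [Fintype.card_fin] at this
      omega
    rw [Fintype.not_linearIndependent_iff] at hw
    obtain ⟨g, hg, hg'⟩ := hw
    refine ⟨g, ?_, hg'⟩
    have := congrArg (Subtype.val) hg
    rw [Submodule.coe_sum] at this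
    exact this
  have hq : ∀ θ ∈ S, ∃ q : T[X], q ≠ 0 ∧ q.natDegree ≤ e ∧ aeval θ q = 0 := by
    intro θ hθ
    obtain ⟨g, hg, i0, hi0⟩ := hpoly θ hθ
    refine ⟨∑ i : Fin (e + 1), C (g i) * X ^ (i : ℕ), ?_, ?_, ?_⟩
    · intro h0
      apply hi0
      have := congrArg (fun q => q.coeff (i0 : ℕ)) h0
      simp only [finsetSum_coeff, coeff_C_mul_X_pow, coeff_zero] at this
      rw [Finset.sum_eq_single i0] at this
      · simpa using this
      · intro b _ hb
        rw [if_neg]
        intro h'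
        exact hb (Fin.ext h'.symm)
      · intro h'
        exact absurd (Finset.mem_univ _) h'
    · apply natDegree_sum_le_of_forall_le
      intro i _
      exact (natDegree_C_mul_X_pow_le _ _).trans (Nat.lt_succ_iff.1 i.2)
    · rw [map_sum, ← hg]
      refine Finset.sum_congr rfl fun i _ => ?_
      rw [map_mul, map_pow, aeval_X, aeval_C]
      rfl
  let A : Subalgebra T Ω :=
    { carrier := S
      mul_mem' := fun {a b} ha hb => hmul a ha b hb
      one_mem' := hone
      add_mem' := fun {a b} ha hb => S.add_mem ha hb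
      zero_mem' := S.zero_mem
      algebraMap_mem' := fun t => hT t }
  have hAS : ∀ θ, θ ∈ A ↔ θ ∈ S := fun θ => Iff.rfl
  let K' : Subfield Ω :=
    { carrier := S
      mul_mem' := fun {a b} ha hb => hmul a ha b hb
      one_mem' := hone
      add_mem' := fun {a b} ha hb => S.add_mem ha hb
      zero_mem' := S.zero_mem
      neg_mem' := fun {a} ha => S.neg_mem ha
      inv_mem' := fun a ha => by
        have halg : IsAlgebraic T a := by
          obtain ⟨q, hq0, _, hq1⟩ := hq a ha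
          exact ⟨q, hq0, hq1⟩
        exact Subalgebra.inv_mem_of_algebraic A (x := ⟨a, ha⟩) halg }
  refine ⟨K', fun t ht => hT ⟨t, ht⟩, hι, ?_⟩
  intro θ hθ
  obtain ⟨q, hq0, hqd, hq1⟩ := hq θ hθ
  refine ⟨q.map T.subtype, ?_, ?_, ?_, ?_⟩
  · intro i
    rw [coeff_map]
    exact (q.coeff i).2
  · rw [Polynomial.map_ne_zero_iff T.subtype.injective]
    exact hq0
  · rw [natDegree_map]
    exact hqd
  · rw [eval_map]
    exact hq1

theorem LA {p : ℕ} [Fact p.Prime] {k E : Type*} [Field k] [Field E] [Algebra k E]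
    (D : Dat p k E) (ζ : k) (hζ : IsPrimitiveRoot ζ p) {n : ℕ}
    (g : Matrix (Fin n) (V p) E) (g' : Matrix (V p) (Fin n) E)
    (hgg' : g * g' = 1) (hg'g : g' * g = 1) (hg : ∀ i χ, g i χ ∈ D.K1) (hg' : ∀ χ i, g' χ i ∈ D.K1)
    {KY K : Type*} [Field KY] [Field K] [Algebra KY K] {e : ℕ} (b : Module.Basis (Fin e) KY K)
    (X : Matrix (Fin n) (Fin n) K) (hdet : X.det = 1)
    (F : Matrix (Fin n) (Fin n) KY)
    (hXF : X * F.map (algebraMap KY K) = F.map (algebraMap KY K) * X)
    (u : Fin n → KY) (hu : Cyc F u) (φ : KY →+* Et E) (hφ : ∀ a, φ a ∈ KT D.K1)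
    (hev : ∀ τ, ∃ y : Et E, Matrix.vecMul (fun i => cE E (rho ζ D.α D.β g' τ i)) (F.map φ) =
      y • (fun i => cE E (rho ζ D.α D.β g' τ i)))
    {Ω : Type*} [Field Ω] (j : Et E →+* Ω) (ι : K →+* Ω)
    (hι : ι.comp (algebraMap KY K) = j.comp φ) :
    ∃ K' : Subfield Ω, (KT D.K1).map j ≤ K' ∧
      (∀ θ ∈ K', ∃ q : Polynomial Ω, (∀ i, q.coeff i ∈ (KT D.K1).map j) ∧ q ≠ 0 ∧
        q.natDegree ≤ e ∧ q.eval θ = 0) ∧
      ∃ c : V p → Ω, (∀ χ, c χ ∈ K') ∧
        (∀ τ, xval X (j.comp (cE E)) ι (gam ζ D.α D.β g g' τ) =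
          ∑ χ, j (ck k E ζ) ^ (dot χ τ).val * (c χ * ee (j (cE E D.α)) (j (cE E D.β)) χ)) ∧
        ∏ τ, xval X (j.comp (cE E)) ι (gam ζ D.α D.β g g' τ) = 1 := by
  classical
  set ψ : E →+* Ω := j.comp (cE E) with hψ
  have hcT : ∀ a ∈ D.K1, ψ a ∈ (KT D.K1).map j := by
    intro a ha
    refine ⟨cE E a, ?_, rfl⟩
    apply Subfield.subset_closure
    refine ⟨Polynomial.C a, ?_, rfl⟩
    intro i
    rw [Polynomial.coeff_C]
    split_ifs
    · exact ha
    · exact D.K1.zero_mem
  have hιT : ∀ a : KY, ι (algebraMap KY K a) ∈ (KT D.K1).map j := by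
    intro a
    have : ι (algebraMap KY K a) = j (φ a) := congrArg (fun h : KY →+* Ω => h a) hι
    rw [this]
    exact ⟨φ a, hφ a, rfl⟩
  obtain ⟨K', hTK, hιK, hpoly⟩ := LA_field b ((KT D.K1).map j) ι hιT
  refine ⟨K', hTK, hpoly, ?_⟩
  -- abbreviations
  set z : Ω := j (ck k E ζ) with hz
  have hzψ : ψ (algebraMap k E ζ) = z := rfl
  set R : Matrix (V p) (V p) Ω := Matrix.of fun τ χ => z ^ (dot χ τ).val * ee (ψ D.α) (ψ D.β) χ with hR
  set G' : Matrix (V p) (Fin n) Ω := g'.map ψ with hG'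
  set G : Matrix (Fin n) (V p) Ω := g.map ψ with hG
  set XΩ : Matrix (Fin n) (Fin n) Ω := X.map ι with hXΩ
  set FΩ : Matrix (Fin n) (Fin n) Ω := F.map (j.comp φ) with hFΩ
  have hee : ∀ χ : V p, ψ (ee D.α D.β χ) = ee (ψ D.α) (ψ D.β) χ := by
    intro χ
    simp only [ee, map_mul, map_pow]
  have hrho : ∀ τ i, ψ (rho ζ D.α D.β g' τ i) = (R * G') τ i := by
    intro τ i
    rw [rho, map_sum, Matrix.mul_apply]
    refine Finset.sum_congr rfl fun χ _ => ?_
    rw [map_mul, map_mul, map_pow, hzψ, hee]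
    rfl
  have hxval : ∀ τ, xval X ψ ι (gam ζ D.α D.β g g' τ) = (R * (G' * XΩ * G)) τ 0 := by
    intro τ
    have e1 : (R * (G' * XΩ * G)) τ 0 = ∑ i, ∑ j', (R * G') τ i * XΩ i j' * G j' 0 := by
      have : R * (G' * XΩ * G) = (R * G') * XΩ * G := by
        simp only [Matrix.mul_assoc]
      rw [this, Matrix.mul_apply]
      simp only [Matrix.mul_apply (M := R * G') (N := XΩ), Finset.sum_mul]
      rw [Finset.sum_comm]
    rw [e1, xval]
    refine Finset.sum_congr rfl fun i _ => Finset.sum_congr rfl fun j' _ => ?_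
    rw [gam, map_mul, hrho]
    simp only [hXΩ, hG, Matrix.map_apply]
    ring
  have hG'G : G' * G = 1 := by
    rw [hG', hG, ← Matrix.map_mul, hg'g, Matrix.map_one _ (map_zero ψ) (map_one ψ)]
  have hGG' : G * G' = 1 := by
    rw [hG', hG, ← Matrix.map_mul, hgg', Matrix.map_one _ (map_zero ψ) (map_one ψ)]
  -- commuting
  have hFmap : (F.map (algebraMap KY K)).map ι = FΩ := by
    rw [hFΩ, ← hι, Matrix.map_map]
    rfl
  have hcomm : XΩ * FΩ = FΩ * XΩ := by
    rw [← hFmap, hXΩ, ← Matrix.map_mul, hXF, Matrix.map_mul]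
  obtain ⟨q, hq⟩ := CM2 FΩ XΩ _ (CM1 F u hu (j.comp φ)) hcomm
  have heig : ∀ τ, ∃ x : Ω, Matrix.vecMul ((R * G') τ) XΩ = x • ((R * G') τ) := by
    intro τ
    obtain ⟨y, hy⟩ := hev τ
    have hrow : (fun i => ψ (rho ζ D.α D.β g' τ i)) = (R * G') τ := by
      funext i
      exact hrho τ i
    have h1 : Matrix.vecMul ((R * G') τ) FΩ = (j y) • ((R * G') τ) := by
      rw [← hrow]
      funext i
      have h2 := congrArg j (congrFun hy i)
      simp only [Matrix.vecMul, dotProduct, map_sum, map_mul, Matrix.map_apply, Pi.smul_apply,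
        smul_eq_mul] at h2
      simp only [Matrix.vecMul, dotProduct, hFΩ, Matrix.map_apply, Pi.smul_apply, smul_eq_mul]
      exact h2
    refine ⟨q.eval (j y), ?_⟩
    rw [hq]
    exact CM3 FΩ _ _ h1 q
  choose x hx using heig
  have hRA : R * (G' * XΩ * G) = Matrix.diagonal x * R := by
    have e0 : R * (G' * XΩ * G) = ((R * G') * XΩ) * G := by
      simp only [Matrix.mul_assoc]
    have e1 : (R * G') * XΩ = Matrix.diagonal x * (R * G') := by
      ext τ i
      rw [Matrix.diagonal_mul]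
      exact congrFun (hx τ) i
    rw [e0, e1, Matrix.mul_assoc, Matrix.mul_assoc, hG'G, Matrix.mul_one]
  have hR0 : ∀ τ, R τ 0 = 1 := by
    intro τ
    have h1 : dot (0 : V p) τ = 0 := by simp [dot]
    have h2 : ee (ψ D.α) (ψ D.β) (0 : V p) = 1 := by simp [ee]
    simp only [hR, Matrix.of_apply, h1, h2, ZMod.val_zero, pow_zero, mul_one]
  have hxv : ∀ τ, xval X ψ ι (gam ζ D.α D.β g g' τ) = x τ := by
    intro τ
    rw [hxval, hRA, Matrix.diagonal_mul, hR0, mul_one]
  refine ⟨fun χ => ∑ i, ∑ j', ψ (g' χ i) * ι (X i j') * ψ (g j' 0), ?_, ?_, ?_⟩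
  · intro χ
    refine sum_mem fun i _ => sum_mem fun j' _ => ?_
    exact mul_mem (mul_mem (hTK (hcT _ (hg' χ i))) (hιK _)) (hTK (hcT _ (hg j' 0)))
  · intro τ
    rw [hxval]
    have e0 : (R * (G' * XΩ * G)) τ 0 = ∑ χ, R τ χ * (G' * XΩ * G) χ 0 := Matrix.mul_apply
    rw [e0]
    refine Finset.sum_congr rfl fun χ _ => ?_
    have e1 : (G' * XΩ * G) χ 0 = ∑ i, ∑ j', ψ (g' χ i) * ι (X i j') * ψ (g j' 0) := by
      rw [Matrix.mul_apply]
      simp only [Matrix.mul_apply (M := G') (N := XΩ), Finset.sum_mul]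
      rw [Finset.sum_comm]
      rfl
    rw [e1]
    simp only [hR, Matrix.of_apply]
    have e2 : j (cE E D.α) = ψ D.α := rfl
    have e3 : j (cE E D.β) = ψ D.β := rfl
    rw [e2, e3]
    ring
  · simp only [hxv]
    have hαne : ψ D.α ≠ 0 := by
      rw [Ne, map_eq_zero]
      intro h0
      have := D.hα
      rw [h0, map_zero] at this
      exact (Real.exp_pos _).ne this
    have hβne : ψ D.β ≠ 0 := by
      rw [Ne, map_eq_zero]
      intro h0
      have := D.hβ
      rw [h0, map_zero] at this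
      exact (Real.exp_pos _).ne this
    have hzp : IsPrimitiveRoot z p := by
      have h1 : z = (j.comp (ck k E)) ζ := rfl
      rw [h1]
      exact hζ.map_of_injective (j.comp (ck k E)).injective
    obtain ⟨Ch', hCh, _⟩ := GN4 z hzp
    have hRfac : R = (Matrix.of fun (τ χ : V p) => z ^ (dot χ τ).val) *
        Matrix.diagonal (fun χ => ee (ψ D.α) (ψ D.β) χ) := by
      ext τ χ
      rw [Matrix.mul_diagonal]
      rfl
    have hdetR : R.det ≠ 0 := by
      rw [hRfac, Matrix.det_mul, Matrix.det_diagonal]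
      apply mul_ne_zero
      · intro h0
        have := congrArg Matrix.det hCh
        rw [Matrix.det_mul, h0, zero_mul, Matrix.det_one] at this
        exact zero_ne_one this
      · rw [Finset.prod_ne_zero_iff]
        intro χ _
        exact mul_ne_zero (pow_ne_zero _ hαne) (pow_ne_zero _ hβne)
    have hdetA : (G' * XΩ * G).det = 1 := by
      rw [Matrix.mul_assoc, Matrix.det_comm' hG'G hGG', Matrix.mul_assoc, hGG', Matrix.mul_one, hXΩ]
      have : (X.map ι).det = ι X.det := (RingHom.map_det ι X).symm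
      rw [this, hdet, map_one]
    have h1 := congrArg Matrix.det hRA
    rw [Matrix.det_mul, Matrix.det_mul, hdetA, Matrix.det_diagonal, mul_one] at h1
    have h2 : (∏ τ, x τ) * R.det = 1 * R.det := by rw [one_mul, ← h1]
    exact mul_right_cancel₀ hdetR h2

end NO

end Pool.Agent.Helper346.Cay
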