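import Pool.Agent.Helper346.Cay.Defs2
import Pool.Agent.Helper346.Cay.JE
import Pool.Agent.Helper346.Cay.JF

set_option autoImplicit false

open Polynomial

namespace Pool.Agent.Helper346.Cay

section NO


theorem cE_mem {E : Type*} [Field E] (K1 : Subfield E) (c : E) (hc : c ∈ K1) :
    cE E c ∈ KT K1 := by
  apply Subfield.subset_closure
  refine ⟨Polynomial.C c, fun i => ?_, rfl⟩
  rw [Polynomial.coeff_C]
  split_ifs
  · exact hc
  · exact K1.zero_mem

theorem GV_cE {E : Type*} [Field E] (v : AbsoluteValue E ℝ) (na : IsNonarchimedean v) (s : ℝ)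
    (c : E) : ((GV v na s (cE E c) : NNReal) : ℝ) = v c := by
  show ((GV v na s (algebraMap E[X] (Et E) (Polynomial.C c)) : NNReal) : ℝ) = v c
  rw [GV_alg, Polynomial.gaussNorm_C]

theorem LB {p : ℕ} [Fact p.Prime] {k E : Type*} [Field k] [Field E] [Algebra k E]
    (D : Dat p k E) (s : ℝ) (χ₁ : V p)
    (hχ : ∀ i j a b m : ℤ, (i + j * Real.sqrt 2 : ℝ) = (p : ℝ) * (a + b * Real.sqrt 2) + m * s →
      ∃ c : ZMod p, (((i : ZMod p), (j : ZMod p)) : V p) = c • χ₁)
    (ζ : k) (hζ : IsPrimitiveRoot ζ p) {Ω Γ₀ : Type*} [Field Ω]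
    [LinearOrderedCommGroupWithZero Γ₀] (W : Valuation Ω Γ₀) (j : Et E →+* Ω)
    (hW : ∀ z : Et E, (W (j z) < 1 ↔ GV D.v D.na s z < 1) ∧ (W (j z) ≤ 1 ↔ GV D.v D.na s z ≤ 1))
    (K' : Subfield Ω) (hsub : (KT D.K1).map j ≤ K') (e : ℕ) (he : e < p)
    (H3 : ∀ θ ∈ K', ∃ q : Polynomial Ω, (∀ i, q.coeff i ∈ (KT D.K1).map j) ∧ q ≠ 0 ∧
        q.natDegree ≤ e ∧ q.eval θ = 0) :
    LH W p (j (ck k E ζ)) (j (cE E D.α)) (j (cE E D.β)) ((KT D.K1).map j) K' χ₁ e := by
  have hα0 : D.α ≠ 0 := by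
    intro h
    have := D.hα
    rw [h, map_zero] at this
    exact absurd this.symm (Real.exp_pos _).ne'
  have hβ0 : D.β ≠ 0 := by
    intro h
    have := D.hβ
    rw [h, map_zero] at this
    exact absurd this.symm (Real.exp_pos _).ne'
  have hjα0 : j (cE E D.α) ≠ 0 := by
    intro h
    apply hα0
    exact (cE E).injective (j.injective (by rw [h, map_zero, map_zero]))
  have hjβ0 : j (cE E D.β) ≠ 0 := by
    intro h
    apply hβ0
    exact (cE E).injective (j.injective (by rw [h, map_zero, map_zero]))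
  refine ⟨hsub, ?_, ?_, hjα0, hjβ0, ?_, ?_, ?_, ?_, he, H3⟩
  · exact hζ.map_of_injective (f := j.comp (ck k E)) (RingHom.injective _)
  · exact Subfield.mem_map.2 ⟨ck k E ζ, cE_mem _ _ (D.kK ζ), rfl⟩
  · exact Subfield.mem_map.2 ⟨cE E (D.α ^ p), cE_mem _ _ D.hαK, by rw [map_pow, map_pow]⟩
  · exact Subfield.mem_map.2 ⟨cE E (D.β ^ p), cE_mem _ _ D.hβK, by rw [map_pow, map_pow]⟩
  · intro i l u hu hWu
    obtain ⟨z, hz, rfl⟩ := Subfield.mem_map.1 hu
    have hne : j (cE E D.α) ^ i * j (cE E D.β) ^ l ≠ 0 :=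
      mul_ne_zero (zpow_ne_zero _ hjα0) (zpow_ne_zero _ hjβ0)
    have hz0 : z ≠ 0 := by
      intro h
      rw [h, map_zero, map_zero] at hWu
      exact hne ((map_eq_zero W).1 hWu)
    have h1 : W (j (cE E D.α ^ i * cE E D.β ^ l / z)) = 1 := by
      rw [map_div₀, map_mul, map_zpow₀, map_zpow₀, map_div₀, hWu]
      apply div_self
      rw [← hWu]
      exact (_root_.map_ne_zero W).2 hne
    have h2 : GV D.v D.na s (cE E D.α ^ i * cE E D.β ^ l / z) = 1 := by
      apply le_antisymm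
      · exact (hW _).2.1 h1.le
      · rw [← not_lt]
        intro h
        exact absurd ((hW _).1.2 h) (by rw [h1]; exact lt_irrefl _)
    rw [map_div₀, map_mul, map_zpow₀, map_zpow₀] at h2
    have hGz : GV D.v D.na s z ≠ 0 := (_root_.map_ne_zero _).2 hz0
    rw [div_eq_one_iff_eq hGz] at h2
    obtain ⟨a, b, m, habm⟩ := VT1 D s z hz hz0
    have hexp : ∀ (x : ℝ) (n : ℤ), Real.exp x ^ n = Real.exp (x * n) := by
      intro x n
      rw [Real.exp_mul, Real.rpow_intCast]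
    have h3 : (GV D.v D.na s z : ℝ) = Real.exp (-((i : ℝ) + l * Real.sqrt 2)) := by
      rw [← h2, NNReal.coe_mul, NNReal.coe_zpow, NNReal.coe_zpow, GV_cE, GV_cE, D.hα, D.hβ,
        hexp, hexp, ← Real.exp_add]
      congr 1
      ring
    rw [h3] at habm
    have h4 := Real.exp_injective habm
    exact hχ i l a b m (by linarith)
  · intro u hu hsum χ
    choose z hz hzu using fun χ => Subfield.mem_map.1 (hu χ)
    have h1 : ∀ χ : V p, u χ * ee (j (cE E D.α)) (j (cE E D.β)) χ =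
        j (z χ * ee (cE E D.α) (cE E D.β) χ) := by
      intro χ
      rw [← hzu χ, map_mul]
      congr 1
      unfold ee
      rw [map_mul, map_pow, map_pow]
    rw [h1 χ]
    simp only [h1] at hsum
    rw [← map_sum] at hsum
    rw [(hW _).1]
    exact lt_of_le_of_lt (VT2 D s z hz χ) ((hW _).1.1 hsum)

end NO

end Pool.Agent.Helper346.Cay
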