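import Pool.Agent.Helper346.Cay.Defs2
import Pool.Agent.Helper346.Cay.JD
import Pool.Agent.Helper346.Cay.JE
import Pool.Agent.Helper346.Cay.JJ
import Pool.Agent.Helper346.Cay.JK
import Pool.Agent.Helper346.Cay.JL
import Pool.Agent.Helper346.Cay.KA
import Pool.Agent.Helper346.Cay.KB

set_option autoImplicit false

open Polynomial

namespace Pool.Agent.Helper346.Cay

section NO


theorem j2629_coeff {Ω Γ₀ : Type*} [Field Ω] [LinearOrderedCommGroupWithZero Γ₀]
    (W : Valuation Ω Γ₀) {T : Type*} (M : Multiset T) (f g : T → Ω)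
    (h : ∀ x ∈ M, W (f x) ≤ 1 ∧ W (g x) ≤ 1 ∧ W (f x - g x) < 1) :
    ∀ i, W ((M.map (fun x => X - C (f x))).prod.coeff i) ≤ 1 ∧
      W ((M.map (fun x => X - C (g x))).prod.coeff i) ≤ 1 ∧
      W ((M.map (fun x => X - C (f x))).prod.coeff i -
        (M.map (fun x => X - C (g x))).prod.coeff i) < 1 := by
  induction M using Multiset.induction_on with
  | empty =>
    intro i
    simp only [Multiset.map_zero, Multiset.prod_zero, sub_self, map_zero]
    have : W ((1 : (Polynomial Ω)).coeff i) ≤ 1 := by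
      rw [Polynomial.coeff_one]
      split_ifs <;> simp
    exact ⟨this, this, zero_lt_one⟩
  | cons a M ih =>
    have ih' := ih (fun x hx => h x (Multiset.mem_cons_of_mem hx))
    obtain ⟨h1, h2, h3⟩ := h a (Multiset.mem_cons_self a M)
    intro i
    rw [Multiset.map_cons, Multiset.prod_cons, Multiset.map_cons, Multiset.prod_cons]
    set A := (M.map (fun x => X - C (f x))).prod with hA
    set A' := (M.map (fun x => X - C (g x))).prod with hA'
    have hm : ∀ x y : Ω, W x ≤ 1 → W y ≤ 1 → W (x * y) ≤ 1 := by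
      intro x y hx hy
      rw [map_mul]
      exact mul_le_one' hx hy
    have hml : ∀ x y : Ω, W x ≤ 1 → W y < 1 → W (x * y) < 1 := by
      intro x y hx hy
      rw [map_mul]
      exact lt_of_le_of_lt (mul_le_of_le_one_left' hx) hy
    have hd : ∀ j, W (f a * A.coeff j - g a * A'.coeff j) < 1 := by
      intro j
      have e : f a * A.coeff j - g a * A'.coeff j =
        f a * (A.coeff j - A'.coeff j) + A'.coeff j * (f a - g a) := by ring
      rw [e]
      exact Valuation.map_add_lt W (hml _ _ h1 (ih' j).2.2) (hml _ _ (ih' j).2.1 h3)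
    cases i with
    | zero =>
      have e1 : ∀ (r : Ω) (B : (Polynomial Ω)), ((X - C r) * B).coeff 0 = -(r * B.coeff 0) := by
        intro r B
        rw [Polynomial.mul_coeff_zero]
        simp
      rw [e1, e1, Valuation.map_neg, Valuation.map_neg]
      refine ⟨hm _ _ h1 (ih' 0).1, hm _ _ h2 (ih' 0).2.1, ?_⟩
      have e2 : -(f a * A.coeff 0) - -(g a * A'.coeff 0) =
        -(f a * A.coeff 0 - g a * A'.coeff 0) := by ring
      rw [e2, Valuation.map_neg]
      exact hd 0
    | succ i =>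
      rw [coeff_X_sub_C_mul, coeff_X_sub_C_mul]
      refine ⟨Valuation.map_sub_le W (ih' i).1 (hm _ _ h1 (ih' (i + 1)).1),
        Valuation.map_sub_le W (ih' i).2.1 (hm _ _ h2 (ih' (i + 1)).2.1), ?_⟩
      have e : A.coeff i - f a * A.coeff (i + 1) - (A'.coeff i - g a * A'.coeff (i + 1)) =
        (A.coeff i - A'.coeff i) + -(f a * A.coeff (i + 1) - g a * A'.coeff (i + 1)) := by ring
      rw [e]
      apply Valuation.map_add_lt W (ih' i).2.2
      rw [Valuation.map_neg]
      exact hd (i + 1)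

theorem LOC {p : ℕ} [Fact p.Prime] {k E : Type*} [Field k] [Field E] [Algebra k E]
    (D : Dat p k E) (s : ℝ) (χ₁ : V p)
    (hχ : ∀ i j a b m : ℤ, (i + j * Real.sqrt 2 : ℝ) = (p : ℝ) * (a + b * Real.sqrt 2) + m * s →
      ∃ c : ZMod p, (((i : ZMod p), (j : ZMod p)) : V p) = c • χ₁)
    (ζ : k) (hζ : IsPrimitiveRoot ζ p) {n : ℕ}
    (g : Matrix (Fin n) (V p) E) (g' : Matrix (V p) (Fin n) E)
    (hgg' : g * g' = 1) (hg'g : g' * g = 1) (hg : ∀ i χ, g i χ ∈ D.K1) (hg' : ∀ χ i, g' χ i ∈ D.K1)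
    {KY K : Type*} [Field KY] [Field K] [Algebra KY K] {e : ℕ} (b : Module.Basis (Fin e) KY K)
    (he : e < p) (X : Matrix (Fin n) (Fin n) K) (hdet : X.det = 1)
    (F : Matrix (Fin n) (Fin n) KY)
    (hXF : X * F.map (algebraMap KY K) = F.map (algebraMap KY K) * X)
    (u : Fin n → KY) (hu : Cyc F u) (φ : KY →+* Et E) (hφ : ∀ a, φ a ∈ KT D.K1)
    (hev : ∀ τ, ∃ y : Et E, Matrix.vecMul (fun i => cE E (rho ζ D.α D.β g' τ i)) (F.map φ) =
      y • (fun i => cE E (rho ζ D.α D.β g' τ i))) :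
    ∃ S : Set k, ∀ h, dot χ₁ h ≠ 0 →
      Red (GV D.v D.na s) (Ph b X φ (cE E) p (gam ζ D.α D.β g g') h) S := by
  classical
  let Ω := AlgebraicClosure (Et E)
  let j : Et E →+* Ω := algebraMap (Et E) Ω
  obtain ⟨B, hB⟩ := VT8 (E0 := Et E) (Ω := Ω) (GV D.v D.na s)
  have hW : ∀ z : Et E, (B.valuation (j z) < 1 ↔ GV D.v D.na s z < 1) ∧
      (B.valuation (j z) ≤ 1 ↔ GV D.v D.na s z ≤ 1) := hB
  -- constants
  have hck : ∀ a : k, a ≠ 0 → GV D.v D.na s (ck k E a) = 1 := by
    intro a ha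
    apply NNReal.eq
    have := VT6 D.v D.na s (algebraMap k E a)
    rw [D.kv a ha] at this
    exact this
  have hck1 : ∀ a : k, B.valuation (j (ck k E a)) ≤ 1 := by
    intro a
    rw [(hW _).2]
    by_cases ha : a = 0
    · rw [ha, map_zero, map_zero]
      exact zero_le_one
    · rw [hck a ha]
  have hck0 : ∀ a : k, B.valuation (j (ck k E a)) < 1 → a = 0 := by
    intro a ha
    by_contra hne
    rw [(hW _).1, hck a hne] at ha
    exact lt_irrefl _ ha
  -- the local statement for one embedding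
  have hA : ∀ ι : K →+* Ω, ι.comp (algebraMap KY K) = j.comp φ → ∃ a : k, ∀ h : V p,
      dot χ₁ h ≠ 0 → B.valuation ((∏ m ∈ Finset.range p,
        xval X (j.comp (cE E)) ι (gam ζ D.α D.β g g' ((m : ZMod p) • h))) - j (ck k E a)) < 1 := by
    intro ι hι
    obtain ⟨K', hsub, H3, c, hc, hx, hprod⟩ := LA D ζ hζ g g' hgg' hg'g hg hg' b X hdet F hXF u hu
      φ hφ hev j ι hι
    have H := LB D s χ₁ hχ ζ hζ B.valuation j hW K' hsub e he H3
    have hprod' : ∏ τ : V p, (∑ χ, j (ck k E ζ) ^ (dot χ τ).val *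
        (c χ * ee (j (cE E D.α)) (j (cE E D.β)) χ)) = 1 := by
      rw [← hprod]
      exact Finset.prod_congr rfl fun τ _ => (hx τ).symm
    obtain ⟨i, hi⟩ := LL5 H c hc hprod'
    refine ⟨ζ ^ i, fun h hh => ?_⟩
    have h1 := hi h hh
    rw [map_pow, map_pow]
    have h2 : (∏ m ∈ Finset.range p,
        xval X (j.comp (cE E)) ι (gam ζ D.α D.β g g' ((m : ZMod p) • h))) =
        ∏ m ∈ Finset.range p, (∑ χ, j (ck k E ζ) ^ (dot χ ((m : ZMod p) • h)).val *
        (c χ * ee (j (cE E D.α)) (j (cE E D.β)) χ)) :=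
      Finset.prod_congr rfl fun m _ => hx _
    rw [h2]
    exact h1
  refine ⟨{a : k | ∃ ι : K →+* Ω, ι.comp (algebraMap KY K) = j.comp φ ∧ ∀ h : V p,
      dot χ₁ h ≠ 0 → B.valuation ((∏ m ∈ Finset.range p,
        xval X (j.comp (cE E)) ι (gam ζ D.α D.β g g' ((m : ZMod p) • h))) - j (ck k E a)) < 1},
    fun h hh => ?_⟩
  set P := Ph b X φ (cE E) p (gam ζ D.α D.β g g') h with hP
  have hPmap : P.map j = Ph b X (j.comp φ) (j.comp (cE E)) p (gam ζ D.α D.β g g') h :=
    PH1 b X φ (cE E) p (gam ζ D.α D.β g g') h j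
  have hPm : P.Monic := (PH2 b X φ (cE E) p (gam ζ D.α D.β g g') h).1
  have hPjm : (P.map j).Monic := hPm.map j
  have hroots := (IsAlgClosed.splits (P.map j)).eq_prod_roots_of_monic hPjm
  set R := (P.map j).roots with hR
  have hroot : ∀ θ ∈ R, ∃ a : k, (∃ ι : K →+* Ω, ι.comp (algebraMap KY K) = j.comp φ ∧
      ∀ h : V p, dot χ₁ h ≠ 0 → B.valuation ((∏ m ∈ Finset.range p,
        xval X (j.comp (cE E)) ι (gam ζ D.α D.β g g' ((m : ZMod p) • h))) - j (ck k E a)) < 1) ∧
      B.valuation (θ - j (ck k E a)) < 1 := by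
    intro θ hθ
    rw [hR, Polynomial.mem_roots hPjm.ne_zero, hPmap] at hθ
    obtain ⟨ι, hι, hθ'⟩ := PH3 b X (j.comp φ) (j.comp (cE E)) p (gam ζ D.α D.β g g') h θ hθ
    obtain ⟨a, ha⟩ := hA ι hι
    refine ⟨a, ⟨ι, hι, ha⟩, ?_⟩
    rw [hθ']
    exact ha h hh
  let af : Ω → k := fun θ => if hθ : θ ∈ R then (hroot θ hθ).choose else 0
  have haf : ∀ θ ∈ R, (∃ ι : K →+* Ω, ι.comp (algebraMap KY K) = j.comp φ ∧
      ∀ h : V p, dot χ₁ h ≠ 0 → B.valuation ((∏ m ∈ Finset.range p,
        xval X (j.comp (cE E)) ι (gam ζ D.α D.β g g' ((m : ZMod p) • h))) -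
          j (ck k E (af θ))) < 1) ∧ B.valuation (θ - j (ck k E (af θ))) < 1 := by
    intro θ hθ
    simp only [af, dif_pos hθ]
    exact (hroot θ hθ).choose_spec
  refine ⟨(R.map (fun θ => Polynomial.X - C (af θ))).prod, ?_, ?_, ?_⟩
  · exact monic_multiset_prod_of_monic _ _ fun θ _ => monic_X_sub_C _
  · ext x
    rw [Set.mem_ofPred_eq, Set.mem_ofPred_eq]
    constructor
    · intro hx
      rw [Polynomial.IsRoot.def, Polynomial.eval_multiset_prod, Multiset.prod_eq_zero_iff,
        Multiset.mem_map] at hx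
      obtain ⟨q, hq, hqx⟩ := hx
      rw [Multiset.mem_map] at hq
      obtain ⟨θ, hθ, rfl⟩ := hq
      rw [eval_sub, eval_X, eval_C, sub_eq_zero] at hqx
      rw [hqx]
      exact (haf θ hθ).1
    · rintro ⟨ι, hι, hx⟩
      have hr := PH4 b X (j.comp φ) (j.comp (cE E)) p (gam ζ D.α D.β g g') h ι hι
      rw [← hPmap, ← Polynomial.mem_roots hPjm.ne_zero, ← hR] at hr
      have h1 := (haf _ hr).2
      have h2 := hx h hh
      have h3 : B.valuation (j (ck k E (x - af (∏ m ∈ Finset.range p,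
          xval X (j.comp (cE E)) ι (gam ζ D.α D.β g g' ((m : ZMod p) • h)))))) < 1 := by
        rw [map_sub, map_sub]
        have e : ∀ a b c : Ω, b - c = (a - c) + -(a - b) := by
          intro a b c; ring
        rw [e (∏ m ∈ Finset.range p,
          xval X (j.comp (cE E)) ι (gam ζ D.α D.β g g' ((m : ZMod p) • h)))]
        apply Valuation.map_add_lt _ h1
        rw [Valuation.map_neg]
        exact h2
      have h4 := hck0 _ h3
      rw [sub_eq_zero] at h4
      rw [Polynomial.IsRoot.def, Polynomial.eval_multiset_prod, Multiset.prod_eq_zero_iff,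
        Multiset.mem_map]
      refine ⟨Polynomial.X - C (af _), Multiset.mem_map.2 ⟨_, hr, rfl⟩, ?_⟩
      rw [eval_sub, eval_X, eval_C, ← h4, sub_self]
  · intro i
    rw [← (hW _).1, map_sub, ← Polynomial.coeff_map, hroots]
    have h1 : j (ck k E ((R.map (fun θ => Polynomial.X - C (af θ))).prod.coeff i)) =
        (R.map (fun θ => Polynomial.X - C (j (ck k E (af θ))))).prod.coeff i := by
      change (j.comp (ck k E)) _ = _
      rw [← Polynomial.coeff_map, Polynomial.map_multiset_prod, Multiset.map_map]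
      congr 2
      apply Multiset.map_congr rfl
      intro θ _
      simp
    rw [h1]
    refine (j2629_coeff B.valuation R (fun θ => θ) (fun θ => j (ck k E (af θ))) ?_ i).2.2
    intro θ hθ
    have h2 := (haf θ hθ).2
    refine ⟨?_, hck1 _, h2⟩
    have e : θ = (θ - j (ck k E (af θ))) + j (ck k E (af θ)) := by ring
    rw [e]
    exact Valuation.map_add_le _ h2.le (hck1 _)

end NO

end Pool.Agent.Helper346.Cay
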