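import Pool.Agent.Helper346.Cay.Defs2

set_option autoImplicit false

open Polynomial

namespace Pool.Agent.Helper346.Cay

section NO


theorem GN1 (p : ℕ) [Fact p.Prime] (L : Type*) [Field L] [IsAlgClosed L]
    (X : Matrix (Fin (p ^ 2)) (Fin (p ^ 2)) L) (hsep : X.charpoly.Separable) (hdet : X.det = 1) :
    ∃ (U : Matrix (Fin (p ^ 2)) (V p) L) (U' : Matrix (V p) (Fin (p ^ 2)) L) (x : V p → L),
      U * U' = 1 ∧ U' * U = 1 ∧ X = U * Matrix.diagonal x * U' ∧ ∏ τ, x τ = 1 := by
  classical
  have hp : p.Prime := Fact.out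
  haveI : NeZero p := ⟨hp.ne_zero⟩
  have hcardV : Fintype.card (V p) = p ^ 2 := by
    rw [Fintype.card_prod, ZMod.card]; ring
  set P := X.charpoly with hP
  have hPm : P.Monic := X.charpoly_monic
  have hdeg : P.natDegree = p ^ 2 := by
    rw [hP, Matrix.charpoly_natDegree_eq_dim, Fintype.card_fin]
  have hnd : P.roots.Nodup := Polynomial.nodup_roots hsep
  have hcr : Multiset.card P.roots = p ^ 2 := by
    rw [← hdeg]
    exact (IsAlgClosed.splits P).natDegree_eq_card_roots.symm
  have hcf : P.roots.toFinset.card = p ^ 2 := by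
    rw [Multiset.toFinset_card_of_nodup hnd, hcr]
  have e : V p ≃ P.roots.toFinset := Fintype.equivOfCardEq (by
    rw [hcardV, Fintype.card_coe, hcf])
  let x : V p → L := fun τ => (e τ : L)
  have hxinj : Function.Injective x := fun a b h => e.injective (Subtype.ext h)
  have hroot : ∀ τ, P.IsRoot (x τ) := by
    intro τ
    have := (e τ).2
    rw [Multiset.mem_toFinset, Polynomial.mem_roots hPm.ne_zero] at this
    exact this
  have hvec : ∀ τ, ∃ u : Fin (p ^ 2) → L, u ≠ 0 ∧ X.mulVec u = x τ • u := by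
    intro τ
    have h0 : (Matrix.scalar (Fin (p ^ 2)) (x τ) - X).det = 0 := by
      have := hroot τ
      rw [Polynomial.IsRoot.def, hP, Matrix.eval_charpoly] at this
      exact this
    obtain ⟨u, hu, hu2⟩ := Matrix.exists_mulVec_eq_zero_iff.mpr h0
    refine ⟨u, hu, ?_⟩
    rw [Matrix.sub_mulVec, sub_eq_zero] at hu2
    rw [← hu2]
    ext i
    simp [Matrix.scalar_apply, Matrix.mulVec_diagonal]
  choose u hu0 hu using hvec
  have hli : LinearIndependent L u := by
    apply Module.End.eigenvectors_linearIndependent' (Matrix.toLin' X) x hxinj u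
    intro τ
    rw [Module.End.hasEigenvector_iff]
    refine ⟨?_, hu0 τ⟩
    rw [Module.End.mem_eigenspace_iff, Matrix.toLin'_apply, hu τ]
  let eqv : Fin (p ^ 2) ≃ V p := Fintype.equivOfCardEq (by rw [hcardV, Fintype.card_fin])
  let Us : Matrix (Fin (p ^ 2)) (Fin (p ^ 2)) L := Matrix.of fun i j => u (eqv j) i
  have hUs : IsUnit Us := by
    rw [← Matrix.linearIndependent_cols_iff_isUnit]
    exact hli.comp eqv eqv.injective
  have hUdet : IsUnit Us.det := (Matrix.isUnit_iff_isUnit_det Us).mp hUs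
  have h1 : Us * Us⁻¹ = 1 := Matrix.mul_nonsing_inv Us hUdet
  have h2 : Us⁻¹ * Us = 1 := Matrix.nonsing_inv_mul Us hUdet
  let U : Matrix (Fin (p ^ 2)) (V p) L := Us.submatrix id eqv.symm
  let U' : Matrix (V p) (Fin (p ^ 2)) L := Us⁻¹.submatrix eqv.symm id
  have hUU' : U * U' = 1 := by
    show Us.submatrix id eqv.symm * Us⁻¹.submatrix eqv.symm id = 1
    rw [Matrix.submatrix_mul_equiv, h1, Matrix.submatrix_id_id]
  have hU'U : U' * U = 1 := by
    show Us⁻¹.submatrix eqv.symm id * Us.submatrix id eqv.symm = 1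
    rw [← Matrix.submatrix_mul _ _ eqv.symm id eqv.symm Function.bijective_id, h2,
      Matrix.submatrix_one_equiv]
  have hXU : X * U = U * Matrix.diagonal x := by
    ext i τ
    rw [Matrix.mul_diagonal]
    have h := congrFun (hu τ) i
    simp only [Matrix.mulVec, dotProduct, Pi.smul_apply, smul_eq_mul] at h
    rw [Matrix.mul_apply]
    have hU : ∀ j τ, U j τ = u τ j := by
      intro j τ
      show u (eqv (eqv.symm τ)) j = u τ j
      rw [Equiv.apply_symm_apply]
    simp only [hU]
    rw [h, mul_comm]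
  have hX : X = U * Matrix.diagonal x * U' := by
    rw [← hXU, Matrix.mul_assoc, hUU', Matrix.mul_one]
  refine ⟨U, U', x, hUU', hU'U, hX, ?_⟩
  have hd : X.det = ∏ τ, x τ := by
    rw [Matrix.det_eq_prod_roots_charpoly, ← hP]
    have : ∏ τ, x τ = ∏ y ∈ P.roots.toFinset, y := by
      rw [← Finset.prod_coe_sort P.roots.toFinset (fun y => y)]
      exact Fintype.prod_equiv e _ _ (fun τ => rfl)
    rw [this, Finset.prod, Multiset.map_id', Multiset.toFinset_val, Multiset.dedup_eq_self.mpr hnd]
  rw [← hd, hdet]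

end NO

end Pool.Agent.Helper346.Cay
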