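import Pool.Agent.Helper346.Cay.Defs2

set_option autoImplicit false

open Polynomial

namespace Pool.Agent.Helper346.Cay

section NO


theorem GN3_aux_pow {R : Type*} [CommRing R] {p : ℕ} [NeZero p] (z : R) (hz : z ^ p = 1)
    (a b : ZMod p) : z ^ (a + b).val = z ^ a.val * z ^ b.val := by
  rw [ZMod.val_add, ← pow_add, ← pow_eq_pow_mod _ hz]

theorem GN3_aux_ee {R : Type*} [CommRing R] {p : ℕ} [NeZero p] (α : R) (a b : ZMod p) :
    α ^ (a + b).val * (α ^ p) ^ ((a.val + b.val) / p) = α ^ a.val * α ^ b.val := by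
  rw [ZMod.val_add, ← pow_mul, ← pow_add, ← pow_add, Nat.mod_add_div]

theorem GN3 {R : Type*} [CommRing R] {p : ℕ} [NeZero p] (lam : V p → R) (α β z : R)
    (hz : z ^ p = 1) (τ : V p) :
    Matrix.vecMul (fun χ => z ^ (dot χ τ).val * ee α β χ) (WW lam (α ^ p) (β ^ p)) =
      (∑ χ, z ^ (dot χ τ).val * lam χ * ee α β χ) •
        (fun χ => z ^ (dot χ τ).val * ee α β χ) := by
  funext χ'
  simp only [Matrix.vecMul, dotProduct, Pi.smul_apply, smul_eq_mul, Finset.sum_mul]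
  refine Fintype.sum_equiv (Equiv.subRight χ') _ _ fun χ => ?_
  simp only [Equiv.subRight_apply, WW, Matrix.of_apply]
  obtain ⟨δ, rfl⟩ : ∃ δ, χ = δ + χ' := ⟨χ - χ', (sub_add_cancel χ χ').symm⟩
  rw [add_sub_cancel_right]
  have h1 : dot (δ + χ') τ = dot δ τ + dot χ' τ := by
    simp only [dot, Prod.fst_add, Prod.snd_add]; ring
  have h2 := GN3_aux_ee α δ.1 χ'.1
  have h3 := GN3_aux_ee β δ.2 χ'.2
  rw [h1, GN3_aux_pow z hz]
  simp only [ee, Prod.fst_add, Prod.snd_add]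
  calc z ^ (dot δ τ).val * z ^ (dot χ' τ).val * (α ^ (δ.1 + χ'.1).val * β ^ (δ.2 + χ'.2).val) *
        (lam δ * (α ^ p) ^ ((δ.1.val + χ'.1.val) / p) * (β ^ p) ^ ((δ.2.val + χ'.2.val) / p))
      = z ^ (dot δ τ).val * z ^ (dot χ' τ).val * lam δ *
        (α ^ (δ.1 + χ'.1).val * (α ^ p) ^ ((δ.1.val + χ'.1.val) / p)) *
        (β ^ (δ.2 + χ'.2).val * (β ^ p) ^ ((δ.2.val + χ'.2.val) / p)) := by ring
    _ = _ := by rw [h2, h3]; ring

end NO

end Pool.Agent.Helper346.Cay
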