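import Pool.Agent.Helper346.Cay.Defs2

set_option autoImplicit false

open Polynomial

namespace Pool.Agent.Helper346.Cay

section NO


theorem LF0 (n : ℕ) (k K : Type*) [Field k] [Field K] [Algebra k K]
    [Algebra (SLRing n k) K] [IsFractionRing (SLRing n k) K] [IsScalarTower k (SLRing n k) K] :
    GenSL n k (genX n k K) ∧ (genX n k K).det = 1 := by
  have key : ∀ P : MvPolynomial (Fin n × Fin n) k,
      MvPolynomial.aeval (fun ij : Fin n × Fin n => genX n k K ij.1 ij.2) P =
        algebraMap (SLRing n k) K (Ideal.Quotient.mk _ P) := by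
    intro P
    have h : (MvPolynomial.aeval (fun ij : Fin n × Fin n => genX n k K ij.1 ij.2) :
        MvPolynomial (Fin n × Fin n) k →ₐ[k] K) =
        (IsScalarTower.toAlgHom k (SLRing n k) K).comp
          (Ideal.Quotient.mkₐ k (Ideal.span {(Matrix.mvPolynomialX (Fin n) (Fin n) k).det - 1})) := by
      apply MvPolynomial.algHom_ext
      intro ij
      rw [MvPolynomial.aeval_X]
      rfl
    have := congrArg (fun f => f P) h
    exact this
  refine ⟨fun P hP => ?_, ?_⟩
  · rw [key] at hP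
    have h0 : Ideal.Quotient.mk (Ideal.span {(Matrix.mvPolynomialX (Fin n) (Fin n) k).det - 1}) P
        = 0 := IsFractionRing.injective (SLRing n k) K (by rw [hP, map_zero])
    exact Ideal.Quotient.eq_zero_iff_mem.mp h0
  · have h1 : (genX n k K).det = algebraMap (SLRing n k) K (Ideal.Quotient.mk _
        (Matrix.mvPolynomialX (Fin n) (Fin n) k).det) := by
      rw [← key, AlgHom.map_det]
      congr 1
      ext i j
      simp [Matrix.mvPolynomialX]
    have h2 : (Ideal.Quotient.mk (Ideal.span {(Matrix.mvPolynomialX (Fin n) (Fin n) k).det - 1})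
        (Matrix.mvPolynomialX (Fin n) (Fin n) k).det) = 1 := by
      rw [← map_one (Ideal.Quotient.mk _), Ideal.Quotient.mk_eq_mk_iff_sub_mem]
      exact Ideal.mem_span_singleton_self _
    rw [h1, h2, map_one]

theorem LF5 (n : ℕ) (k : Type*) [Field k] {L : Type*} [Field L] [Algebra k L]
    (hn : 0 < n) (Z : Matrix (Fin n) (Fin n) L) (hZ : GenSL n k Z) (c : k) (hc : c ^ n = 1) :
    GenSL n k ((algebraMap k L c) • Z) := by
  have hc0 : c ≠ 0 := by
    rintro rfl
    rw [zero_pow hn.ne'] at hc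
    exact zero_ne_one hc
  let φ : k → (MvPolynomial (Fin n × Fin n) k →ₐ[k] MvPolynomial (Fin n × Fin n) k) :=
    fun d => MvPolynomial.aeval (fun ij => MvPolynomial.C d * MvPolynomial.X ij)
  have hφX : ∀ d ij, φ d (MvPolynomial.X ij) = MvPolynomial.C d * MvPolynomial.X ij :=
    fun d ij => MvPolynomial.aeval_X _ _
  intro P hP
  have h1 : MvPolynomial.aeval (fun ij : Fin n × Fin n => ((algebraMap k L c) • Z) ij.1 ij.2) P =
      MvPolynomial.aeval (fun ij : Fin n × Fin n => Z ij.1 ij.2) (φ c P) := by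
    have h : (MvPolynomial.aeval (fun ij : Fin n × Fin n => ((algebraMap k L c) • Z) ij.1 ij.2) :
        MvPolynomial (Fin n × Fin n) k →ₐ[k] L) =
        (MvPolynomial.aeval (fun ij : Fin n × Fin n => Z ij.1 ij.2)).comp (φ c) := by
      apply MvPolynomial.algHom_ext
      intro ij
      rw [AlgHom.comp_apply, hφX, MvPolynomial.aeval_X, map_mul, MvPolynomial.aeval_X,
        MvPolynomial.aeval_C]
      simp
    exact congrArg (fun f => f P) h
  rw [h1] at hP
  have h2 := hZ _ hP
  rw [Ideal.mem_span_singleton] at h2 ⊢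
  have h3 := map_dvd (φ c⁻¹) h2
  have h4 : φ c⁻¹ (φ c P) = P := by
    have h : (φ c⁻¹).comp (φ c) = AlgHom.id k _ := by
      apply MvPolynomial.algHom_ext
      intro ij
      rw [AlgHom.comp_apply, hφX, map_mul, hφX]
      have : φ c⁻¹ (MvPolynomial.C c) = MvPolynomial.C c := MvPolynomial.aeval_C _ _
      rw [this, ← mul_assoc, ← MvPolynomial.C_mul, mul_inv_cancel₀ hc0, MvPolynomial.C_1, one_mul]
      rfl
    exact congrArg (fun f => f P) h
  have h5 : φ c⁻¹ ((Matrix.mvPolynomialX (Fin n) (Fin n) k).det - 1) =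
      (Matrix.mvPolynomialX (Fin n) (Fin n) k).det - 1 := by
    rw [map_sub, map_one, AlgHom.map_det]
    congr 1
    have : (φ c⁻¹).mapMatrix (Matrix.mvPolynomialX (Fin n) (Fin n) k) =
        (MvPolynomial.C c⁻¹ : MvPolynomial (Fin n × Fin n) k) •
          Matrix.mvPolynomialX (Fin n) (Fin n) k := by
      ext1 i j
      rw [AlgHom.mapMatrix_apply, Matrix.map_apply, Matrix.smul_apply, Matrix.mvPolynomialX_apply,
        hφX, smul_eq_mul]
    rw [this, Matrix.det_smul, Fintype.card_fin, ← map_pow, inv_pow, hc, inv_one, MvPolynomial.C_1,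
      one_mul]
  rwa [h4, h5] at h3

theorem GN2 {ι : Type*} [Fintype ι] [Nonempty ι] (L : Type*) [Field L] [IsAlgClosed L] (n : ℕ)
    (hn : 0 < n) (x : ι → L) (hx : ∏ τ, x τ = 1) : ∃ w : ι → L, (∀ τ, w τ ^ n = x τ) ∧
      ∏ τ, w τ = 1 := by
  classical
  choose w0 hw0 using fun τ => IsAlgClosed.exists_pow_nat_eq (x τ) hn
  set ω := ∏ τ, w0 τ with hω
  have hωn : ω ^ n = 1 := by
    rw [hω, ← Finset.prod_pow, ← hx]
    exact Finset.prod_congr rfl (fun τ _ => hw0 τ)
  have hω0 : ω ≠ 0 := by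
    intro h
    rw [h, zero_pow hn.ne'] at hωn
    exact zero_ne_one hωn
  obtain ⟨τ0⟩ := (inferInstance : Nonempty ι)
  refine ⟨Function.update w0 τ0 (w0 τ0 / ω), fun τ => ?_, ?_⟩
  · by_cases h : τ = τ0
    · subst h
      rw [Function.update_self, div_pow, hωn, div_one, hw0]
    · rw [Function.update_of_ne h, hw0]
  · rw [Finset.prod_update_of_mem (Finset.mem_univ τ0)]
    have h1 : w0 τ0 * ∏ x ∈ Finset.univ \ {τ0}, w0 x = ω := by
      exact (Finset.prod_eq_mul_prod_sdiff_singleton_of_mem (Finset.mem_univ τ0) w0).symm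
    rw [div_mul_eq_mul_div, h1, div_self hω0]

end NO

end Pool.Agent.Helper346.Cay
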