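import Pool.Agent.Helper346.Cay.Defs2
import Pool.Agent.Helper346.Cay.KI
import Pool.Agent.Helper346.Cay.KJ
import Pool.Agent.Helper346.Cay.KO
import Pool.Agent.Helper346.Cay.KR

set_option autoImplicit false

open Polynomial

namespace Pool.Agent.Helper346.Cay

section NO


theorem mat_mem_mul {E ι κ μ : Type*} [Field E] [Fintype κ] (K1 : Subfield E) (A : Matrix ι κ E)
    (B : Matrix κ μ E) (hA : ∀ i j, A i j ∈ K1) (hB : ∀ i j, B i j ∈ K1) (i : ι) (j : μ) :
    (A * B) i j ∈ K1 := by
  rw [Matrix.mul_apply]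
  exact sum_mem fun x _ => mul_mem (hA i x) (hB x j)

theorem mat_mem_pow {E κ : Type*} [Field E] [Fintype κ] [DecidableEq κ] (K1 : Subfield E)
    (A : Matrix κ κ E) (hA : ∀ i j, A i j ∈ K1) (n : ℕ) : ∀ i j, (A ^ n) i j ∈ K1 := by
  induction n with
  | zero =>
    intro i j
    rw [pow_zero, Matrix.one_apply]
    split_ifs
    · exact one_mem _
    · exact zero_mem _
  | succ n ih =>
    intro i j
    rw [pow_succ]
    exact mat_mem_mul K1 _ _ ih hA i j

theorem vecMul_pow_eig {R κ : Type*} [CommRing R] [Fintype κ] [DecidableEq κ] (A : Matrix κ κ R)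
    (r : κ → R) (y : R) (h : Matrix.vecMul r A = y • r) (n : ℕ) :
    Matrix.vecMul r (A ^ n) = y ^ n • r := by
  induction n with
  | zero => simp
  | succ n ih =>
    rw [pow_succ, ← Matrix.vecMul_vecMul, ih, Matrix.smul_vecMul, h, smul_smul, pow_succ]

theorem pow_conj_left {R κ : Type*} [CommRing R] [Fintype κ] [DecidableEq κ] (C W D : Matrix κ κ R)
    (h : C * W = D * C) (n : ℕ) : C * W ^ n = D ^ n * C := by
  induction n with
  | zero => simp
  | succ n ih => rw [pow_succ, ← Matrix.mul_assoc, ih, Matrix.mul_assoc, h, ← Matrix.mul_assoc, pow_succ]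

theorem WW_map {R S : Type*} [CommRing R] [CommRing S] {p : ℕ} (f : R →+* S) (lam : V p → R) (a b : R) :
    (WW lam a b).map f = WW (fun χ => f (lam χ)) (f a) (f b) := by
  ext χ χ'
  simp only [WW, Matrix.map_apply, Matrix.of_apply, map_mul, map_pow]

theorem genSL_transfer {n : ℕ} {k L E R : Type*} [Field k] [Field L] [Field E] [CommRing R] [IsDomain R]
    [Algebra k L] [Algebra k E] [Algebra k R]
    (πE : R →+* E) (π1 : R →+* L) (hE : ∀ c : k, πE (algebraMap k R c) = algebraMap k E c)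
    (h1 : ∀ c : k, π1 (algebraMap k R c) = algebraMap k L c) (hinj : Function.Injective πE)
    (δ : R) (hδ : δ ≠ 0) (hδ1 : π1 δ = 1) (N : Matrix (Fin n) (Fin n) R)
    (X : Matrix (Fin n) (Fin n) L) (X0 : Matrix (Fin n) (Fin n) E)
    (hN1 : ∀ i j, π1 (N i j) = X i j) (hNE : ∀ i j, (πE δ)⁻¹ * πE (N i j) = X0 i j)
    (hX : GenSL n k X) : GenSL n k X0 := by
  intro P hP
  refine hX P ?_
  have hd : πE δ ≠ 0 := fun h => hδ (hinj (by rw [h, map_zero]))
  have uE : IsUnit (πE δ) := isUnit_iff_ne_zero.2 hd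
  have u1 : IsUnit (π1 δ) := by rw [hδ1]; exact isUnit_one
  set fE : Localization.Away δ →+* E := IsLocalization.Away.lift δ uE with hfE
  set f1 : Localization.Away δ →+* L := IsLocalization.Away.lift δ u1 with hf1
  have hfEa : ∀ r : R, fE (algebraMap R (Localization.Away δ) r) = πE r := fun r => by
    rw [hfE]; exact IsLocalization.Away.lift_eq δ uE r
  have hf1a : ∀ r : R, f1 (algebraMap R (Localization.Away δ) r) = π1 r := fun r => by
    rw [hf1]; exact IsLocalization.Away.lift_eq δ u1 r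
  have hinjA : Function.Injective (algebraMap R (Localization.Away δ)) :=
    IsLocalization.injective _ (powers_le_nonZeroDivisors_of_noZeroDivisors hδ)
  have hfEinj : Function.Injective fE := by
    rw [injective_iff_map_eq_zero]
    intro a ha
    obtain ⟨m, r, hr⟩ := IsLocalization.Away.surj δ a
    have h2 : πE r = 0 := by
      rw [← hfEa, ← hr, map_mul, ha, zero_mul]
    have h3 : r = 0 := hinj (by rw [h2, map_zero])
    rw [h3, map_zero] at hr
    have h4 : IsUnit (algebraMap R (Localization.Away δ) δ) := IsLocalization.Away.algebraMap_isUnit δ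
    exact (h4.pow m).mul_left_eq_zero.1 hr
  set iv : Localization.Away δ := IsLocalization.Away.invSelf δ with hiv
  have hivδ : algebraMap R (Localization.Away δ) δ * iv = 1 := IsLocalization.Away.mul_invSelf δ
  have hEiv : fE iv = (πE δ)⁻¹ := by
    have h2 := congrArg fE hivδ
    rw [map_mul, hfEa, map_one] at h2
    exact (eq_inv_of_mul_eq_one_right h2)
  have h1iv : f1 iv = 1 := by
    have h2 := congrArg f1 hivδ
    rw [map_mul, hf1a, map_one, hδ1, one_mul] at h2
    exact h2
  set NA : Fin n × Fin n → Localization.Away δ :=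
    fun ij => iv * algebraMap R (Localization.Away δ) (N ij.1 ij.2) with hNA
  set Q : Localization.Away δ :=
    MvPolynomial.eval₂ ((algebraMap R (Localization.Away δ)).comp (algebraMap k R)) NA P with hQ
  have hQE : fE Q = 0 := by
    rw [hQ, MvPolynomial.hom_eval₂, ← hP, MvPolynomial.aeval_def]
    congr 1
    · ext c
      simp only [RingHom.comp_apply]
      rw [hfEa, hE]
    · funext ij
      simp only [Function.comp_apply, hNA, map_mul, hfEa, hEiv]
      exact hNE ij.1 ij.2
  have hQ0 : Q = 0 := hfEinj (by rw [hQE, map_zero])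
  have hQ1 : f1 Q = MvPolynomial.aeval (fun ij : Fin n × Fin n => X ij.1 ij.2) P := by
    rw [hQ, MvPolynomial.hom_eval₂, MvPolynomial.aeval_def]
    congr 1
    · ext c
      simp only [RingHom.comp_apply]
      rw [hf1a, h1]
    · funext ij
      simp only [Function.comp_apply, hNA, map_mul, hf1a, h1iv, one_mul]
      exact hN1 ij.1 ij.2
  rw [← hQ1, hQ0, map_zero]

theorem GN5 (p : ℕ) [Fact p.Prime] (k L E : Type*) [Field k] [CharZero k] [Field L]
    [IsAlgClosed L] [Field E] [Algebra k L] [Algebra k E] [Algebra L E] [IsScalarTower k L E]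
    (ζ : k) (hζ : IsPrimitiveRoot ζ p)
    (X : Matrix (Fin (p ^ 2)) (Fin (p ^ 2)) L) (hsep : X.charpoly.Separable) (hdet : X.det = 1)
    (hX : GenSL (p ^ 2) k X)
    (K1 : Subfield E) (hL : ∀ c : L, algebraMap L E c ∈ K1) (α β : E)
    (hα : α ^ p ∈ K1) (hβ : β ^ p ∈ K1) (halg : AlgebraicIndependent L ![α ^ p, β ^ p]) :
    ∃ (g : Matrix (Fin (p ^ 2)) (V p) E) (g' : Matrix (V p) (Fin (p ^ 2)) E)
      (X0 : Matrix (Fin (p ^ 2)) (Fin (p ^ 2)) E),
      g * g' = 1 ∧ g' * g = 1 ∧ (∀ i χ, g i χ ∈ K1) ∧ (∀ χ i, g' χ i ∈ K1) ∧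
      (∀ i j, X0 i j ∈ K1) ∧ X0.det = 1 ∧
      (∀ τ, ∃ y : E, Matrix.vecMul (rho ζ α β g' τ) X0 = y • rho ζ α β g' τ) ∧
      GenSL (p ^ 2) k X0 := by
  classical
  haveI hpne : NeZero p := ⟨(Fact.out : p.Prime).ne_zero⟩
  have hp0 : 0 < p := (Fact.out : p.Prime).pos
  obtain ⟨U, U', x, hUU', hU'U, hXU, hx1⟩ := GN1 p L X hsep hdet
  obtain ⟨w, hw, hw1⟩ := GN2 L (p ^ 2) (by positivity) x hx1
  set z : L := algebraMap k L ζ with hz
  have hzp : IsPrimitiveRoot z p := hζ.map_of_injective (algebraMap k L).injective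
  obtain ⟨Ch', hCC', hC'C⟩ := GN4 z hzp
  set Ch : Matrix (V p) (V p) L := Matrix.of fun (τ χ : V p) => z ^ (dot χ τ).val with hCh
  set lam : V p → L := Ch'.mulVec w with hlam
  have hChl : Ch.mulVec lam = w := by
    rw [hlam, Matrix.mulVec_mulVec, hCC', Matrix.one_mulVec]
  have hlamw : ∀ τ, ∑ χ, z ^ (dot χ τ).val * lam χ = w τ := by
    intro τ
    have := congrFun hChl τ
    rw [← this]
    rfl
  set Wp : Matrix (V p) (V p) (MvPolynomial (Fin 2) L) :=
    WW (fun χ => MvPolynomial.C (lam χ)) (MvPolynomial.X 0) (MvPolynomial.X 1) with hWp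
  set πE : MvPolynomial (Fin 2) L →ₐ[L] E := MvPolynomial.aeval ![α ^ p, β ^ p] with hπE
  set π1 : MvPolynomial (Fin 2) L →ₐ[L] L := MvPolynomial.aeval (fun _ => (1 : L)) with hπ1
  have hinj : Function.Injective πE := halg
  set lamE : V p → E := fun χ => algebraMap L E (lam χ) with hlamE
  have hWE : Wp.map (πE : MvPolynomial (Fin 2) L →+* E) = WW lamE (α ^ p) (β ^ p) := by
    rw [hWp, WW_map]
    simp [hπE, hlamE]
  have hW1 : Wp.map (π1 : MvPolynomial (Fin 2) L →+* L) = WW lam 1 1 := by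
    rw [hWp, WW_map]
    simp [hπ1]
  set WE := WW lamE (α ^ p) (β ^ p) with hWEdef
  have hee1 : ∀ χ : V p, ee (1 : L) 1 χ = 1 := fun χ => by simp [ee]
  have hCW : Ch * WW lam 1 1 = Matrix.diagonal w * Ch := by
    ext τ χ'
    have h1 := GN3 lam (1 : L) 1 z hzp.pow_eq_one τ
    simp only [hee1, mul_one, one_pow, hlamw] at h1
    have h2 := congrFun h1 χ'
    rw [Matrix.diagonal_mul]
    exact h2
  have hdetW1 : (WW lam (1 : L) 1 : Matrix (V p) (V p) L).det = 1 := by
    have h1 := congrArg Matrix.det hCW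
    rw [Matrix.det_mul, Matrix.det_mul, Matrix.det_diagonal, hw1, one_mul] at h1
    have h2 : Ch.det * Ch'.det = 1 := by rw [← Matrix.det_mul, hCC', Matrix.det_one]
    have h3 : Ch.det ≠ 0 := left_ne_zero_of_mul_eq_one h2
    exact mul_left_cancel₀ h3 (by rw [h1, mul_one])
  set δ := Wp.det with hδ
  have hδ1 : π1 δ = 1 := by
    have h1 : π1 δ = ((π1 : MvPolynomial (Fin 2) L →+* L).mapMatrix Wp).det := by
      rw [← RingHom.map_det]; rfl
    rw [h1, RingHom.mapMatrix_apply, hW1, hdetW1]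
  have hδ0 : δ ≠ 0 := by
    intro h
    rw [h, map_zero] at hδ1
    exact zero_ne_one hδ1
  have hδE : πE δ = WE.det := by
    have h1 : πE δ = ((πE : MvPolynomial (Fin 2) L →+* E).mapMatrix Wp).det := by
      rw [← RingHom.map_det]; rfl
    rw [h1, RingHom.mapMatrix_apply, hWE]
  set d : E := πE δ with hd
  have hd0 : d ≠ 0 := fun h => hδ0 (hinj (by rw [← hd, h, map_zero]))
  set gL := U * Ch with hgL
  set gL' := Ch' * U' with hgL'
  have hgg : gL * gL' = 1 := by
    rw [hgL, hgL', Matrix.mul_assoc, ← Matrix.mul_assoc Ch, hCC', Matrix.one_mul, hUU']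
  have hgg' : gL' * gL = 1 := by
    rw [hgL, hgL', Matrix.mul_assoc, ← Matrix.mul_assoc U', hU'U, Matrix.one_mul, hC'C]
  set g : Matrix (Fin (p ^ 2)) (V p) E := gL.map (algebraMap L E) with hg
  set g' : Matrix (V p) (Fin (p ^ 2)) E := gL'.map (algebraMap L E) with hg'
  have hggE : g * g' = 1 := by
    rw [hg, hg', ← Matrix.map_mul, hgg, Matrix.map_one _ (map_zero _) (map_one _)]
  have hggE' : g' * g = 1 := by
    rw [hg, hg', ← Matrix.map_mul, hgg', Matrix.map_one _ (map_zero _) (map_one _)]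
  have hgK : ∀ i χ, g i χ ∈ K1 := fun i χ => hL _
  have hgK' : ∀ χ i, g' χ i ∈ K1 := fun χ i => hL _
  have hWEK : ∀ i j, WE i j ∈ K1 := by
    intro i j
    rw [hWEdef]
    simp only [WW, Matrix.of_apply]
    exact mul_mem (mul_mem (hL _) (pow_mem hα _)) (pow_mem hβ _)
  have hdK : d ∈ K1 := by
    rw [hδE, Matrix.det_apply]
    refine sum_mem fun σ _ => ?_
    rw [Units.smul_def]
    exact zsmul_mem (prod_mem fun i _ => hWEK _ _) _
  set X0 : Matrix (Fin (p ^ 2)) (Fin (p ^ 2)) E := d⁻¹ • (g * WE ^ (p ^ 2) * g') with hX0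
  refine ⟨g, g', X0, hggE, hggE', hgK, hgK', ?_, ?_, ?_, ?_⟩
  · intro i j
    rw [hX0, Matrix.smul_apply, smul_eq_mul]
    exact mul_mem (inv_mem hdK) (mat_mem_mul K1 _ _ (mat_mem_mul K1 _ _ hgK (mat_mem_pow K1 _ hWEK _)) hgK' i j)
  · rw [hX0, Matrix.det_smul, Matrix.det_conj_of_mul_eq_one hggE hggE', Matrix.det_pow, ← hδE,
      Fintype.card_fin, ← mul_pow, inv_mul_cancel₀ hd0, one_pow]
  · intro τ
    set r : V p → E := fun χ => algebraMap k E ζ ^ (dot χ τ).val * ee α β χ with hr
    have hzE : (algebraMap k E ζ) ^ p = 1 := by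
      rw [← map_pow, hζ.pow_eq_one, map_one]
    have h1 := GN3 lamE α β (algebraMap k E ζ) hzE τ
    have h2 := vecMul_pow_eig _ _ _ h1 (p ^ 2)
    have hrho : rho ζ α β g' τ = Matrix.vecMul r g' := by
      funext i
      rfl
    refine ⟨d⁻¹ * (∑ χ, algebraMap k E ζ ^ (dot χ τ).val * lamE χ * ee α β χ) ^ (p ^ 2), ?_⟩
    rw [hrho, hX0, Matrix.vecMul_smul, Matrix.vecMul_vecMul, ← Matrix.mul_assoc, ← Matrix.mul_assoc, hggE',
      Matrix.one_mul, ← Matrix.vecMul_vecMul, h2, Matrix.smul_vecMul, smul_smul]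
  · set G1 : Matrix (Fin (p ^ 2)) (V p) (MvPolynomial (Fin 2) L) :=
      gL.map (MvPolynomial.C : L →+* MvPolynomial (Fin 2) L) with hG1
    set G2 : Matrix (V p) (Fin (p ^ 2)) (MvPolynomial (Fin 2) L) :=
      gL'.map (MvPolynomial.C : L →+* MvPolynomial (Fin 2) L) with hG2
    refine genSL_transfer (πE : MvPolynomial (Fin 2) L →+* E) (π1 : MvPolynomial (Fin 2) L →+* L) ?_ ?_
      hinj δ hδ0 hδ1 (G1 * Wp ^ (p ^ 2) * G2) X X0 ?_ ?_ hX
    · intro c
      rw [IsScalarTower.algebraMap_apply k L (MvPolynomial (Fin 2) L), IsScalarTower.algebraMap_apply k L E]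
      exact πE.commutes _
    · intro c
      rw [IsScalarTower.algebraMap_apply k L (MvPolynomial (Fin 2) L)]
      exact π1.commutes _
    · intro i j
      have h1 : (G1 * Wp ^ (p ^ 2) * G2).map
          (π1 : MvPolynomial (Fin 2) L →+* L) = gL * (WW lam 1 1) ^ (p ^ 2) * gL' := by
        have f1 : G1.map (π1 : MvPolynomial (Fin 2) L →+* L) = gL := by
          ext a b
          show π1 (MvPolynomial.C (gL a b)) = gL a b
          exact π1.commutes (gL a b)
        have f2 : G2.map (π1 : MvPolynomial (Fin 2) L →+* L) = gL' := by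
          ext a b
          show π1 (MvPolynomial.C (gL' a b)) = gL' a b
          exact π1.commutes (gL' a b)
        rw [Matrix.map_mul, Matrix.map_mul, Matrix.map_pow, hW1, f1, f2]
      have h2 : gL * (WW lam 1 1) ^ (p ^ 2) * gL' = X := by
        have h3 : (Matrix.diagonal w) ^ (p ^ 2) = Matrix.diagonal x := by
          rw [Matrix.diagonal_pow]
          congr 1
          funext τ
          exact hw τ
        rw [hgL, hgL', Matrix.mul_assoc U, pow_conj_left Ch _ _ hCW, h3, hXU]
        simp only [Matrix.mul_assoc]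
        rw [← Matrix.mul_assoc Ch, hCC', Matrix.one_mul]
      have h4 := congrFun (congrFun (h1.trans h2) i) j
      exact h4
    · intro i j
      have h1 : (G1 * Wp ^ (p ^ 2) * G2).map
          (πE : MvPolynomial (Fin 2) L →+* E) = g * WE ^ (p ^ 2) * g' := by
        have f1 : G1.map (πE : MvPolynomial (Fin 2) L →+* E) = g := by
          ext a b
          show πE (MvPolynomial.C (gL a b)) = algebraMap L E (gL a b)
          exact πE.commutes (gL a b)
        have f2 : G2.map (πE : MvPolynomial (Fin 2) L →+* E) = g' := by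
          ext a b
          show πE (MvPolynomial.C (gL' a b)) = algebraMap L E (gL' a b)
          exact πE.commutes (gL' a b)
        rw [Matrix.map_mul, Matrix.map_mul, Matrix.map_pow, hWE, f1, f2]
      have h4 := congrFun (congrFun h1 i) j
      rw [hX0, Matrix.smul_apply, smul_eq_mul, ← h4]
      rfl

end NO

end Pool.Agent.Helper346.Cay
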