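import Pool.Agent.Helper346.Cay.Defs2
import Pool.Agent.Helper346.Cay.KR

set_option autoImplicit false

open Polynomial

namespace Pool.Agent.Helper346.Cay

section NO


/-- evaluation of polynomials in the matrix entries -/
noncomputable def evm {n : ℕ} {k L : Type*} [CommSemiring k] [CommSemiring L] [Algebra k L]
    (Z : Matrix (Fin n) (Fin n) L) : MvPolynomial (Fin n × Fin n) k →ₐ[k] L :=
  MvPolynomial.aeval (fun ij : Fin n × Fin n => Z ij.1 ij.2)

/-- conjugation -/
noncomputable def cj {n : ℕ} {k L : Type*} [CommSemiring k] [CommSemiring L] [Algebra k L]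
    (g h : Matrix (Fin n) (Fin n) k) (Z : Matrix (Fin n) (Fin n) L) : Matrix (Fin n) (Fin n) L :=
  g.map (algebraMap k L) * Z * h.map (algebraMap k L)

theorem cj_map {n : ℕ} {k L L' : Type*} [CommSemiring k] [CommSemiring L] [Algebra k L]
    [CommSemiring L'] [Algebra k L'] (f : L →ₐ[k] L')
    (g h : Matrix (Fin n) (Fin n) k) (Z : Matrix (Fin n) (Fin n) L) :
    (cj g h Z).map f = cj g h (Z.map f) := by
  unfold cj
  rw [Matrix.map_mul, Matrix.map_mul, Matrix.map_map, Matrix.map_map]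
  congr 2
  · congr 1
    ext i j
    simp
  · ext i j
    simp

theorem evm_X_map {n : ℕ} {k L : Type*} [CommSemiring k] [CommSemiring L] [Algebra k L]
    (Z : Matrix (Fin n) (Fin n) L) :
    (Matrix.mvPolynomialX (Fin n) (Fin n) k).map (evm Z : _ →ₐ[k] L) = Z := by
  ext i j
  simp [evm]

theorem hom_evm {n : ℕ} {k L L' : Type*} [CommSemiring k] [CommSemiring L] [Algebra k L]
    [CommSemiring L'] [Algebra k L'] (f : L →ₐ[k] L') (Z : Matrix (Fin n) (Fin n) L)
    (P : MvPolynomial (Fin n × Fin n) k) : f (evm Z P) = evm (Z.map f) P := by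
  unfold evm
  rw [MvPolynomial.comp_aeval_apply]
  rfl

theorem evm_span {n : ℕ} {k L : Type*} [CommRing k] [CommRing L] [Algebra k L]
    (Z : Matrix (Fin n) (Fin n) L) (hZ : Z.det = 1) (P : MvPolynomial (Fin n × Fin n) k)
    (hP : P ∈ Ideal.span {(Matrix.mvPolynomialX (Fin n) (Fin n) k).det - 1}) :
    (evm Z : _ →ₐ[k] L) P = 0 := by
  rw [Ideal.mem_span_singleton] at hP
  obtain ⟨Q, rfl⟩ := hP
  have h1 : (evm Z : _ →ₐ[k] L) (Matrix.mvPolynomialX (Fin n) (Fin n) k).det = 1 := by
    rw [AlgHom.map_det]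
    have : (evm Z : _ →ₐ[k] L).mapMatrix (Matrix.mvPolynomialX (Fin n) (Fin n) k) = Z :=
      evm_X_map Z
    rw [this, hZ]
  rw [map_mul, map_sub, h1, map_one, sub_self, zero_mul]

theorem cj_cj {n : ℕ} {k L : Type*} [CommSemiring k] [CommSemiring L] [Algebra k L]
    (g h : Matrix (Fin n) (Fin n) k) (hgh : g * h = 1) (Z : Matrix (Fin n) (Fin n) L) :
    cj g h (cj h g Z) = Z := by
  unfold cj
  have h1 : g.map (algebraMap k L) * h.map (algebraMap k L) = 1 := by
    rw [← Matrix.map_mul, hgh, Matrix.map_one _ (map_zero _) (map_one _)]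
  calc g.map (algebraMap k L) * (h.map (algebraMap k L) * Z * g.map (algebraMap k L)) *
        h.map (algebraMap k L) = (g.map (algebraMap k L) * h.map (algebraMap k L)) * Z *
          (g.map (algebraMap k L) * h.map (algebraMap k L)) := by
        simp only [Matrix.mul_assoc]
    _ = Z := by rw [h1, Matrix.one_mul, Matrix.mul_one]

theorem cj_det {n : ℕ} {k L : Type*} [CommRing k] [CommRing L] [Algebra k L]
    (g h : Matrix (Fin n) (Fin n) k) (hgh : g * h = 1) (Z : Matrix (Fin n) (Fin n) L) :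
    (cj g h Z).det = Z.det := by
  unfold cj
  have h1 : g.map (algebraMap k L) * h.map (algebraMap k L) = 1 := by
    rw [← Matrix.map_mul, hgh, Matrix.map_one _ (map_zero _) (map_one _)]
  have h2 := congrArg Matrix.det h1
  rw [Matrix.det_mul, Matrix.det_one] at h2
  rw [Matrix.det_mul, Matrix.det_mul]
  calc _ = ((g.map (algebraMap k L)).det * (h.map (algebraMap k L)).det) * Z.det := by ring
    _ = _ := by rw [h2, one_mul]

theorem cj_smul {n : ℕ} {k L : Type*} [CommRing k] [CommRing L] [Algebra k L]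
    (g h : Matrix (Fin n) (Fin n) k) (t : L) (Z : Matrix (Fin n) (Fin n) L) :
    cj g h (t • Z) = t • cj g h Z := by
  unfold cj
  rw [Matrix.mul_smul, Matrix.smul_mul]

theorem evm_genX (n : ℕ) (k K : Type*) [Field k] [Field K] [Algebra k K]
    [Algebra (SLRing n k) K] [IsScalarTower k (SLRing n k) K] (P : MvPolynomial (Fin n × Fin n) k) :
    (evm (genX n k K) : _ →ₐ[k] K) P = algebraMap (SLRing n k) K (Ideal.Quotient.mk _ P) := by
  have : (evm (genX n k K) : _ →ₐ[k] K) = (IsScalarTower.toAlgHom k (SLRing n k) K).comp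
      (Ideal.Quotient.mkₐ k _) := by
    apply MvPolynomial.algHom_ext
    intro ij
    simp [evm, genX]
  rw [this]
  rfl

/-- the conjugation automorphism of the function field -/
theorem exists_conj (n : ℕ) (k K : Type*) [Field k] [Field K] [Algebra k K]
    [Algebra (SLRing n k) K] [IsFractionRing (SLRing n k) K] [IsScalarTower k (SLRing n k) K]
    (g h : Matrix (Fin n) (Fin n) k) (hgh : g * h = 1) (hhg : h * g = 1) :
    ∃ c : K →ₐ[k] K, (genX n k K).map c = cj g h (genX n k K) := by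
  obtain ⟨hgen, hdet⟩ := LF0 n k K
  haveI : IsDomain (SLRing n k) := (IsFractionRing.injective (SLRing n k) K).isDomain
    (algebraMap (SLRing n k) K)
  have hvan : ∀ P : MvPolynomial (Fin n × Fin n) k,
      P ∈ Ideal.span {(Matrix.mvPolynomialX (Fin n) (Fin n) k).det - 1} →
      (evm (cj g h (genX n k K)) : _ →ₐ[k] K) P = 0 := fun P hP =>
    evm_span _ (by rw [cj_det g h hgh, hdet]) P hP
  obtain ⟨ψ, hψ⟩ : ∃ ψ : SLRing n k →ₐ[k] K, ∀ P, ψ (Ideal.Quotient.mk _ P) =
      (evm (cj g h (genX n k K)) : _ →ₐ[k] K) P :=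
    ⟨Ideal.Quotient.liftₐ _ (evm (cj g h (genX n k K))) hvan, fun P => rfl⟩
  have hinj : Function.Injective ψ := by
    rw [injective_iff_map_eq_zero]
    intro r hr
    obtain ⟨P, rfl⟩ := Ideal.Quotient.mk_surjective r
    rw [hψ] at hr
    have h1 : (evm (genX n k K) : _ →ₐ[k] K)
        (evm (cj g h (Matrix.mvPolynomialX (Fin n) (Fin n) k)) P) = 0 := by
      rw [hom_evm, cj_map, evm_X_map]
      exact hr
    have h2 := hgen _ h1
    have h3 := evm_span (cj h g (genX n k K)) (by rw [cj_det h g hhg, hdet]) _ h2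
    rw [hom_evm, cj_map, evm_X_map, cj_cj g h hgh] at h3
    rw [Ideal.Quotient.eq_zero_iff_mem]
    exact hgen _ h3
  refine ⟨IsFractionRing.liftAlgHom (K := K) hinj, ?_⟩
  ext i j
  refine (IsFractionRing.lift_algebraMap (K := K) (g := (ψ : SLRing n k →+* K)) hinj
    (Ideal.Quotient.mk _ (MvPolynomial.X (i, j)))).trans ?_
  have h2 := hψ (MvPolynomial.X (i, j))
  have h3 : (evm (cj g h (genX n k K)) : _ →ₐ[k] K) (MvPolynomial.X (i, j)) =
      cj g h (genX n k K) i j := by simp [evm]
  rw [← h3]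
  exact h2

theorem nss (n : ℕ) (k K : Type*) [Field k] [IsAlgClosed k] [Field K] [Algebra k K]
    [Algebra (SLRing n k) K] [IsFractionRing (SLRing n k) K] [IsScalarTower k (SLRing n k) K]
    (P : MvPolynomial (Fin n × Fin n) k)
    (hP : ∀ g : Matrix.SpecialLinearGroup (Fin n) k, (evm (g : Matrix (Fin n) (Fin n) k) : _ →ₐ[k] k) P = 0) :
    (evm (genX n k K) : _ →ₐ[k] K) P = 0 := by
  obtain ⟨hgen, hdet⟩ := LF0 n k K
  have h1 : P ∈ MvPolynomial.vanishingIdeal k (MvPolynomial.zeroLocus k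
      (Ideal.span {(Matrix.mvPolynomialX (Fin n) (Fin n) k).det - 1})) := by
    rw [MvPolynomial.mem_vanishingIdeal_iff]
    intro x hx
    rw [MvPolynomial.mem_zeroLocus_iff] at hx
    have h2 := hx _ (Ideal.subset_span rfl)
    have h3 : (Matrix.of fun i j => x (i, j)).det = 1 := by
      have h4 : MvPolynomial.aeval x (Matrix.mvPolynomialX (Fin n) (Fin n) k).det =
          (Matrix.of fun i j => x (i, j)).det := by
        rw [AlgHom.map_det]
        congr 1
        ext i j
        simp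
      rw [map_sub, h4, map_one] at h2
      exact sub_eq_zero.mp h2
    exact hP ⟨Matrix.of fun i j => x (i, j), h3⟩
  rw [MvPolynomial.vanishingIdeal_zeroLocus_eq_radical] at h1
  obtain ⟨m, hm⟩ := h1
  have h5 := evm_span (genX n k K) hdet _ hm
  rw [map_pow] at h5
  exact IsReduced.eq_zero _ ⟨m, h5⟩

theorem AC1 (n : ℕ) (k K : Type*) [Field k] [IsAlgClosed k] [Field K] [Algebra k K]
    [Algebra (SLRing n k) K] [IsFractionRing (SLRing n k) K] [IsScalarTower k (SLRing n k) K]
    (F : Matrix (Fin n) (Fin n) K) (hF : IsEquivariantDominant n k K F) :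
    F * genX n k K = genX n k K * F := by
  obtain ⟨hgen, hdet⟩ := LF0 n k K
  haveI : IsDomain (SLRing n k) := (IsFractionRing.injective (SLRing n k) K).isDomain
    (algebraMap (SLRing n k) K)
  obtain ⟨b, hb⟩ := IsLocalization.exist_integer_multiples_of_finite
    (nonZeroDivisors (SLRing n k)) (fun ij : Fin n × Fin n => F ij.1 ij.2)
  choose a₀ ha₀ using hb
  obtain ⟨s, hs⟩ := Ideal.Quotient.mk_surjective (b : SLRing n k)
  choose a₁ ha₁ using fun ij => Ideal.Quotient.mk_surjective (a₀ ij)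
  obtain ⟨t, ht⟩ : ∃ t, t = (evm (genX n k K) : _ →ₐ[k] K) s := ⟨_, rfl⟩
  have htb : t = algebraMap (SLRing n k) K b := by rw [ht, evm_genX, hs]
  have ht0 : t ≠ 0 := by
    rw [htb]
    exact IsFractionRing.to_map_ne_zero_of_mem_nonZeroDivisors b.2
  obtain ⟨a, ha⟩ : ∃ a : Matrix (Fin n) (Fin n) (MvPolynomial (Fin n × Fin n) k),
    a = Matrix.of fun i j => a₁ (i, j) := ⟨_, rfl⟩
  have haF : a.map (evm (genX n k K) : _ →ₐ[k] K) = t • F := by
    ext i j
    rw [Matrix.map_apply, ha, Matrix.of_apply, evm_genX, ha₁, ha₀, Matrix.smul_apply, htb,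
      Algebra.smul_def]
    rfl
  obtain ⟨X, hX⟩ : ∃ X, X = Matrix.mvPolynomialX (Fin n) (Fin n) k := ⟨_, rfl⟩
  have hXev : ∀ (Z : Matrix (Fin n) (Fin n) K), X.map (evm Z : _ →ₐ[k] K) = Z := by
    intro Z
    rw [hX]
    exact evm_X_map Z
  have hXev' : ∀ (Z : Matrix (Fin n) (Fin n) k), X.map (evm Z : _ →ₐ[k] k) = Z := by
    intro Z
    rw [hX]
    exact evm_X_map Z
  have key : ∀ i j, ∀ g : Matrix.SpecialLinearGroup (Fin n) k,
      (evm (g : Matrix (Fin n) (Fin n) k) : _ →ₐ[k] k) (s * (X * a - a * X) i j) = 0 := by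
    intro i j g
    obtain ⟨G, hG⟩ : ∃ G, G = (g : Matrix (Fin n) (Fin n) k) := ⟨_, rfl⟩
    obtain ⟨H, hH⟩ : ∃ H, H = ((g⁻¹ : Matrix.SpecialLinearGroup (Fin n) k) :
      Matrix (Fin n) (Fin n) k) := ⟨_, rfl⟩
    have hGH : G * H = 1 := by
      rw [hG, hH, ← Matrix.SpecialLinearGroup.coe_mul, mul_inv_cancel,
        Matrix.SpecialLinearGroup.coe_one]
    have hHG : H * G = 1 := by
      rw [hG, hH, ← Matrix.SpecialLinearGroup.coe_mul, inv_mul_cancel,
        Matrix.SpecialLinearGroup.coe_one]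
    obtain ⟨c, hc⟩ := exists_conj n k K G H hGH hHG
    have hcF : F.map c = cj G H F := by
      have := hF.equivariant g c (by rw [hc, hG, hH]; rfl)
      rw [this, hG, hH]
      rfl
    have hct : ∀ P, (evm (genX n k K) : _ →ₐ[k] K) (evm (cj G H X) P) =
        c ((evm (genX n k K) : _ →ₐ[k] K) P) := by
      intro P
      rw [hom_evm, cj_map, hXev, hom_evm, hc]
    have h1 : ∀ i j, (evm (cj G H X) : _ →ₐ[k] _) s * (cj G H a) i j -
        s * (evm (cj G H X) : _ →ₐ[k] _) (a i j) ∈
        Ideal.span {(Matrix.mvPolynomialX (Fin n) (Fin n) k).det - 1} := by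
      intro i j
      apply hgen
      show (evm (genX n k K) : _ →ₐ[k] K) _ = 0
      rw [map_sub, map_mul, map_mul, hct, hct]
      have h2 : (evm (genX n k K) : _ →ₐ[k] K) (cj G H a i j) = (t • cj G H F) i j := by
        rw [← cj_smul, ← haF, ← cj_map]
        rfl
      have h3 : (evm (genX n k K) : _ →ₐ[k] K) (a i j) = (t • F) i j := by
        rw [← haF]; rfl
      have h4 : c (F i j) = cj G H F i j := by rw [← hcF]; rfl
      rw [h2, h3, Matrix.smul_apply, Matrix.smul_apply, smul_eq_mul, smul_eq_mul, map_mul, h4,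
        ← ht]
      ring
    have h5 : ∀ i j, (evm G : _ →ₐ[k] k) s * (G * a.map (evm G : _ →ₐ[k] k) * H) i j =
        (evm G : _ →ₐ[k] k) s * (a.map (evm G : _ →ₐ[k] k)) i j := by
      intro i j
      have h6 := evm_span G (by rw [hG]; exact g.2) _ (h1 i j)
      have h7 : cj G H G = G := by
        unfold cj
        simp only [Algebra.algebraMap_self, RingHom.coe_id, Matrix.map_id]
        rw [Matrix.mul_assoc, hGH, Matrix.mul_one]
      rw [map_sub, map_mul, map_mul, hom_evm, hom_evm, cj_map, hXev', h7] at h6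
      have h8 : (evm G : _ →ₐ[k] k) (cj G H a i j) = (G * a.map (evm G : _ →ₐ[k] k) * H) i j := by
        have : (evm G : _ →ₐ[k] k) (cj G H a i j) = ((cj G H a).map (evm G : _ →ₐ[k] k)) i j := rfl
        rw [this, cj_map]
        unfold cj
        simp only [Algebra.algebraMap_self, RingHom.coe_id, Matrix.map_id]
      rw [h8] at h6
      exact sub_eq_zero.mp h6
    have h9 : (evm G : _ →ₐ[k] k) s • (G * a.map (evm G : _ →ₐ[k] k) * H) =
        (evm G : _ →ₐ[k] k) s • (a.map (evm G : _ →ₐ[k] k)) := by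
      ext i j
      exact h5 i j
    have h10 := congrArg (fun M => M * G) h9
    simp only [Matrix.smul_mul] at h10
    rw [Matrix.mul_assoc _ H G, hHG, Matrix.mul_one] at h10
    have h11 : (evm G : _ →ₐ[k] k) (s * (X * a - a * X) i j) =
        (evm G : _ →ₐ[k] k) s * ((X * a - a * X).map (evm G : _ →ₐ[k] k)) i j := by
      rw [map_mul]; rfl
    rw [← hG, h11, Matrix.map_sub _ (map_sub _), Matrix.map_mul, Matrix.map_mul, hXev',
      Matrix.sub_apply, mul_sub]
    have h12 := congrFun (congrFun h10 i) j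
    rw [Matrix.smul_apply, Matrix.smul_apply, smul_eq_mul, smul_eq_mul] at h12
    rw [h12, sub_self]
  have key2 : ∀ i j, (evm (genX n k K) : _ →ₐ[k] K) (s * (X * a - a * X) i j) = 0 := fun i j =>
    nss n k K _ (key i j)
  have key3 : ∀ i j, (genX n k K * F) i j = (F * genX n k K) i j := by
    intro i j
    have h1 := key2 i j
    have h2 : (evm (genX n k K) : _ →ₐ[k] K) (s * (X * a - a * X) i j) =
        t * ((X * a - a * X).map (evm (genX n k K) : _ →ₐ[k] K)) i j := by
      rw [map_mul, ht]; rfl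
    rw [h2, Matrix.map_sub _ (map_sub _), Matrix.map_mul, Matrix.map_mul, hXev, haF,
      Matrix.mul_smul, Matrix.smul_mul, Matrix.sub_apply, Matrix.smul_apply, Matrix.smul_apply,
      smul_eq_mul, smul_eq_mul, ← mul_sub] at h1
    have h3 := (mul_eq_zero.mp h1).resolve_left ht0
    have h4 := (mul_eq_zero.mp h3).resolve_left ht0
    exact sub_eq_zero.mp h4
  ext i j
  exact (key3 i j).symm

end NO

end Pool.Agent.Helper346.Cay
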