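import Pool.Agent.Helper346.Cay.Defs2

set_option autoImplicit false

open Polynomial

namespace Pool.Agent.Helper346.Cay

section NO


theorem princ {n : ℕ} {k : Type*} [Field k] {L : Type*} [Field L]
    [Algebra k L] {F : Matrix (Fin n) (Fin n) L} (hF : GenSL n k F)
    (Z1 : Matrix (Fin n) (Fin n) k) (hdet : Z1.det = 1) (Q : MvPolynomial (Fin n × Fin n) k)
    (hQ : MvPolynomial.aeval (fun ij : Fin n × Fin n => Z1 ij.1 ij.2) Q ≠ 0) :
    MvPolynomial.aeval (fun ij : Fin n × Fin n => F ij.1 ij.2) Q ≠ 0 := by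
  intro h
  have h1 := hF Q h
  rw [Ideal.mem_span_singleton] at h1
  obtain ⟨R, hR⟩ := h1
  apply hQ
  have h2 : MvPolynomial.aeval (fun ij : Fin n × Fin n => Z1 ij.1 ij.2)
      (Matrix.mvPolynomialX (Fin n) (Fin n) k).det = Z1.det := by
    rw [AlgHom.map_det, Matrix.mvPolynomialX_mapMatrix_aeval]
  rw [hR, map_mul, map_sub, map_one, h2, hdet, sub_self, zero_mul]

/-- Krylov matrix -/
noncomputable def Kr {S : Type*} [CommRing S] {n : ℕ} (Z : Matrix (Fin n) (Fin n) S) :
    Matrix (Fin n) (Fin n) S :=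
  Matrix.of fun i (j : Fin n) => ((Z ^ (j : ℕ)).mulVec (fun _ => 1)) i

theorem Kr_map {S T : Type*} [CommRing S] [CommRing T] {n : ℕ} (f : S →+* T)
    (Z : Matrix (Fin n) (Fin n) S) : (Kr Z).map f = Kr (Z.map f) := by
  ext i j
  simp only [Kr, Matrix.map_apply, Matrix.of_apply]
  rw [RingHom.map_mulVec]
  have h1 : (Z ^ (j : ℕ)).map f = (Z.map f) ^ (j : ℕ) := by
    have := map_pow f.mapMatrix Z (j : ℕ)
    exact this
  rw [h1]
  congr 2
  funext _
  simp

theorem Kr_diag {S : Type*} [CommRing S] {n : ℕ} (d : Fin n → S) :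
    Kr (Matrix.diagonal d) = Matrix.vandermonde d := by
  ext i j
  simp only [Kr, Matrix.of_apply, Matrix.vandermonde_apply]
  rw [Matrix.diagonal_pow, Matrix.mulVec_diagonal]
  simp

theorem cyc_of_Kr {L : Type*} [Field L] {n : ℕ} (F : Matrix (Fin n) (Fin n) L)
    (h : (Kr F).det ≠ 0) : Cyc F (fun _ => 1) := by
  intro i
  have hu : IsUnit (Kr F).det := isUnit_iff_ne_zero.2 h
  obtain ⟨w, hw⟩ : ∃ w : Fin n → L, w = (Kr F)⁻¹.mulVec (Pi.single i 1) := ⟨_, rfl⟩
  have hw2 : (Kr F).mulVec w = Pi.single i 1 := by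
    rw [hw, Matrix.mulVec_mulVec, Matrix.mul_nonsing_inv _ hu, Matrix.one_mulVec]
  refine ⟨∑ j : Fin n, C (w j) * X ^ (j : ℕ), ?_⟩
  rw [← hw2]
  funext i'
  rw [map_sum]
  simp only [map_mul, map_pow, aeval_C, aeval_X]
  have h1 : (∑ j : Fin n, (algebraMap L (Matrix (Fin n) (Fin n) L)) (w j) * F ^ (j : ℕ)).mulVec
      (fun _ => 1) = ∑ j : Fin n, w j • ((F ^ (j : ℕ)).mulVec (fun _ => 1)) := by
    rw [Matrix.sum_mulVec]
    refine Finset.sum_congr rfl fun j _ => ?_
    rw [← Algebra.smul_def, Matrix.smul_mulVec]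
  rw [h1]
  simp only [Matrix.mulVec, dotProduct, Kr, Matrix.of_apply, Finset.sum_apply, Pi.smul_apply,
    smul_eq_mul]
  refine Finset.sum_congr rfl fun j _ => ?_
  ring

theorem two_pow_inj (k : Type*) [Field k] [CharZero k] {a b : ℕ} (h : (2:k) ^ a = 2 ^ b) :
    a = b := by
  have h1 : ((2 ^ a : ℕ) : k) = ((2 ^ b : ℕ) : k) := by push_cast; exact h
  have h2 := Nat.cast_injective h1
  exact Nat.pow_right_injective le_rfl h2

/-- the test matrix -/
theorem exists_test (n : ℕ) (hn : 3 ≤ n) (k : Type*) [Field k] [CharZero k] :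
    ∃ d : Fin n → k, Function.Injective d ∧ ∏ i, d i = 1 := by
  obtain ⟨m, rfl⟩ : ∃ m, n = m + 1 := ⟨n - 1, by omega⟩
  obtain ⟨s, hs⟩ : ∃ s : ℕ, s = ∑ j ∈ Finset.range m, j := ⟨_, rfl⟩
  have hs1 : 1 ≤ s := by
    rw [hs]
    exact Finset.single_le_sum (f := fun j => j) (fun _ _ => Nat.zero_le _)
      (Finset.mem_range.2 (show 1 < m by omega))
  have h2 : (2:k) ≠ 0 := two_ne_zero
  refine ⟨Fin.lastCases ((2:k) ^ s)⁻¹ (fun i => 2 ^ (i : ℕ)), ?_, ?_⟩
  · have key : ∀ i : Fin m, (2:k) ^ (i : ℕ) ≠ ((2:k) ^ s)⁻¹ := by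
      intro i h
      have h3 : (2:k) ^ ((i : ℕ) + s) = 2 ^ 0 := by
        rw [pow_add, h, pow_zero]
        exact inv_mul_cancel₀ (pow_ne_zero _ h2)
      have := two_pow_inj k h3
      omega
    intro a b
    refine Fin.lastCases ?_ (fun a => ?_) a <;> refine Fin.lastCases ?_ (fun b => ?_) b
    · intro _; rfl
    · intro h
      simp only [Fin.lastCases_last, Fin.lastCases_castSucc] at h
      exact absurd h.symm (key b)
    · intro h
      simp only [Fin.lastCases_last, Fin.lastCases_castSucc] at h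
      exact absurd h (key a)
    · intro h
      simp only [Fin.lastCases_castSucc] at h
      have := two_pow_inj k h
      exact congrArg _ (Fin.ext this)
  · rw [Fin.prod_univ_castSucc]
    simp only [Fin.lastCases_last, Fin.lastCases_castSucc]
    rw [Finset.prod_pow_eq_pow_sum, Fin.sum_univ_eq_sum_range (fun j => j) m, ← hs]
    exact mul_inv_cancel₀ (pow_ne_zero _ h2)

theorem res_map {R S : Type*} [CommRing R] [CommRing S] {n : ℕ} (G : Matrix (Fin n) (Fin n) R)
    (φ : R →+* S) (Z : Matrix (Fin n) (Fin n) S) (hZ : G.map φ = Z) :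
    φ (Polynomial.resultant G.charpoly (derivative G.charpoly) n (n - 1)) =
    Polynomial.resultant Z.charpoly (derivative Z.charpoly) n (n - 1) := by
  rw [← Polynomial.resultant_map_map, ← hZ, Matrix.charpoly_map, Polynomial.derivative_map]

theorem AC3 (n : ℕ) (hn : 3 ≤ n) (k : Type*) [Field k] [CharZero k] {L : Type*} [Field L]
    [Algebra k L] (F : Matrix (Fin n) (Fin n) L) (hF : GenSL n k F) :
    (∃ u : Fin n → L, Cyc F u) ∧ F.charpoly.Separable := by
  obtain ⟨d, hd, hd1⟩ := exists_test n hn k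
  obtain ⟨Z1, hZ1⟩ : ∃ Z1 : Matrix (Fin n) (Fin n) k, Z1 = Matrix.diagonal d := ⟨_, rfl⟩
  have hdet : Z1.det = 1 := by rw [hZ1, Matrix.det_diagonal, hd1]
  have hXL : (Matrix.mvPolynomialX (Fin n) (Fin n) k).map
        (MvPolynomial.aeval (fun ij : Fin n × Fin n => F ij.1 ij.2) : _ →ₐ[k] L).toRingHom = F :=
    Matrix.mvPolynomialX_mapMatrix_aeval k F
  have hXk : (Matrix.mvPolynomialX (Fin n) (Fin n) k).map
        (MvPolynomial.aeval (fun ij : Fin n × Fin n => Z1 ij.1 ij.2) : _ →ₐ[k] k).toRingHom = Z1 :=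
    Matrix.mvPolynomialX_mapMatrix_aeval k Z1
  constructor
  · refine ⟨fun _ => 1, cyc_of_Kr F ?_⟩
    have h1 := princ hF Z1 hdet (Kr (Matrix.mvPolynomialX (Fin n) (Fin n) k)).det ?_
    · have h2 : MvPolynomial.aeval (fun ij : Fin n × Fin n => F ij.1 ij.2)
          (Kr (Matrix.mvPolynomialX (Fin n) (Fin n) k)).det = (Kr F).det := by
        have h3 := RingHom.map_det
          (MvPolynomial.aeval (fun ij : Fin n × Fin n => F ij.1 ij.2) : _ →ₐ[k] L).toRingHom
          (Kr (Matrix.mvPolynomialX (Fin n) (Fin n) k))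
        rw [RingHom.mapMatrix_apply, Kr_map, hXL] at h3
        exact h3
      rw [h2] at h1
      exact h1
    · have h2 : MvPolynomial.aeval (fun ij : Fin n × Fin n => Z1 ij.1 ij.2)
          (Kr (Matrix.mvPolynomialX (Fin n) (Fin n) k)).det = (Kr Z1).det := by
        have h3 := RingHom.map_det
          (MvPolynomial.aeval (fun ij : Fin n × Fin n => Z1 ij.1 ij.2) : _ →ₐ[k] k).toRingHom
          (Kr (Matrix.mvPolynomialX (Fin n) (Fin n) k))
        rw [RingHom.mapMatrix_apply, Kr_map, hXk] at h3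
        exact h3
      rw [h2, hZ1, Kr_diag, Matrix.det_vandermonde_ne_zero_iff]
      exact hd
  · obtain ⟨G, hG⟩ : ∃ G : Matrix (Fin n) (Fin n) (MvPolynomial (Fin n × Fin n) k),
      G = Matrix.mvPolynomialX (Fin n) (Fin n) k := ⟨_, rfl⟩
    have h1 := princ hF Z1 hdet
      (Polynomial.resultant G.charpoly (derivative G.charpoly) n (n - 1)) ?_
    · have hGL : G.map
          (MvPolynomial.aeval (fun ij : Fin n × Fin n => F ij.1 ij.2) : _ →ₐ[k] L).toRingHom = F := by
        rw [hG, hXL]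
      have h2 := res_map G _ F hGL
      have h3 : Polynomial.resultant F.charpoly (derivative F.charpoly) n (n - 1) ≠ 0 := by
        rw [← h2]; exact h1
      have hdF : F.charpoly.natDegree = n := by
        rw [Matrix.charpoly_natDegree_eq_dim, Fintype.card_fin]
      obtain ⟨p, q, _, _, hpq⟩ := Polynomial.exists_mul_add_mul_eq_C_resultant (m := n) (n := n - 1)
        F.charpoly (derivative F.charpoly) hdF.le
        ((Polynomial.natDegree_derivative_le _).trans (by rw [hdF])) (Or.inl (by omega))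
      refine ⟨C (Polynomial.resultant F.charpoly (derivative F.charpoly) n (n - 1))⁻¹ * p,
        C (Polynomial.resultant F.charpoly (derivative F.charpoly) n (n - 1))⁻¹ * q, ?_⟩
      have h4 : C (Polynomial.resultant F.charpoly (derivative F.charpoly) n (n - 1))⁻¹ * p *
          F.charpoly +
          C (Polynomial.resultant F.charpoly (derivative F.charpoly) n (n - 1))⁻¹ * q *
          (derivative F.charpoly) =
          C (Polynomial.resultant F.charpoly (derivative F.charpoly) n (n - 1))⁻¹ *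
          (F.charpoly * p + derivative F.charpoly * q) := by ring
      rw [h4, hpq, ← C_mul, inv_mul_cancel₀ h3, C_1]
    · have hGk : G.map
          (MvPolynomial.aeval (fun ij : Fin n × Fin n => Z1 ij.1 ij.2) : _ →ₐ[k] k).toRingHom = Z1 := by
        rw [hG, hXk]
      have h2 := res_map G _ Z1 hGk
      have hsep : Z1.charpoly.Separable := by
        rw [hZ1, Matrix.charpoly_diagonal]
        exact Polynomial.separable_prod_X_sub_C_iff.2 hd
      have h3 := Polynomial.resultant_ne_zero Z1.charpoly (derivative Z1.charpoly) hsep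
      have hdZ : Z1.charpoly.natDegree = n := by
        rw [Matrix.charpoly_natDegree_eq_dim, Fintype.card_fin]
      have hdZ' : (derivative Z1.charpoly).natDegree = n - 1 := by
        have h5 := Polynomial.degree_derivative_eq Z1.charpoly (by rw [hdZ]; omega)
        rw [hdZ] at h5
        exact Polynomial.natDegree_eq_of_degree_eq_some h5
      rw [hdZ, hdZ'] at h3
      intro h6
      apply h3
      rw [← h2]
      exact h6

end NO

end Pool.Agent.Helper346.Cay
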