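import Pool.Agent.Helper346.Cay.Defs2
import Pool.Agent.Helper346.Cay.JE

set_option autoImplicit false

open Polynomial

namespace Pool.Agent.Helper346.Cay

section NO


theorem RU {k E : Type*} [Field k] [Field E] [Algebra k E] (v : AbsoluteValue E ℝ)
    (na : IsNonarchimedean v) (kv : ∀ c : k, c ≠ 0 → v (algebraMap k E c) = 1) (s : ℝ)
    (P : (Et E)[X]) (S S' : Set k) (h : Red (GV v na s) P S) (h' : Red (GV v na s) P S') :
    S = S' := by
  obtain ⟨Q, _, hQS, hQ⟩ := h
  obtain ⟨Q', _, hQS', hQ'⟩ := h'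
  have : Q = Q' := by
    ext i
    by_contra hne
    have hne' : Q.coeff i - Q'.coeff i ≠ 0 := sub_ne_zero.2 hne
    have h1 : GV v na s (ck k E (Q.coeff i) - ck k E (Q'.coeff i)) < 1 := by
      have e : ck k E (Q.coeff i) - ck k E (Q'.coeff i) =
          (P.coeff i - ck k E (Q'.coeff i)) - (P.coeff i - ck k E (Q.coeff i)) := by ring
      rw [e]
      exact (Valuation.map_sub (GV v na s) _ _).trans_lt (max_lt (hQ' i) (hQ i))
    have h2 : (GV v na s (ck k E (Q.coeff i) - ck k E (Q'.coeff i)) : ℝ) = 1 := by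
      have e : ck k E (Q.coeff i) - ck k E (Q'.coeff i) =
          cE E (algebraMap k E (Q.coeff i - Q'.coeff i)) := by
        rw [map_sub, map_sub]; rfl
      rw [e, VT6, kv _ hne']
    have h3 : (GV v na s (ck k E (Q.coeff i) - ck k E (Q'.coeff i)) : ℝ) < 1 := by
      exact_mod_cast h1
    linarith
  rw [← hQS, ← hQS', this]

theorem RU' {k E : Type*} [Field k] [Field E] [Algebra k E] (v : AbsoluteValue E ℝ)
    (na : IsNonarchimedean v) (kv : ∀ c : k, c ≠ 0 → v (algebraMap k E c) = 1)
    (P : E[X]) (S S' : Set k) (h : RedE v P S) (h' : RedE v P S') : S = S' := by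
  obtain ⟨Q, _, hQS, hQ⟩ := h
  obtain ⟨Q', _, hQS', hQ'⟩ := h'
  have : Q = Q' := by
    ext i
    by_contra hne
    have hne' : Q.coeff i - Q'.coeff i ≠ 0 := sub_ne_zero.2 hne
    have h1 : v (algebraMap k E (Q.coeff i) - algebraMap k E (Q'.coeff i)) < 1 := by
      have e : algebraMap k E (Q.coeff i) - algebraMap k E (Q'.coeff i) =
          (P.coeff i - algebraMap k E (Q'.coeff i)) + -(P.coeff i - algebraMap k E (Q.coeff i)) := by
        ring
      rw [e]
      refine (na _ _).trans_lt (max_lt (hQ' i) ?_)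
      rw [AbsoluteValue.map_neg]
      exact hQ i
    rw [← map_sub, kv _ hne'] at h1
    exact lt_irrefl _ h1
  rw [← hQS, ← hQS', this]

end NO

end Pool.Agent.Helper346.Cay
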