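import Pool.Agent.Helper346.Cay.Defs2
import Pool.Agent.Helper346.Cay.JE
import Pool.Agent.Helper346.Cay.JG
import Pool.Agent.Helper346.Cay.KQ

set_option autoImplicit false

open Polynomial

namespace Pool.Agent.Helper346.Cay

section NO


theorem red_eventually {k E : Type*} [Field k] [Field E] [Algebra k E] (v : AbsoluteValue E ℝ)
    (na : IsNonarchimedean v) (s₀ : ℝ) (P : (Et E)[X]) (S : Set k)
    (h : Red (GV v na s₀) P S) : ∀ᶠ s in nhds s₀, Red (GV v na s) P S := by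
  obtain ⟨Q, hQm, hQr, hQc⟩ := h
  have key : ∀ᶠ s in nhds s₀, ∀ i ∈ Finset.range (max P.natDegree Q.natDegree + 1),
      GV v na s (P.coeff i - ck k E (Q.coeff i)) < 1 := by
    rw [Filter.eventually_all_finset]
    intro i _
    exact (VT3 v na (P.coeff i - ck k E (Q.coeff i))).mem_nhds (hQc i)
  filter_upwards [key] with s hs
  refine ⟨Q, hQm, hQr, ?_⟩
  intro i
  by_cases hi : i ∈ Finset.range (max P.natDegree Q.natDegree + 1)
  · exact hs i hi
  · rw [Finset.mem_range, not_lt] at hi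
    have h1 : P.natDegree < i := by
      have := le_max_left P.natDegree Q.natDegree
      omega
    have h2 : Q.natDegree < i := by
      have := le_max_right P.natDegree Q.natDegree
      omega
    rw [Polynomial.coeff_eq_zero_of_natDegree_lt h1, Polynomial.coeff_eq_zero_of_natDegree_lt h2,
      map_zero, sub_zero, map_zero]
    exact zero_lt_one

theorem dot_cases {p : ℕ} (χ χ' : V p) (hχ : χ ≠ 0) (hχ' : χ' ≠ 0) :
    (dot χ (1, 0) ≠ 0 ∧ dot χ' (1, 0) ≠ 0) ∨ (dot χ (0, 1) ≠ 0 ∧ dot χ' (0, 1) ≠ 0) ∨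
      (dot χ (1, 1) ≠ 0 ∧ dot χ' (1, 1) ≠ 0) := by
  have h1 : ¬ (χ.1 = 0 ∧ χ.2 = 0) := fun h => hχ (Prod.ext h.1 h.2)
  have h2 : ¬ (χ'.1 = 0 ∧ χ'.2 = 0) := fun h => hχ' (Prod.ext h.1 h.2)
  have e : ∀ y : V p, dot y (1, 0) = y.1 ∧ dot y (0, 1) = y.2 ∧ dot y (1, 1) = y.1 + y.2 := by
    intro y
    simp [dot]
  obtain ⟨e1, e2, e3⟩ := e χ
  obtain ⟨e1', e2', e3'⟩ := e χ'
  rw [e1, e2, e3, e1', e2', e3']
  by_cases a : χ.1 = 0
  · have b : χ.2 ≠ 0 := fun b => h1 ⟨a, b⟩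
    rw [a, zero_add]
    by_cases b' : χ'.2 = 0
    · right; right
      refine ⟨b, ?_⟩
      rw [b', add_zero]
      exact fun a' => h2 ⟨a', b'⟩
    · right; left
      exact ⟨b, b'⟩
  · by_cases a' : χ'.1 = 0
    · have b' : χ'.2 ≠ 0 := fun b => h2 ⟨a', b⟩
      rw [a', zero_add]
      by_cases b : χ.2 = 0
      · right; right
        rw [b, add_zero]
        exact ⟨a, b'⟩
      · right; left
        exact ⟨b, b'⟩
    · left
      exact ⟨a, a'⟩

theorem PA {k E : Type*} [Field k] [Field E] [Algebra k E] (v : AbsoluteValue E ℝ)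
    (na : IsNonarchimedean v) (kv : ∀ c : k, c ≠ 0 → v (algebraMap k E c) = 1)
    (p : ℕ) [Fact p.Prime] (chi : ℝ → V p) (hchi : ∀ s, chi s ≠ 0) (P : V p → (Et E)[X])
    (H : ∀ s, ∃ S : Set k, ∀ h, dot (chi s) h ≠ 0 → Red (GV v na s) (P h) S) :
    ∃ S : Set k, ∀ s h, dot (chi s) h ≠ 0 → Red (GV v na s) (P h) S := by
  choose S hS using H
  have hloc : ∀ s₀, ∀ᶠ s in nhds s₀, S s = S s₀ := by
    intro s₀
    have hev : ∀ h : V p, ∀ᶠ s in nhds s₀, dot (chi s₀) h ≠ 0 → Red (GV v na s) (P h) (S s₀) := by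
      intro h
      by_cases hd : dot (chi s₀) h = 0
      · exact Filter.Eventually.of_forall (fun s hs => absurd hd hs)
      · filter_upwards [red_eventually v na s₀ (P h) (S s₀) (hS s₀ h hd)] with s hs _
        exact hs
    filter_upwards [hev (1, 0), hev (0, 1), hev (1, 1)] with s h1 h2 h3
    rcases dot_cases (chi s₀) (chi s) (hchi s₀) (hchi s) with h | h | h
    · exact RU v na kv s (P (1, 0)) _ _ (hS s _ h.2) (h1 h.1)
    · exact RU v na kv s (P (0, 1)) _ _ (hS s _ h.2) (h2 h.1)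
    · exact RU v na kv s (P (1, 1)) _ _ (hS s _ h.2) (h3 h.1)
  have hlc : IsLocallyConstant S := (IsLocallyConstant.iff_eventually_eq S).mpr hloc
  refine ⟨S 0, ?_⟩
  intro s h hd
  rw [hlc.apply_eq_of_preconnectedSpace 0 s]
  exact hS s h hd

end NO

end Pool.Agent.Helper346.Cay
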