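import Pool.Agent.Helper346.Cay.Defs2

set_option autoImplicit false

open Polynomial

namespace Pool.Agent.Helper346.Cay

section NO


/-- the index group `p (ℤ + √2 ℤ)` -/
noncomputable def mdΔ (p : ℕ) : AddSubgroup ℝ :=
  AddSubgroup.closure {(p : ℝ), (p : ℝ) * Real.sqrt 2}

theorem md_mem (p : ℕ) (z : ℝ) : z ∈ mdΔ p ↔ ∃ a b : ℤ, (p : ℝ) * (a + b * Real.sqrt 2) = z := by
  unfold mdΔ
  rw [AddSubgroup.mem_closure_pair]
  constructor
  · rintro ⟨m, n, h⟩
    refine ⟨m, n, ?_⟩
    rw [← h, zsmul_eq_mul, zsmul_eq_mul]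
    ring
  · rintro ⟨m, n, h⟩
    refine ⟨m, n, ?_⟩
    rw [← h, zsmul_eq_mul, zsmul_eq_mul]
    ring

noncomputable def mdHom (p : ℕ) (L : Type*) [Field L] :
    HahnSeries (mdΔ p) L →+* HahnSeries ℝ L :=
  HahnSeries.embDomainRingHom (mdΔ p).subtype Subtype.val_injective (fun _ _ => Iff.rfl)

theorem mdHom_single (p : ℕ) (L : Type*) [Field L] (g : mdΔ p) (c : L) :
    mdHom p L (HahnSeries.single g c) = HahnSeries.single (g : ℝ) c := by
  show HahnSeries.embDomain _ (HahnSeries.single g c) = _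
  rw [HahnSeries.embDomain_single]
  rfl

theorem md_alg (k L : Type*) [Field k] [Field L] [Algebra k L] (c : k) :
    algebraMap k (HahnSeries ℝ L) c = HahnSeries.C (algebraMap k L c) := by
  rw [HahnSeries.algebraMap_apply', PowerSeries.algebraMap_apply, HahnSeries.ofPowerSeries_C]

theorem mdHom_coeff (p : ℕ) (L : Type*) [Field L] (z : HahnSeries (mdΔ p) L) (x : ℝ)
    (hx : x ∉ mdΔ p) : (mdHom p L z).coeff x = 0 := by
  show (HahnSeries.embDomain _ z).coeff x = 0
  apply HahnSeries.embDomain_of_notMem_range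
  rintro ⟨g, hg⟩
  apply hx
  rw [← hg]
  exact g.2

open Classical in
noncomputable def mdV (L : Type*) [Field L] : AbsoluteValue (HahnSeries ℝ L) ℝ where
  toFun z := if z = 0 then 0 else Real.exp (-(z.order))
  map_mul' x y := by
    by_cases hx : x = 0
    · simp [hx]
    by_cases hy : y = 0
    · simp [hy]
    rw [if_neg hx, if_neg hy, if_neg (mul_ne_zero hx hy), HahnSeries.order_mul hx hy, neg_add,
      Real.exp_add]
  nonneg' x := by
    split_ifs
    · exact le_rfl
    · exact (Real.exp_pos _).le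
  eq_zero' x := by
    constructor
    · intro h
      by_contra hx
      rw [if_neg hx] at h
      exact (Real.exp_pos _).ne' h
    · intro h
      rw [if_pos h]
  add_le' x y := by
    by_cases hx : x = 0
    · simp [hx]
    by_cases hy : y = 0
    · simp [hy]
    by_cases hxy : x + y = 0
    · rw [if_pos hxy, if_neg hx, if_neg hy]
      positivity
    rw [if_neg hx, if_neg hy, if_neg hxy]
    have h := HahnSeries.min_order_le_order_add hxy
    rcases min_le_iff.mp h with h | h
    · have : Real.exp (-(x + y).order) ≤ Real.exp (-x.order) := Real.exp_le_exp.mpr (by linarith)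
      have h2 := Real.exp_pos (-y.order)
      linarith
    · have : Real.exp (-(x + y).order) ≤ Real.exp (-y.order) := Real.exp_le_exp.mpr (by linarith)
      have h2 := Real.exp_pos (-x.order)
      linarith

open Classical in
theorem mdV_ne (L : Type*) [Field L] (z : HahnSeries ℝ L) (hz : z ≠ 0) :
    mdV L z = Real.exp (-(z.order)) := by
  show (if z = 0 then (0 : ℝ) else Real.exp (-(z.order))) = _
  rw [if_neg hz]

theorem mdV_na (L : Type*) [Field L] : IsNonarchimedean (mdV L) := by
  intro x y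
  by_cases hx : x = 0
  · rw [hx, zero_add]
    exact le_max_right _ _
  by_cases hy : y = 0
  · rw [hy, add_zero]
    exact le_max_left _ _
  by_cases hxy : x + y = 0
  · rw [hxy, map_zero]
    exact le_max_of_le_left ((mdV L).nonneg _)
  rw [mdV_ne L _ hx, mdV_ne L _ hy, mdV_ne L _ hxy]
  have h := HahnSeries.min_order_le_order_add hxy
  rcases min_le_iff.mp h with h | h
  · exact le_max_of_le_left (Real.exp_le_exp.mpr (by linarith))
  · exact le_max_of_le_right (Real.exp_le_exp.mpr (by linarith))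

theorem md_single_mem (p : ℕ) (L : Type*) [Field L] (g : ℝ) (hg : g ∈ mdΔ p) (c : L) :
    HahnSeries.single g c ∈ (mdHom p L).fieldRange := by
  rw [RingHom.mem_fieldRange]
  exact ⟨HahnSeries.single ⟨g, hg⟩ c, mdHom_single p L ⟨g, hg⟩ c⟩

theorem md_single_ne (L : Type*) [Field L] (g : ℝ) (c : L) (hc : c ≠ 0) :
    (HahnSeries.single g c : HahnSeries ℝ L) ≠ 0 := by
  intro h
  apply hc
  have := congrArg (fun z : HahnSeries ℝ L => z.coeff g) h
  simpa using this

noncomputable def mdDat (p : ℕ) (k L : Type*) [Field k] [Field L] [Algebra k L] :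
    Dat p k (HahnSeries ℝ L) where
  v := mdV L
  na := mdV_na L
  K1 := (mdHom p L).fieldRange
  kK c := by
    rw [md_alg]
    exact md_single_mem p L 0 (mdΔ p).zero_mem _
  kv c hc := by
    rw [md_alg]
    have h1 : algebraMap k L c ≠ 0 := by
      rw [Ne, map_eq_zero]; exact hc
    have h2 : (HahnSeries.C (algebraMap k L c) : HahnSeries ℝ L) ≠ 0 := md_single_ne L 0 _ h1
    rw [mdV_ne L _ h2, HahnSeries.order_C]
    simp
  val z hz hz0 := by
    rw [RingHom.mem_fieldRange] at hz
    obtain ⟨g, hg⟩ := hz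
    have h1 : z.order ∈ mdΔ p := by
      by_contra hcon
      have h2 := mdHom_coeff p L g z.order hcon
      rw [hg] at h2
      exact hz0 (HahnSeries.coeff_order_eq_zero.mp h2)
    rw [md_mem] at h1
    obtain ⟨a, b, hab⟩ := h1
    exact ⟨a, b, by rw [mdV_ne L z hz0, hab]⟩
  α := HahnSeries.single 1 1
  β := HahnSeries.single (Real.sqrt 2) 1
  hα := by
    rw [mdV_ne L _ (md_single_ne L _ _ one_ne_zero), HahnSeries.order_single one_ne_zero]
  hβ := by
    rw [mdV_ne L _ (md_single_ne L _ _ one_ne_zero), HahnSeries.order_single one_ne_zero]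
  hαK := by
    rw [HahnSeries.single_pow, one_pow]
    apply md_single_mem
    rw [md_mem]
    exact ⟨1, 0, by push_cast; simp⟩
  hβK := by
    rw [HahnSeries.single_pow, one_pow]
    apply md_single_mem
    rw [md_mem]
    exact ⟨0, 1, by push_cast; simp⟩

theorem md_inj (p : ℕ) (hp : 0 < p) (d d' : Fin 2 →₀ ℕ)
    (h : (d 0 : ℝ) * p + (d 1 : ℝ) * (p * Real.sqrt 2) = (d' 0 : ℝ) * p + (d' 1 : ℝ) * (p * Real.sqrt 2)) :
    d = d' := by
  have hp' : (0 : ℝ) < p := by exact_mod_cast hp
  have h1 : ((d 0 : ℝ) - d' 0) = ((d' 1 : ℝ) - d 1) * Real.sqrt 2 := by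
    have : (p : ℝ) * (((d 0 : ℝ) - d' 0)) = p * (((d' 1 : ℝ) - d 1) * Real.sqrt 2) := by linarith
    exact mul_left_cancel₀ hp'.ne' this
  have h2 : (d' 1 : ℤ) - d 1 = 0 := by
    by_contra hcon
    have hcon' : ((d' 1 : ℝ) - d 1) ≠ 0 := by
      intro h3
      apply hcon
      have : (((d' 1 : ℤ) - d 1 : ℤ) : ℝ) = 0 := by push_cast; exact h3
      exact_mod_cast this
    apply irrational_sqrt_two
    refine ⟨((d 0 : ℚ) - d' 0) / ((d' 1 : ℚ) - d 1), ?_⟩
    push_cast
    rw [h1]
    field_simp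
  have h3 : (d' 1 : ℝ) - d 1 = 0 := by
    have : (((d' 1 : ℤ) - d 1 : ℤ) : ℝ) = 0 := by rw [h2]; simp
    push_cast at this
    exact this
  rw [h3, zero_mul] at h1
  ext i
  fin_cases i
  · have : (d 0 : ℝ) = d' 0 := by linarith
    exact_mod_cast this
  · have : (d 1 : ℝ) = d' 1 := by linarith
    exact_mod_cast this

theorem md_aeval (p : ℕ) (L : Type*) [Field L] (f : MvPolynomial (Fin 2) L) :
    MvPolynomial.aeval ![(HahnSeries.single 1 1 : HahnSeries ℝ L) ^ p,
      (HahnSeries.single (Real.sqrt 2) 1 : HahnSeries ℝ L) ^ p] f =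
    ∑ d ∈ f.support, HahnSeries.single ((d 0 : ℝ) * p + (d 1 : ℝ) * (p * Real.sqrt 2)) (f.coeff d) := by
  rw [MvPolynomial.aeval_def, MvPolynomial.eval₂_eq']
  apply Finset.sum_congr rfl
  intro d hd
  rw [Fin.prod_univ_two]
  simp only [Matrix.cons_val_zero, Matrix.cons_val_one]
  rw [md_alg, HahnSeries.single_pow, HahnSeries.single_pow,
    HahnSeries.single_pow, HahnSeries.single_pow, HahnSeries.single_mul_single, HahnSeries.C_mul_eq_smul]
  ext x
  simp [HahnSeries.coeff_single]



theorem MD1 (p : ℕ) [Fact p.Prime] (k L : Type*) [Field k] [Field L] [Algebra k L] :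
    ∃ D : Dat p k (HahnSeries ℝ L), (∀ c : L, algebraMap L (HahnSeries ℝ L) c ∈ D.K1) ∧
      AlgebraicIndependent L ![D.α ^ p, D.β ^ p] := by
  refine ⟨mdDat p k L, ?_, ?_⟩
  · intro c
    show algebraMap L (HahnSeries ℝ L) c ∈ (mdHom p L).fieldRange
    rw [md_alg]
    exact md_single_mem p L 0 (mdΔ p).zero_mem _
  · have hp : 0 < p := (Fact.out : p.Prime).pos
    rw [algebraicIndependent_iff]
    intro f hf
    have hf' : MvPolynomial.aeval ![(HahnSeries.single 1 1 : HahnSeries ℝ L) ^ p,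
      (HahnSeries.single (Real.sqrt 2) 1 : HahnSeries ℝ L) ^ p] f = 0 := hf
    rw [md_aeval] at hf'
    ext d
    rw [MvPolynomial.coeff_zero]
    have h1 := congrArg (fun z : HahnSeries ℝ L => z.coeff ((d 0 : ℝ) * p + (d 1 : ℝ) * (p * Real.sqrt 2))) hf'
    rw [HahnSeries.coeff_zero, HahnSeries.coeff_sum, Finset.sum_eq_single d] at h1
    · simpa using h1
    · intro d' _ hne
      rw [HahnSeries.coeff_single_of_ne]
      intro h
      exact hne (md_inj p hp _ _ h).symm
    · intro hd
      rw [MvPolynomial.notMem_support_iff.mp hd]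
      simp

end NO

end Pool.Agent.Helper346.Cay
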