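import Pool.Agent.Helper346.Cay.Defs2
import Pool.Agent.Helper346.Cay.KR

set_option autoImplicit false

open Polynomial

namespace Pool.Agent.Helper346.Cay

section NO


theorem LF1 (n : ℕ) (k K : Type*) [Field k] [Field K] [Algebra k K]
    [Algebra (SLRing n k) K] [IsFractionRing (SLRing n k) K] [IsScalarTower k (SLRing n k) K]
    {E : Type*} [Field E] [Algebra k E] (Z : Matrix (Fin n) (Fin n) E) (hdet : Z.det = 1)
    (hZ : GenSL n k Z) : ∃ ε : K →ₐ[k] E, (genX n k K).map ε = Z ∧
      ∀ S : Subfield E, (∀ c : k, algebraMap k E c ∈ S) → (∀ i j, Z i j ∈ S) → ∀ x, ε x ∈ S := by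
  have hkill : ∀ a ∈ Ideal.span {(Matrix.mvPolynomialX (Fin n) (Fin n) k).det - 1},
      (MvPolynomial.aeval (fun ij : Fin n × Fin n => Z ij.1 ij.2)) a = 0 := by
    intro a ha
    have h1 : Ideal.span {(Matrix.mvPolynomialX (Fin n) (Fin n) k).det - 1} ≤
        RingHom.ker (MvPolynomial.aeval (R := k) (fun ij : Fin n × Fin n => Z ij.1 ij.2)) := by
      rw [Ideal.span_le, Set.singleton_subset_iff]
      show (MvPolynomial.aeval (fun ij : Fin n × Fin n => Z ij.1 ij.2))
        ((Matrix.mvPolynomialX (Fin n) (Fin n) k).det - 1) = 0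
      rw [map_sub, AlgHom.map_det, Matrix.mvPolynomialX_mapMatrix_aeval, map_one, hdet, sub_self]
    exact h1 ha
  let f : SLRing n k →ₐ[k] E := Ideal.Quotient.liftₐ
    (Ideal.span {(Matrix.mvPolynomialX (Fin n) (Fin n) k).det - 1})
    (MvPolynomial.aeval (fun ij : Fin n × Fin n => Z ij.1 ij.2)) hkill
  have hfmk : ∀ P : MvPolynomial (Fin n × Fin n) k, f (Ideal.Quotient.mk _ P) =
      MvPolynomial.aeval (fun ij : Fin n × Fin n => Z ij.1 ij.2) P := fun P => rfl
  have hf : Function.Injective f := by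
    rw [injective_iff_map_eq_zero]
    intro a ha
    obtain ⟨P, rfl⟩ := Ideal.Quotient.mk_surjective a
    rw [hfmk] at ha
    exact Ideal.Quotient.eq_zero_iff_mem.2 (hZ P ha)
  let ε : K →ₐ[k] E := IsFractionRing.liftAlgHom hf
  have hε : ∀ a : SLRing n k, ε (algebraMap (SLRing n k) K a) = f a := by
    intro a
    show IsFractionRing.liftAlgHom hf (algebraMap (SLRing n k) K a) = f a
    rw [IsFractionRing.liftAlgHom_apply]
    exact IsFractionRing.lift_algebraMap (g := (f : SLRing n k →+* E)) hf a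
  refine ⟨ε, ?_, ?_⟩
  · ext i j
    rw [Matrix.map_apply]
    unfold genX
    rw [Matrix.of_apply, hε, hfmk, MvPolynomial.aeval_X]
  · intro S hc hZS x
    have hfS : ∀ a : SLRing n k, f a ∈ S := by
      intro a
      obtain ⟨P, rfl⟩ := Ideal.Quotient.mk_surjective a
      rw [hfmk]
      induction P using MvPolynomial.induction_on with
      | C c =>
        rw [MvPolynomial.aeval_C]
        exact hc c
      | add P Q hP hQ =>
        rw [map_add]
        exact S.add_mem hP hQ
      | mul_X P ij hP =>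
        rw [map_mul, MvPolynomial.aeval_X]
        exact S.mul_mem hP (hZS _ _)
    obtain ⟨a, b, -, rfl⟩ := IsFractionRing.div_surjective (SLRing n k) x
    rw [map_div₀, hε, hε]
    exact S.div_mem (hfS a) (hfS b)

end NO

end Pool.Agent.Helper346.Cay
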