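import Pool.Agent.Helper346.Cay.Defs2

set_option autoImplicit false

open Polynomial

namespace Pool.Agent.Helper346.Cay

section NO


theorem lf2_trace_aeval {n : ℕ} {k S : Type*} [Field k] [CommRing S] [Algebra k S]
    (Y : Matrix (Fin n) (Fin n) S) :
    MvPolynomial.aeval (fun ij : Fin n × Fin n => Y ij.1 ij.2)
      (Matrix.mvPolynomialX (Fin n) (Fin n) k).trace = Y.trace := by
  simp [Matrix.trace, Matrix.mvPolynomialX, map_sum]

theorem lf2_mem_aeval {n : ℕ} {k S : Type*} [Field k] [CommRing S] [Algebra k S]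
    (Y : Matrix (Fin n) (Fin n) S) (hY : Y.trace = 0) (P : MvPolynomial (Fin n × Fin n) k)
    (hP : P ∈ Ideal.span {(Matrix.mvPolynomialX (Fin n) (Fin n) k).trace}) :
    MvPolynomial.aeval (fun ij : Fin n × Fin n => Y ij.1 ij.2) P = 0 := by
  rw [Ideal.mem_span_singleton'] at hP
  obtain ⟨a, rfl⟩ := hP
  rw [map_mul, lf2_trace_aeval, hY, mul_zero]

theorem LF2 (n : ℕ) (k K : Type*) [Field k] [Field K] [Algebra k K]
    (F : Matrix (Fin n) (Fin n) K) (htr : F.trace = 0) (hF : GenTr n k F)
    {S : Type*} [CommRing S] [Algebra k S] (Y : Matrix (Fin n) (Fin n) S) (hY : Y.trace = 0)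
    (hunit : ∀ P : MvPolynomial (Fin n × Fin n) k,
      P ∉ Ideal.span {(Matrix.mvPolynomialX (Fin n) (Fin n) k).trace} →
      IsUnit (MvPolynomial.aeval (fun ij : Fin n × Fin n => Y ij.1 ij.2) P)) :
    ∃ φ : fieldOf n k K F →ₐ[k] S, (FY n k K F).map φ = Y := by
  classical
  open scoped IntermediateField.algebraAdjoinAdjoin in
  let T : Set K := Set.range fun ij : Fin n × Fin n => F ij.1 ij.2
  let A : Subalgebra k K := Algebra.adjoin k T
  let pF : MvPolynomial (Fin n × Fin n) k →ₐ[k] K :=
    MvPolynomial.aeval (fun ij : Fin n × Fin n => F ij.1 ij.2)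
  have hrange : pF.range = A := MvPolynomial.aeval_range _
  have hmem : ∀ P, pF P ∈ A := fun P => by rw [← hrange]; exact ⟨P, rfl⟩
  let p : MvPolynomial (Fin n × Fin n) k →ₐ[k] A := pF.codRestrict A hmem
  have hpv : ∀ P, ((p P : A) : K) = pF P := fun P => rfl
  have hp : Function.Surjective p.toRingHom := by
    rintro ⟨x, hx⟩
    have hx' : x ∈ pF.range := by rw [hrange]; exact hx
    obtain ⟨P, hP⟩ := hx'
    exact ⟨P, Subtype.ext hP⟩
  let qY : MvPolynomial (Fin n × Fin n) k →ₐ[k] S :=
    MvPolynomial.aeval (fun ij : Fin n × Fin n => Y ij.1 ij.2)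
  have hker : RingHom.ker p.toRingHom ≤ RingHom.ker qY.toRingHom := by
    intro P hP
    have h0 : p P = 0 := hP
    have h1 : pF P = 0 := by rw [← hpv, h0]; rfl
    exact lf2_mem_aeval Y hY P (hF P h1)
  let g : A →+* S := RingHom.liftOfSurjective p.toRingHom hp ⟨qY.toRingHom, hker⟩
  have hg : ∀ P, g (p P) = qY P := fun P =>
    RingHom.liftOfSurjective_comp_apply p.toRingHom hp ⟨qY.toRingHom, hker⟩ P
  have hunits : ∀ y : nonZeroDivisors A, IsUnit (g y) := by
    rintro ⟨y, hy⟩
    obtain ⟨P, hP⟩ := hp y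
    have hP' : p P = y := hP
    have hy0 : y ≠ 0 := nonZeroDivisors.ne_zero hy
    show IsUnit (g y)
    rw [← hP', hg]
    apply hunit
    intro hm
    apply hy0
    rw [← hP']
    exact Subtype.ext (lf2_mem_aeval F htr P hm)
  let φ : fieldOf n k K F →+* S :=
    IsLocalization.lift (M := nonZeroDivisors A) (S := IntermediateField.adjoin k T) hunits
  have hφ : ∀ a : A, φ (algebraMap A (IntermediateField.adjoin k T) a) = g a := fun a =>
    IsLocalization.lift_eq hunits a
  refine ⟨{ φ with commutes' := ?_ }, ?_⟩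
  · intro c
    have h1 : algebraMap k (fieldOf n k K F) c =
        algebraMap A (IntermediateField.adjoin k T) (p (MvPolynomial.C c)) := by
      apply Subtype.ext
      show algebraMap k K c = pF (MvPolynomial.C c)
      simp [pF]
    show φ (algebraMap k (fieldOf n k K F) c) = _
    rw [h1, hφ, hg]
    simp [qY]
  · ext i j
    have h1 : FY n k K F i j =
        algebraMap A (IntermediateField.adjoin k T) (p (MvPolynomial.X (i, j))) := by
      apply Subtype.ext
      show F i j = pF (MvPolynomial.X (i, j))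
      simp [pF]
    show φ (FY n k K F i j) = _
    rw [h1, hφ, hg]
    simp [qY]

end NO

end Pool.Agent.Helper346.Cay
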