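import Pool.Agent.Helper346.Cay.Defs2

set_option autoImplicit false

open Polynomial

namespace Pool.Agent.Helper346.Cay

section NO


theorem LF3 (n : ℕ) (k K : Type*) [Field k] [Field K] [Algebra k K]
    (F : Matrix (Fin n) (Fin n) K) {S : Type*} [CommRing S] [Algebra k S]
    (φ φ' : fieldOf n k K F →ₐ[k] S) (h : (FY n k K F).map φ = (FY n k K F).map φ') : φ = φ' := by
  have key : ∀ (x : K) (hx : x ∈ fieldOf n k K F), φ ⟨x, hx⟩ = φ' ⟨x, hx⟩ := by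
    intro x hx
    refine IntermediateField.adjoin_induction k
      (p := fun x hx => φ ⟨x, hx⟩ = φ' ⟨x, hx⟩) ?_ ?_ ?_ ?_ ?_ hx
    · rintro x ⟨⟨i, j⟩, rfl⟩
      exact congrFun (congrFun h i) j
    · intro c
      exact (φ.commutes c).trans (φ'.commutes c).symm
    · intro x y hx hy h1 h2
      have e : (⟨x + y, add_mem hx hy⟩ : fieldOf n k K F) = ⟨x, hx⟩ + ⟨y, hy⟩ := rfl
      rw [e, map_add, map_add, h1, h2]
    · intro x hx h1
      by_cases h0 : x = 0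
      · subst h0
        have e : (⟨(0 : K)⁻¹, inv_mem hx⟩ : fieldOf n k K F) = 0 := Subtype.ext inv_zero
        rw [e, map_zero, map_zero]
      · have e : (⟨x, hx⟩ : fieldOf n k K F) * ⟨x⁻¹, inv_mem hx⟩ = 1 := Subtype.ext (mul_inv_cancel₀ h0)
        have e1 : φ ⟨x, hx⟩ * φ ⟨x⁻¹, inv_mem hx⟩ = 1 := by rw [← map_mul, e, map_one]
        have e2 : φ' ⟨x, hx⟩ * φ' ⟨x⁻¹, inv_mem hx⟩ = 1 := by rw [← map_mul, e, map_one]
        rw [← h1] at e2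
        calc φ ⟨x⁻¹, inv_mem hx⟩ = φ ⟨x⁻¹, inv_mem hx⟩ * (φ ⟨x, hx⟩ * φ' ⟨x⁻¹, inv_mem hx⟩) := by rw [e2, mul_one]
          _ = (φ ⟨x, hx⟩ * φ ⟨x⁻¹, inv_mem hx⟩) * φ' ⟨x⁻¹, inv_mem hx⟩ := by ring
          _ = φ' ⟨x⁻¹, inv_mem hx⟩ := by rw [e1, one_mul]
    · intro x y hx hy h1 h2
      have e : (⟨x * y, mul_mem hx hy⟩ : fieldOf n k K F) = ⟨x, hx⟩ * ⟨y, hy⟩ := rfl
      rw [e, map_mul, map_mul, h1, h2]
  exact AlgHom.ext fun ⟨x, hx⟩ => key x hx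

theorem LF4 (n : ℕ) (k K : Type*) [Field k] [Field K] [Algebra k K]
    (F : Matrix (Fin n) (Fin n) K) {L : Type*} [Field L] [Algebra k L]
    (φ : fieldOf n k K F →ₐ[k] L) (S : Subfield L) (hk : ∀ c : k, algebraMap k L c ∈ S)
    (h : ∀ i j, φ (FY n k K F i j) ∈ S) (x : fieldOf n k K F) : φ x ∈ S := by
  obtain ⟨x, hx⟩ := x
  refine IntermediateField.adjoin_induction k
    (p := fun x hx => φ ⟨x, hx⟩ ∈ S) ?_ ?_ ?_ ?_ ?_ hx
  · rintro x ⟨⟨i, j⟩, rfl⟩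
    exact h i j
  · intro c
    have e := φ.commutes c
    have := hk c
    rw [← e] at this
    exact this
  · intro x y hx hy h1 h2
    have e : (⟨x + y, add_mem hx hy⟩ : fieldOf n k K F) = ⟨x, hx⟩ + ⟨y, hy⟩ := rfl
    rw [e, map_add]
    exact add_mem h1 h2
  · intro x hx h1
    have e : (⟨x⁻¹, inv_mem hx⟩ : fieldOf n k K F) = (⟨x, hx⟩)⁻¹ := rfl
    rw [e, map_inv₀]
    exact inv_mem h1
  · intro x y hx hy h1 h2
    have e : (⟨x * y, mul_mem hx hy⟩ : fieldOf n k K F) = ⟨x, hx⟩ * ⟨y, hy⟩ := rfl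
    rw [e, map_mul]
    exact mul_mem h1 h2

end NO

end Pool.Agent.Helper346.Cay
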