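import Pool.Agent.Helper346.Cay.Defs2

set_option autoImplicit false

open Polynomial

namespace Pool.Agent.Helper346.Cay

section NO



/-- Krylov matrix of the first basis vector -/
noncomputable def kry {A : Type*} [CommRing A] {n : ℕ} (e0 : Fin n) (Z : Matrix (Fin n) (Fin n) A) :
    Matrix (Fin n) (Fin n) A := Matrix.of fun i j => (Z ^ (j : ℕ)) i e0

theorem kry_map {A B : Type*} [CommRing A] [CommRing B] {n : ℕ} (e0 : Fin n)
    (Z : Matrix (Fin n) (Fin n) A) (φ : A →+* B) : (kry e0 Z).map φ = kry e0 (Z.map φ) := by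
  ext i j
  simp only [kry, Matrix.map_apply, Matrix.of_apply]
  have h : (Z ^ (j : ℕ)).map φ = (Z.map φ) ^ (j : ℕ) := by
    have := map_pow (φ.mapMatrix : Matrix (Fin n) (Fin n) A →+* Matrix (Fin n) (Fin n) B) Z (j : ℕ)
    simpa using this
  rw [← h, Matrix.map_apply]

/-- the nilpotent shift -/
def shiftZ (A : Type*) [CommRing A] (n : ℕ) : Matrix (Fin n) (Fin n) A :=
  Matrix.of fun i j => if (i : ℕ) = j + 1 then 1 else 0

theorem shiftZ_pow (A : Type*) [CommRing A] (n m : ℕ) (i j : Fin n) :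
    ((shiftZ A n) ^ m) i j = if (i : ℕ) = j + m then 1 else 0 := by
  induction m generalizing i j with
  | zero =>
    rw [pow_zero, Matrix.one_apply, add_zero]
    by_cases h : i = j
    · rw [if_pos h, if_pos (by rw [h])]
    · rw [if_neg h, if_neg (fun h' => h (Fin.ext h'))]
  | succ m ih =>
    rw [pow_succ, Matrix.mul_apply]
    by_cases hj : (j : ℕ) + 1 < n
    · rw [Finset.sum_eq_single (⟨(j : ℕ) + 1, hj⟩ : Fin n)]
      · rw [ih]
        simp only [shiftZ, Matrix.of_apply, if_true, mul_one]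
        by_cases h : (i : ℕ) = j + 1 + m
        · rw [if_pos h, if_pos (by omega)]
        · rw [if_neg h, if_neg (by omega)]
      · intro b _ hb
        have : ¬ (b : ℕ) = j + 1 := fun h => hb (Fin.ext h)
        simp only [shiftZ, Matrix.of_apply, if_neg this, mul_zero]
      · intro h; exact absurd (Finset.mem_univ _) h
    · rw [if_neg (by have := i.isLt; omega)]
      apply Finset.sum_eq_zero
      intro b _
      have : ¬ (b : ℕ) = j + 1 := by have := b.isLt; omega
      simp only [shiftZ, Matrix.of_apply, if_neg this, mul_zero]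

theorem kry_shift (A : Type*) [CommRing A] (n : ℕ) (e0 : Fin n) (h0 : (e0 : ℕ) = 0) :
    kry e0 (shiftZ A n) = 1 := by
  ext i j
  simp only [kry, Matrix.of_apply]
  rw [shiftZ_pow, Matrix.one_apply, h0, zero_add]
  by_cases h : i = j
  · rw [if_pos h, if_pos (by rw [h])]
  · rw [if_neg h, if_neg (fun h' => h (Fin.ext h'))]

theorem aeval_kry {k : Type*} [Field k] {A : Type*} [CommRing A] [Algebra k A] {n : ℕ}
    (e0 : Fin n) (Z : Matrix (Fin n) (Fin n) A) :
    MvPolynomial.aeval (fun ij : Fin n × Fin n => Z ij.1 ij.2)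
      (kry e0 (Matrix.mvPolynomialX (Fin n) (Fin n) k)).det = (kry e0 Z).det := by
  have h1 : (Matrix.mvPolynomialX (Fin n) (Fin n) k).map
      (MvPolynomial.aeval (R := k) (fun ij : Fin n × Fin n => Z ij.1 ij.2)).toRingHom = Z := by
    ext i j
    simp [Matrix.mvPolynomialX]
  have h2 := RingHom.map_det
    (MvPolynomial.aeval (R := k) (fun ij : Fin n × Fin n => Z ij.1 ij.2)).toRingHom
    (kry e0 (Matrix.mvPolynomialX (Fin n) (Fin n) k))
  rw [RingHom.mapMatrix_apply, kry_map, h1] at h2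
  exact h2

theorem AC2 (n : ℕ) (hn : 2 ≤ n) (k : Type*) [Field k] {L : Type*} [Field L] [Algebra k L]
    (F : Matrix (Fin n) (Fin n) L) (hF : GenTr n k F) : ∃ u : Fin n → L, Cyc F u := by
  obtain ⟨e0, he0⟩ : ∃ e0 : Fin n, (e0 : ℕ) = 0 := ⟨⟨0, by omega⟩, rfl⟩
  have hdet : (kry e0 F).det ≠ 0 := by
    intro h
    rw [← aeval_kry (k := k)] at h
    have h1 := hF _ h
    rw [Ideal.mem_span_singleton] at h1
    obtain ⟨c, hc⟩ := h1
    have h2 := aeval_kry (k := k) e0 (shiftZ k n)
    rw [kry_shift k n e0 he0, Matrix.det_one, hc, map_mul] at h2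
    have h3 : MvPolynomial.aeval (R := k) (fun ij : Fin n × Fin n => shiftZ k n ij.1 ij.2)
        (Matrix.mvPolynomialX (Fin n) (Fin n) k).trace = 0 := by
      rw [Matrix.trace, map_sum]
      apply Finset.sum_eq_zero
      intro i _
      simp [Matrix.mvPolynomialX, shiftZ]
    rw [h3, zero_mul] at h2
    exact zero_ne_one h2
  refine ⟨Pi.single e0 1, fun i => ?_⟩
  obtain ⟨w, hw⟩ : ∃ w : Fin n → L, (kry e0 F).mulVec w = Pi.single i 1 := by
    refine ⟨(kry e0 F)⁻¹.mulVec (Pi.single i 1), ?_⟩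
    rw [Matrix.mulVec_mulVec, Matrix.mul_nonsing_inv _ (isUnit_iff_ne_zero.2 hdet),
      Matrix.one_mulVec]
  refine ⟨∑ j : Fin n, Polynomial.C (w j) * Polynomial.X ^ (j : ℕ), ?_⟩
  rw [← hw]
  ext r
  rw [map_sum]
  simp only [Matrix.mulVec, dotProduct, kry, Matrix.of_apply]
  rw [Finset.sum_eq_single e0]
  · rw [Pi.single_eq_same, mul_one, Matrix.sum_apply]
    apply Finset.sum_congr rfl
    intro j _
    rw [map_mul, Polynomial.aeval_C, map_pow, Polynomial.aeval_X, ← Algebra.smul_def,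
      Matrix.smul_apply, smul_eq_mul, mul_comm]
  · intro b _ hb
    rw [Pi.single_eq_of_ne hb, mul_zero]
  · intro h; exact absurd (Finset.mem_univ _) h

end NO

end Pool.Agent.Helper346.Cay
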