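import Pool.Agent.Helper346.Cay.Defs2
import Pool.Agent.Helper346.Cay.JE
import Pool.Agent.Helper346.Cay.JG

set_option autoImplicit false

open Polynomial

namespace Pool.Agent.Helper346.Cay

section NO


theorem EN {E : Type*} [Field E] (v : AbsoluteValue E ℝ) (na : IsNonarchimedean v) (c : S0 E) :
    ∃ s0 : ℝ, ∀ s ≥ s0, GV v na s (jS E c - cE E (evS E c)) < 1 := by
  obtain ⟨⟨f, g⟩, hfg⟩ := IsLocalization.surj (M0 E) c
  simp only at hfg
  have hg0 : (g : E[X]).eval 0 ≠ 0 := (mem_M0 _).mp g.2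
  have hgne : (g : E[X]) ≠ 0 := by
    intro h
    rw [h] at hg0
    simp at hg0
  have hgA : algebraMap E[X] (Et E) (g : E[X]) ≠ 0 := by
    intro h
    exact hgne ((IsFractionRing.injective E[X] (Et E)) (by rw [h, map_zero]))
  have h1 : jS E c * algebraMap E[X] (Et E) (g : E[X]) = algebraMap E[X] (Et E) f := by
    rw [← jS_alg, ← jS_alg, ← map_mul, hfg]
  have h2 : evS E c * (g : E[X]).eval 0 = f.eval 0 := by
    rw [← evS_alg, ← evS_alg, ← map_mul, hfg]
  have h3 : jS E c - cE E (evS E c) =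
      algebraMap E[X] (Et E) (f - Polynomial.C (evS E c) * (g : E[X])) /
        algebraMap E[X] (Et E) (g : E[X]) := by
    rw [eq_div_iff hgA, sub_mul, h1, map_sub, map_mul]
    rfl
  rw [h3]
  apply VT4 v na _ _ _ hg0
  rw [Polynomial.eval_sub, Polynomial.eval_mul, Polynomial.eval_C, h2, sub_self]

theorem EN2 {k E : Type*} [Field k] [Field E] [Algebra k E] (v : AbsoluteValue E ℝ)
    (na : IsNonarchimedean v) (P : (S0 E)[X]) : ∃ s0 : ℝ, ∀ s ≥ s0, ∀ S : Set k,
      Red (GV v na s) (P.map (jS E)) S → RedE v (P.map (evS E)) S := by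
  choose t ht using fun i : ℕ => EN v na (P.coeff i)
  obtain ⟨s0, hs0⟩ : ∃ s0 : ℝ, ∀ i ∈ Finset.range (P.natDegree + 1), t i ≤ s0 := by
    obtain ⟨M, hM⟩ := ((Finset.range (P.natDegree + 1)).image t).bddAbove
    exact ⟨M, fun i hi => hM (Finset.mem_coe.mpr (Finset.mem_image_of_mem t hi))⟩
  refine ⟨s0, fun s hs S hR => ?_⟩
  obtain ⟨Q, hQm, hQS, hQ⟩ := hR
  refine ⟨Q, hQm, hQS, fun i => ?_⟩
  have hEN : GV v na s (jS E (P.coeff i) - cE E (evS E (P.coeff i))) < 1 := by
    by_cases hi : i ∈ Finset.range (P.natDegree + 1)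
    · exact ht i s (le_trans (hs0 i hi) hs)
    · have : P.coeff i = 0 := by
        apply Polynomial.coeff_eq_zero_of_natDegree_lt
        simpa [Nat.lt_succ_iff] using hi
      rw [this]
      simp
  have hq := hQ i
  rw [Polynomial.coeff_map] at hq ⊢
  have hsum : cE E (evS E (P.coeff i) - algebraMap k E (Q.coeff i)) =
      (jS E (P.coeff i) - ck k E (Q.coeff i)) -
        (jS E (P.coeff i) - cE E (evS E (P.coeff i))) := by
    rw [map_sub]
    have : ck k E (Q.coeff i) = cE E (algebraMap k E (Q.coeff i)) := rfl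
    rw [this]
    ring
  have hlt : GV v na s (cE E (evS E (P.coeff i) - algebraMap k E (Q.coeff i))) < 1 := by
    rw [hsum]
    exact lt_of_le_of_lt (Valuation.map_sub _ _ _) (max_lt hq hEN)
  have h6 := VT6 v na s (evS E (P.coeff i) - algebraMap k E (Q.coeff i))
  rw [← h6]
  exact_mod_cast hlt

end NO

end Pool.Agent.Helper346.Cay
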