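import Pool.Agent.Helper346.Cay.JA
import Pool.Agent.Helper346.Cay.JB
import Pool.Agent.Helper346.Cay.JC
import Pool.Agent.Helper346.Cay.JD
import Pool.Agent.Helper346.Cay.JE
import Pool.Agent.Helper346.Cay.JF
import Pool.Agent.Helper346.Cay.JG
import Pool.Agent.Helper346.Cay.JH
import Pool.Agent.Helper346.Cay.JI
import Pool.Agent.Helper346.Cay.JJ
import Pool.Agent.Helper346.Cay.JK
import Pool.Agent.Helper346.Cay.JL
import Pool.Agent.Helper346.Cay.JM
import Pool.Agent.Helper346.Cay.KA
import Pool.Agent.Helper346.Cay.KB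
import Pool.Agent.Helper346.Cay.KC
import Pool.Agent.Helper346.Cay.KD
import Pool.Agent.Helper346.Cay.KE
import Pool.Agent.Helper346.Cay.KF
import Pool.Agent.Helper346.Cay.KG
import Pool.Agent.Helper346.Cay.KH
import Pool.Agent.Helper346.Cay.KI
import Pool.Agent.Helper346.Cay.KJ
import Pool.Agent.Helper346.Cay.KK
import Pool.Agent.Helper346.Cay.KL
import Pool.Agent.Helper346.Cay.KM
import Pool.Agent.Helper346.Cay.KN
import Pool.Agent.Helper346.Cay.KO
import Pool.Agent.Helper346.Cay.KP
import Pool.Agent.Helper346.Cay.KQ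
import Pool.Agent.Helper346.Cay.KR
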