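import Pool.Agent.Helper346.Cay.Defs2

set_option autoImplicit false

open Polynomial

namespace Pool.Agent.Helper346.Cay

section NO


theorem DM1_retract (n : ℕ) [NeZero n] (k : Type*) [Field k]
    (D : MvPolynomial (Fin n × Fin n) k) (hD : D = (Matrix.mvPolynomialX (Fin n) (Fin n) k).det)
    (L : Type*) [CommRing L] [IsDomain L] [Algebra (MvPolynomial (Fin n × Fin n) k) L]
    [IsLocalization.Away D L] : IsDomain (SLRing n k) := by
  let Y : Matrix (Fin n) (Fin n) L :=
    (Matrix.mvPolynomialX (Fin n) (Fin n) k).map (algebraMap (MvPolynomial (Fin n × Fin n) k) L)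
  let Y' : Matrix (Fin n) (Fin n) L :=
    Y.updateRow 0 ((IsLocalization.Away.invSelf D : L) • Y 0)
  have hYdet : Y.det = algebraMap (MvPolynomial (Fin n × Fin n) k) L D := by
    rw [hD]
    exact (RingHom.map_det _ _).symm
  have hinv : algebraMap (MvPolynomial (Fin n × Fin n) k) L D * IsLocalization.Away.invSelf D = 1 :=
    IsLocalization.Away.mul_invSelf D
  have hY'det : Y'.det = 1 := by
    simp only [Y']
    rw [Matrix.det_updateRow_smul, Matrix.updateRow_eq_self, hYdet, mul_comm]
    exact hinv
  let φ0 : MvPolynomial (Fin n × Fin n) k →+* L :=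
    MvPolynomial.eval₂Hom ((algebraMap (MvPolynomial (Fin n × Fin n) k) L).comp
      (MvPolynomial.C : k →+* MvPolynomial (Fin n × Fin n) k)) (fun ij => Y' ij.1 ij.2)
  have hφD : φ0 D = 1 := by
    rw [hD, RingHom.map_det, ← hY'det]
    congr 1
    ext i j
    simp [φ0, Matrix.mvPolynomialX]
  let I : Ideal (MvPolynomial (Fin n × Fin n) k) :=
    Ideal.span {(Matrix.mvPolynomialX (Fin n) (Fin n) k).det - 1}
  have hφI : ∀ a ∈ I, φ0 a = 0 := by
    intro a ha
    have h1 : I ≤ RingHom.ker φ0 := by
      rw [Ideal.span_le, Set.singleton_subset_iff, SetLike.mem_coe, RingHom.mem_ker, ← hD]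
      show φ0 (D - 1) = 0
      rw [map_sub, hφD, map_one, sub_self]
    exact (RingHom.mem_ker).1 (h1 ha)
  let φ : SLRing n k →+* L := Ideal.Quotient.lift I φ0 hφI
  have hmkD : Ideal.Quotient.mk I D = 1 := by
    have h1 : Ideal.Quotient.mk I (D - 1) = 0 := by
      rw [Ideal.Quotient.eq_zero_iff_mem, hD]
      exact Ideal.subset_span rfl
    rw [map_sub, map_one] at h1
    exact sub_eq_zero.1 h1
  have hunit : IsUnit (Ideal.Quotient.mk I D) := by rw [hmkD]; exact isUnit_one
  let ψ : L →+* SLRing n k := IsLocalization.Away.lift D (g := Ideal.Quotient.mk I) hunit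
  have hψ : ∀ a, ψ (algebraMap (MvPolynomial (Fin n × Fin n) k) L a) = Ideal.Quotient.mk I a := fun a =>
    IsLocalization.Away.lift_eq D hunit a
  have hψinv : ψ (IsLocalization.Away.invSelf D) = 1 := by
    have h1 := congrArg ψ hinv
    rw [map_mul, hψ, hmkD, one_mul, map_one] at h1
    exact h1
  have hcomp : ψ.comp φ = RingHom.id _ := by
    apply Ideal.Quotient.ringHom_ext
    apply MvPolynomial.ringHom_ext
    · intro r
      show ψ (φ0 (MvPolynomial.C r)) =
        Ideal.Quotient.mk I (MvPolynomial.C r : MvPolynomial (Fin n × Fin n) k)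
      rw [← hψ]
      congr 1
      simp only [φ0, MvPolynomial.eval₂Hom_C]
      rfl
    · intro ij
      show ψ (φ0 (MvPolynomial.X ij)) = Ideal.Quotient.mk I (MvPolynomial.X ij)
      simp only [φ0, MvPolynomial.eval₂Hom_X', Y']
      by_cases hi : ij.1 = 0
      · rw [hi, Matrix.updateRow_self, Pi.smul_apply, smul_eq_mul, map_mul, hψinv, one_mul]
        have : Y 0 ij.2 = algebraMap (MvPolynomial (Fin n × Fin n) k) L (MvPolynomial.X ij) := by
          simp only [Y, Matrix.map_apply, Matrix.mvPolynomialX]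
          rw [← hi]
          rfl
        rw [this, hψ]
      · rw [Matrix.updateRow_ne hi]
        have : Y ij.1 ij.2 = algebraMap (MvPolynomial (Fin n × Fin n) k) L (MvPolynomial.X ij) := by
          simp only [Y, Matrix.map_apply, Matrix.mvPolynomialX]
          rfl
        rw [this, hψ]
  have hinj : Function.Injective φ := by
    intro x y hxy
    have h1 := congrArg ψ hxy
    have h2 := RingHom.congr_fun hcomp x
    have h3 := RingHom.congr_fun hcomp y
    simp only [RingHom.comp_apply, RingHom.id_apply] at h2 h3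
    rw [← h2, ← h3, h1]
  exact hinj.isDomain φ

theorem DM1 (n : ℕ) (k : Type*) [Field k] : IsDomain (SLRing n k) := by
  rcases Nat.eq_zero_or_pos n with hn | hn
  · subst hn
    have h0 : (Matrix.mvPolynomialX (Fin 0) (Fin 0) k).det - 1 = 0 := by
      rw [Matrix.det_isEmpty, sub_self]
    have hp : (Ideal.span {(Matrix.mvPolynomialX (Fin 0) (Fin 0) k).det - 1}).IsPrime := by
      rw [h0, Ideal.span_singleton_eq_bot.2 rfl]
      exact Ideal.isPrime_bot
    exact (Ideal.Quotient.isDomain_iff_prime _).2 hp
  · have : NeZero n := ⟨by omega⟩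
    have hD0 : (Matrix.mvPolynomialX (Fin n) (Fin n) k).det ≠ 0 :=
      Matrix.det_mvPolynomialX_ne_zero (Fin n) k
    have hLd : IsDomain (Localization.Away (Matrix.mvPolynomialX (Fin n) (Fin n) k).det) :=
      IsLocalization.isDomain_localization (powers_le_nonZeroDivisors_of_noZeroDivisors hD0)
    exact DM1_retract n k _ rfl (Localization.Away (Matrix.mvPolynomialX (Fin n) (Fin n) k).det)

end NO

end Pool.Agent.Helper346.Cay
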