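import Pool.Agent.Helper346.Cay.StDefs
import Pool.Agent.Helper346.Cay.QA

set_option autoImplicit false

namespace Pool.Agent.Helper346.Cay

instance slRingIsDomain (n : ℕ) (k : Type*) [Field k] : IsDomain (SLRing n k) := DM1 n k

/-- The Cayley degree of the simple algebraic group `SL_n` over `k`: the least degree of a dominant
`SL_n`-equivariant rational map from `SL_n` to its Lie algebra `sl_n`. -/
noncomputable def cayleyDegree (n : ℕ) (k : Type*) [Field k] : ℕ :=
  sInf {d : ℕ | ∃ F : Matrix (Fin n) (Fin n) (FractionRing (SLRing n k)),
    IsEquivariantDominant n k (FractionRing (SLRing n k)) F ∧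
      mapDegree n k (FractionRing (SLRing n k)) F = d}

end Pool.Agent.Helper346.Cay
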