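import Pool.Agent.Helper346.Cay.Core0

set_option autoImplicit false

open Polynomial

namespace Pool.Agent.Helper346.Cay

theorem genSL_map {n : ℕ} {k L M : Type*} [Field k] [Field L] [Field M] [Algebra k L] [Algebra k M]
    (f : L →ₐ[k] M) (Z : Matrix (Fin n) (Fin n) L) (hZ : GenSL n k Z) : GenSL n k (Z.map f) := by
  intro P hP
  apply hZ
  have : f (MvPolynomial.aeval (fun ij : Fin n × Fin n => Z ij.1 ij.2) P) = 0 := by
    rw [MvPolynomial.comp_aeval_apply]; exact hP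
  exact (map_eq_zero f).mp this

theorem GN5n (p : ℕ) [Fact p.Prime] (n : ℕ) (hn : n = p ^ 2) (k L E : Type*) [Field k] [CharZero k]
    [Field L] [IsAlgClosed L] [Field E] [Algebra k L] [Algebra k E] [Algebra L E]
    [IsScalarTower k L E] (ζ : k) (hζ : IsPrimitiveRoot ζ p)
    (X : Matrix (Fin n) (Fin n) L) (hsep : X.charpoly.Separable) (hdet : X.det = 1)
    (hX : GenSL n k X)
    (K1 : Subfield E) (hL : ∀ c : L, algebraMap L E c ∈ K1) (α β : E)
    (hα : α ^ p ∈ K1) (hβ : β ^ p ∈ K1) (halg : AlgebraicIndependent L ![α ^ p, β ^ p]) :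
    ∃ (g : Matrix (Fin n) (V p) E) (g' : Matrix (V p) (Fin n) E)
      (X0 : Matrix (Fin n) (Fin n) E),
      g * g' = 1 ∧ g' * g = 1 ∧ (∀ i χ, g i χ ∈ K1) ∧ (∀ χ i, g' χ i ∈ K1) ∧
      (∀ i j, X0 i j ∈ K1) ∧ X0.det = 1 ∧
      (∀ τ, ∃ y : E, Matrix.vecMul (rho ζ α β g' τ) X0 = y • rho ζ α β g' τ) ∧
      GenSL n k X0 := by
  subst hn
  exact GN5 p k L E ζ hζ X hsep hdet hX K1 hL α β hα hβ halg

theorem core (p : ℕ) [Fact p.Prime] (n : ℕ) (hndef : n = p ^ 2) (k K : Type*) [Field k]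
    [IsAlgClosed k] [CharZero k] [Field K]
    [Algebra k K] [Algebra (SLRing n k) K] [IsFractionRing (SLRing n k) K]
    [IsScalarTower k (SLRing n k) K] (F : Matrix (Fin n) (Fin n) K)
    (hF : IsEquivariantDominant n k K F) {e : ℕ}
    (b : Module.Basis (Fin e) (fieldOf n k K F) K) : p ≤ e := by
  classical
  by_contra hlt
  push Not at hlt
  have hp2 : 2 ≤ p := (Fact.out : p.Prime).two_le
  have hn4 : 4 ≤ p ^ 2 := by nlinarith
  have hn3 : 3 ≤ n := by omega
  have hn2 : 2 ≤ n := by omega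
  have hn0 : 0 < n := by omega
  have hXF : F * genX n k K = genX n k K * F := AC1 n k K F hF
  obtain ⟨hXgen, hXdet⟩ := LF0 n k K
  have hFgen : GenTr n k F := hF.dominant
  -- the algebraic closure
  let L := AlgebraicClosure K
  let fL : K →ₐ[k] L := IsScalarTower.toAlgHom k K L
  have hXLgen : GenSL n k ((genX n k K).map fL) := genSL_map fL _ hXgen
  have hXLdet : ((genX n k K).map fL).det = 1 := by
    have h := AlgHom.map_det fL (genX n k K)
    rw [hXdet, map_one] at h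
    exact h.symm
  have hXLsep : ((genX n k K).map fL).charpoly.Separable := (AC3 n hn3 k _ hXLgen).2
  -- the model
  obtain ⟨D, hDL, hDalg⟩ := MD1 p k L
  haveI : NeZero (n : k) := ⟨Nat.cast_ne_zero.mpr (by omega)⟩
  obtain ⟨ζn, hζn⟩ := HasEnoughRootsOfUnity.exists_primitiveRoot k n
  have hζ : IsPrimitiveRoot (ζn ^ p) p := hζn.pow hn0 (by rw [hndef]; ring)
  set ζ : k := ζn ^ p with hζdef
  haveI hist : @IsScalarTower k L (HahnSeries ℝ L) Algebra.toSMul Algebra.toSMul Algebra.toSMul :=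
    IsScalarTower.of_algebraMap_eq (R := k) (S := L) (A := HahnSeries ℝ L) (fun x => by
      rw [HahnSeries.algebraMap_apply', HahnSeries.algebraMap_apply', PowerSeries.algebraMap_apply,
        PowerSeries.algebraMap_apply]
      rfl)
  obtain ⟨g, g', X0, hgg', hg'g, hgK, hg'K, hX0K, hX0det, hX0ev, hX0gen⟩ :=
    GN5n p n hndef k L (HahnSeries ℝ L) ζ hζ ((genX n k K).map fL) hXLsep hXLdet hXLgen D.K1 hDL D.α D.β
      D.hαK D.hβK hDalg
  -- the homomorphisms ε j
  have hε : ∀ j : ℕ, ∃ ε : K →ₐ[k] HahnSeries ℝ L,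
      (genX n k K).map ε = (algebraMap k (HahnSeries ℝ L) (ζn ^ j)) • X0 ∧ ∀ x, ε x ∈ D.K1 := by
    intro j
    have hc : (ζn ^ j) ^ n = 1 := by rw [← pow_mul, mul_comm, pow_mul, hζn.pow_eq_one, one_pow]
    have hgen := LF5 n k hn0 X0 hX0gen (ζn ^ j) hc
    have hdet : ((algebraMap k (HahnSeries ℝ L) (ζn ^ j)) • X0).det = 1 := by
      rw [Matrix.det_smul, hX0det, mul_one, Fintype.card_fin, ← map_pow, hc, map_one]
    obtain ⟨ε, hε1, hε2⟩ := LF1 n k K ((algebraMap k (HahnSeries ℝ L) (ζn ^ j)) • X0) hdet hgen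
    refine ⟨ε, hε1, fun x => hε2 D.K1 D.kK (fun i l => ?_) x⟩
    rw [Matrix.smul_apply, smul_eq_mul]
    exact D.K1.mul_mem (D.kK _) (hX0K i l)
  choose ε hεX hεK using hε
  -- restriction to fieldOf
  let φ : ℕ → (fieldOf n k K F →ₐ[k] HahnSeries ℝ L) := fun j => (ε j).comp (fieldOf n k K F).val
  have hφK : ∀ j i l, φ j (FY n k K F i l) ∈ D.K1 := fun j i l => hεK j _
  have hev : ∀ j τ, ∃ y : HahnSeries ℝ L, Matrix.vecMul (rho ζ D.α D.β g' τ)
      ((FY n k K F).map (φ j)) = y • rho ζ D.α D.β g' τ := by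
    intro j τ
    have e1 : (FY n k K F).map (φ j) = F.map (ε j) := rfl
    rw [e1]
    have hc : (ζn ^ j) ^ n = 1 := by rw [← pow_mul, mul_comm, pow_mul, hζn.pow_eq_one, one_pow]
    have hgen := LF5 n k hn0 X0 hX0gen (ζn ^ j) hc
    obtain ⟨u, hu⟩ := (AC3 n hn3 k _ hgen).1
    have hcomm : F.map (ε j) * ((algebraMap k (HahnSeries ℝ L) (ζn ^ j)) • X0) =
        ((algebraMap k (HahnSeries ℝ L) (ζn ^ j)) • X0) * F.map (ε j) := by
      rw [← hεX j]
      have h1 : (F * genX n k K).map (ε j) = F.map (ε j) * (genX n k K).map (ε j) :=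
        Matrix.map_mul
      have h2 : (genX n k K * F).map (ε j) = (genX n k K).map (ε j) * F.map (ε j) :=
        Matrix.map_mul
      rw [← h1, ← h2, hXF]
    obtain ⟨q, hq⟩ := CM2 _ (F.map (ε j)) u hu hcomm
    obtain ⟨y, hy⟩ := hX0ev τ
    rw [hq]
    refine ⟨_, CM3 _ _ (algebraMap k (HahnSeries ℝ L) (ζn ^ j) * y) ?_ q⟩
    rw [Matrix.vecMul_smul, hy, smul_smul]
  -- the bad lines
  choose chi hchi0 hchi using (fun s : ℝ => VT7 p s)
  -- comparison
  have htwo : ∀ j : ℕ, ∃ (S : Set k),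
      (∃ s1 : ℝ, ∀ s ≥ s1, ∀ h, dot (chi s) h ≠ 0 → RedE D.v
        (Ph b (genX n k K) (φ 0 : fieldOf n k K F →+* HahnSeries ℝ L) (RingHom.id _) p
          (gam ζ D.α D.β g g') h) S) ∧
      (∃ s1 : ℝ, ∀ s ≥ s1, ∀ h, dot (chi s) h ≠ 0 → RedE D.v
        (Ph b (genX n k K) (φ j : fieldOf n k K F →+* HahnSeries ℝ L) (RingHom.id _) p
          (gam ζ D.α D.β g g') h) S) := fun j =>
    two hn2 D chi hchi0 hchi ζ hζ g g' hgg' hg'g hgK hg'K F hF.trace_eq_zero hFgen b hlt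
      (genX n k K) hXdet hXF.symm (φ 0) (φ j) (hφK 0) (hφK j) (hev 0) (hev j)
  let S : ℕ → Set k := fun j => (htwo j).choose
  have hS2 := fun j => (htwo j).choose_spec
  let s0 : ℕ → ℝ := fun j => (hS2 j).1.choose
  have hs0 := fun j => (hS2 j).1.choose_spec
  let s1 : ℕ → ℝ := fun j => (hS2 j).2.choose
  have hs1 := fun j => (hS2 j).2.choose_spec
  -- a large s
  set ss : ℝ := ∑ j ∈ Finset.range p, (|s0 j| + |s1 j|) with hss
  have hss0 : ∀ j ∈ Finset.range p, ss ≥ s0 j ∧ ss ≥ s1 j := by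
    intro j hj
    have h1 : |s0 j| + |s1 j| ≤ ss := Finset.single_le_sum (f := fun j => |s0 j| + |s1 j|)
      (fun i _ => add_nonneg (abs_nonneg _) (abs_nonneg _)) hj
    constructor
    · linarith [le_abs_self (s0 j), abs_nonneg (s1 j)]
    · linarith [le_abs_self (s1 j), abs_nonneg (s0 j)]
  obtain ⟨h, hh⟩ := exists_good (chi ss) (hchi0 ss)
  have hR0 : ∀ j ∈ Finset.range p, RedE D.v (Ph b (genX n k K)
      (φ 0 : fieldOf n k K F →+* HahnSeries ℝ L) (RingHom.id _) p (gam ζ D.α D.β g g') h) (S j) :=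
    fun j hj => hs0 j ss (hss0 j hj).1 h hh
  have hRj : ∀ j ∈ Finset.range p, RedE D.v (Ph b (genX n k K)
      (φ j : fieldOf n k K F →+* HahnSeries ℝ L) (RingHom.id _) p (gam ζ D.α D.β g g') h) (S j) :=
    fun j hj => hs1 j ss (hss0 j hj).2 h hh
  have h0p : 0 ∈ Finset.range p := Finset.mem_range.mpr (by omega)
  have hSS : ∀ j ∈ Finset.range p, S j = S 0 := fun j hj =>
    RU' D.v D.na D.kv _ _ _ (hR0 j hj) (hR0 0 h0p)
  -- the root
  set x : HahnSeries ℝ L := ∏ m ∈ Finset.range p, xval (genX n k K) (RingHom.id (HahnSeries ℝ L))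
    (ε 0 : K →+* HahnSeries ℝ L) (gam ζ D.α D.β g g' ((m : ZMod p) • h)) with hx
  have hεj : ∀ j i l, ε j (genX n k K i l) =
      algebraMap k (HahnSeries ℝ L) (ζn ^ j) * ε 0 (genX n k K i l) := by
    intro j i l
    have h1 := congrFun (congrFun (hεX j) i) l
    have h2 := congrFun (congrFun (hεX 0) i) l
    simp only [Matrix.map_apply, Matrix.smul_apply, smul_eq_mul, pow_zero, map_one, one_mul] at h1 h2
    rw [h1, h2]
  have hxj : ∀ j, (∏ m ∈ Finset.range p, xval (genX n k K) (RingHom.id (HahnSeries ℝ L))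
      (ε j : K →+* HahnSeries ℝ L) (gam ζ D.α D.β g g' ((m : ZMod p) • h))) =
      algebraMap k (HahnSeries ℝ L) (ζ ^ j) * x := by
    intro j
    have h1 : ∀ γ : Fin n → Fin n → HahnSeries ℝ L,
        xval (genX n k K) (RingHom.id (HahnSeries ℝ L)) (ε j : K →+* HahnSeries ℝ L) γ =
        algebraMap k (HahnSeries ℝ L) (ζn ^ j) *
          xval (genX n k K) (RingHom.id (HahnSeries ℝ L)) (ε 0 : K →+* HahnSeries ℝ L) γ := by
      intro γ
      unfold xval
      rw [Finset.mul_sum]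
      refine Finset.sum_congr rfl (fun i _ => ?_)
      rw [Finset.mul_sum]
      refine Finset.sum_congr rfl (fun l _ => ?_)
      have h2 : (ε j : K →+* HahnSeries ℝ L) (genX n k K i l) =
        algebraMap k (HahnSeries ℝ L) (ζn ^ j) * (ε 0 : K →+* HahnSeries ℝ L) (genX n k K i l) :=
        hεj j i l
      rw [h2]; ring
    rw [Finset.prod_congr rfl (fun m _ => h1 _), Finset.prod_mul_distrib, Finset.prod_const,
      Finset.card_range, ← map_pow, ← pow_mul, mul_comm j p, pow_mul]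
  have hroot : ∀ j, (Ph b (genX n k K) (φ j : fieldOf n k K F →+* HahnSeries ℝ L) (RingHom.id _) p
      (gam ζ D.α D.β g g') h).IsRoot (algebraMap k (HahnSeries ℝ L) (ζ ^ j) * x) := by
    intro j
    rw [← hxj j]
    exact PH4 b _ _ _ _ _ _ _ rfl
  have hmonic : ∀ j, (Ph b (genX n k K) (φ j : fieldOf n k K F →+* HahnSeries ℝ L) (RingHom.id _) p
      (gam ζ D.α D.β g g') h).Monic ∧ (Ph b (genX n k K)
      (φ j : fieldOf n k K F →+* HahnSeries ℝ L) (RingHom.id _) p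
      (gam ζ D.α D.β g g') h).natDegree = e := fun j => PH2 _ _ _ _ _ _ _
  -- x reduces to a root of unity
  obtain ⟨i0, hi0⟩ : ∃ i0 : ℕ, D.v (x - algebraMap k (HahnSeries ℝ L) (ζ ^ i0)) < 1 := by
    obtain ⟨u, hu⟩ := AC2 n hn2 k (FY n k K F) (by
      intro P hP
      apply hF.dominant
      have h4 : (fieldOf n k K F).val
          (MvPolynomial.aeval (fun ij : Fin n × Fin n => FY n k K F ij.1 ij.2) P) = 0 := by
        rw [hP, map_zero]
      rw [MvPolynomial.comp_aeval_apply] at h4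
      exact h4)
    have hKT : ∀ a : HahnSeries ℝ L, a ∈ D.K1 → cE _ a ∈ KT D.K1 := by
      intro a ha
      refine mem_KT_of (C a) (fun i => ?_)
      rw [coeff_C]; split
      · exact ha
      · exact D.K1.zero_mem
    obtain ⟨K', hsub, hH3, c, hcK, hcx, hprod⟩ := LA D ζ hζ g g' hgg' hg'g hgK hg'K b (genX n k K)
      hXdet (FY n k K F) hXF.symm u hu
      ((cE (HahnSeries ℝ L)).comp (φ 0 : fieldOf n k K F →+* HahnSeries ℝ L))
      (fun a => hKT _ (hεK 0 _))
      (by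
        intro τ
        obtain ⟨y, hy⟩ := hev 0 τ
        refine ⟨cE _ y, ?_⟩
        funext l
        have h1 := congrFun hy l
        simp only [Matrix.vecMul, dotProduct, Matrix.map_apply, Pi.smul_apply, smul_eq_mul] at h1 ⊢
        rw [← map_mul, ← h1, map_sum]
        refine Finset.sum_congr rfl (fun i _ => ?_)
        rw [map_mul]; rfl)
      (RingHom.id (Et (HahnSeries ℝ L)))
      ((cE (HahnSeries ℝ L)).comp (ε 0 : K →+* HahnSeries ℝ L)) rfl
    have hLH := LB D ss (chi ss) (hchi ss) ζ hζ (GV D.v D.na ss) (RingHom.id (Et (HahnSeries ℝ L)))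
      (fun z => ⟨Iff.rfl, Iff.rfl⟩) K' hsub e hlt hH3
    have hprod' : ∏ τ : V p, (∑ χ, (RingHom.id (Et (HahnSeries ℝ L)) (ck k _ ζ)) ^ (dot χ τ).val *
      (c χ * ee (RingHom.id (Et (HahnSeries ℝ L)) (cE _ D.α))
        (RingHom.id (Et (HahnSeries ℝ L)) (cE _ D.β)) χ)) = 1 := by
      rw [← hprod]
      exact Finset.prod_congr rfl (fun τ _ => (hcx τ).symm)
    obtain ⟨i0, hi0⟩ := LL5 hLH c hcK hprod'
    refine ⟨i0, ?_⟩
    have h1 := hi0 h hh
    rw [Finset.prod_congr rfl (fun (m : ℕ) _ => (hcx (((m : ℕ) : ZMod p) • h)).symm)] at h1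
    have h2 : ∀ γ : Fin n → Fin n → HahnSeries ℝ L,
        xval (genX n k K) ((RingHom.id (Et (HahnSeries ℝ L))).comp (cE (HahnSeries ℝ L)))
          ((cE (HahnSeries ℝ L)).comp (ε 0 : K →+* HahnSeries ℝ L)) γ =
        cE _ (xval (genX n k K) (RingHom.id (HahnSeries ℝ L)) (ε 0 : K →+* HahnSeries ℝ L) γ) := by
      intro γ
      unfold xval
      rw [map_sum]
      refine Finset.sum_congr rfl (fun i _ => ?_)
      rw [map_sum]
      refine Finset.sum_congr rfl (fun l _ => ?_)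
      rw [map_mul]; rfl
    rw [Finset.prod_congr rfl (fun m _ => h2 _), ← map_prod, ← hx] at h1
    have h3 : (RingHom.id (Et (HahnSeries ℝ L)) (ck k (HahnSeries ℝ L) ζ)) ^ i0 =
        cE _ (algebraMap k (HahnSeries ℝ L) (ζ ^ i0)) := by
      have h5 : ck k (HahnSeries ℝ L) (ζ ^ i0) =
        cE _ (algebraMap k (HahnSeries ℝ L) (ζ ^ i0)) := rfl
      rw [← h5, map_pow (ck k (HahnSeries ℝ L)) ζ i0]
      rfl
    rw [h3, ← map_sub] at h1
    have h4 := VT6 D.v D.na ss (x - algebraMap k (HahnSeries ℝ L) (ζ ^ i0))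
    rw [← h4]
    exact_mod_cast h1
  -- all powers are in S 0
  have hmem : ∀ j ∈ Finset.range p, ζ ^ j * ζ ^ i0 ∈ S 0 := by
    intro j hj
    obtain ⟨a, haS, ha⟩ := redE_root D.v D.na D.kv _ (hmonic j).1 (S j) (hRj j hj) _ (hroot j)
    rw [hSS j hj] at haS
    have h1 : D.v (algebraMap k (HahnSeries ℝ L) (ζ ^ j) * x -
        algebraMap k (HahnSeries ℝ L) (ζ ^ j * ζ ^ i0)) < 1 := by
      rw [map_mul, ← mul_sub, D.v.map_mul]
      calc _ ≤ 1 * D.v (x - algebraMap k (HahnSeries ℝ L) (ζ ^ i0)) :=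
            mul_le_mul_of_nonneg_right (kv_le D.v D.kv _) (D.v.nonneg _)
        _ < 1 := by rw [one_mul]; exact hi0
    have h2 : a = ζ ^ j * ζ ^ i0 := by
      apply kv_eq D.v D.kv (E := HahnSeries ℝ L)
      have h3 := v_sub_lt D.v D.na h1 ha
      have h4 : algebraMap k (HahnSeries ℝ L) (ζ ^ j) * x -
        algebraMap k (HahnSeries ℝ L) (ζ ^ j * ζ ^ i0) -
          (algebraMap k (HahnSeries ℝ L) (ζ ^ j) * x - algebraMap k (HahnSeries ℝ L) a) =
          algebraMap k (HahnSeries ℝ L) a - algebraMap k (HahnSeries ℝ L) (ζ ^ j * ζ ^ i0) := by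
        ring
      rw [h4] at h3
      exact h3
    rw [← h2]; exact haS
  have hcard := redE_card D.v D.na D.kv _ (hmonic 0).1 (S 0) (hRj 0 h0p)
    ((Finset.range p).image (fun j => ζ ^ j * ζ ^ i0)) (by
      intro a ha
      obtain ⟨j, hj, rfl⟩ := Finset.mem_image.mp ha
      exact hmem j hj)
  rw [(hmonic 0).2, Finset.card_image_of_injOn, Finset.card_range] at hcard
  · omega
  · intro j hj j' hj' hjj
    have hne : ζ ^ i0 ≠ 0 := pow_ne_zero _ (hζ.ne_zero (by omega))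
    have := mul_right_cancel₀ hne hjj
    exact hζ.pow_inj (Finset.mem_range.mp hj) (Finset.mem_range.mp hj') this

end Pool.Agent.Helper346.Cay
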