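import Pool.Agent.Helper346.Cay.Two2

set_option autoImplicit false

open Polynomial

namespace Pool.Agent.Helper346.Cay

section

variable {k E : Type*} [Field k] [Field E] [Algebra k E] (v : AbsoluteValue E ℝ)
  (na : IsNonarchimedean v) (kv : ∀ c : k, c ≠ 0 → v (algebraMap k E c) = 1)

include na in
theorem v_sub_lt {x y : E} {r : ℝ} (hx : v x < r) (hy : v y < r) : v (x - y) < r := by
  have h := na x (-y)
  rw [← sub_eq_add_neg, v.map_neg] at h
  exact lt_of_le_of_lt h (max_lt hx hy)

include na in
theorem v_sum_lt {ι : Type*} (s : Finset ι) (f : ι → E) {r : ℝ} (hr : 0 < r)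
    (h : ∀ i ∈ s, v (f i) < r) : v (∑ i ∈ s, f i) < r := by
  classical
  induction s using Finset.induction_on with
  | empty => simpa using hr
  | insert a s ha ih =>
    rw [Finset.sum_insert ha]
    refine lt_of_le_of_lt (na _ _) (max_lt (h a (Finset.mem_insert_self _ _)) ?_)
    exact ih (fun i hi => h i (Finset.mem_insert_of_mem hi))

include kv in
theorem kv_le (c : k) : v (algebraMap k E c) ≤ 1 := by
  by_cases h : c = 0
  · rw [h, map_zero, map_zero]; exact zero_le_one
  · rw [kv c h]

include kv in
theorem kv_eq {a b : k} (h : v (algebraMap k E a - algebraMap k E b) < 1) : a = b := by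
  by_contra hab
  rw [← map_sub, kv _ (sub_ne_zero.mpr hab)] at h
  exact lt_irrefl _ h

include na kv in
theorem redE_natDegree (P : E[X]) (hP : P.Monic) (Q : k[X]) (hQ : Q.Monic)
    (h : ∀ i, v (P.coeff i - algebraMap k E (Q.coeff i)) < 1) : Q.natDegree = P.natDegree := by
  rcases lt_trichotomy Q.natDegree P.natDegree with h1 | h1 | h1
  · have h2 := h P.natDegree
    rw [coeff_eq_zero_of_natDegree_lt h1, coeff_natDegree, hP.leadingCoeff] at h2
    simp at h2
  · exact h1
  · have h2 := h Q.natDegree
    rw [coeff_eq_zero_of_natDegree_lt h1, coeff_natDegree, hQ.leadingCoeff] at h2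
    simp at h2

include na kv in
theorem redE_card (P : E[X]) (hP : P.Monic) (S : Set k) (h : RedE v P S) (T : Finset k)
    (hT : ∀ a ∈ T, a ∈ S) : T.card ≤ P.natDegree := by
  classical
  obtain ⟨Q, hQ, hS, hc⟩ := h
  rw [← redE_natDegree v na kv P hP Q hQ hc]
  have : T ⊆ Q.roots.toFinset := by
    intro a ha
    have := hT a ha
    rw [← hS] at this
    rw [Multiset.mem_toFinset, mem_roots hQ.ne_zero]
    exact this
  exact (Finset.card_le_card this).trans ((Multiset.toFinset_card_le _).trans (card_roots' Q))

include na kv in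
theorem redE_root [IsAlgClosed k] (P : E[X]) (hP : P.Monic) (S : Set k) (h : RedE v P S) (x : E)
    (hx : P.IsRoot x) : ∃ a ∈ S, v (x - algebraMap k E a) < 1 := by
  classical
  obtain ⟨Q, hQ, hS, hc⟩ := h
  have hdeg := redE_natDegree v na kv P hP Q hQ hc
  -- coefficients of P are integral
  have hPle : ∀ i, v (P.coeff i) ≤ 1 := by
    intro i
    have h1 : P.coeff i = (P.coeff i - algebraMap k E (Q.coeff i)) + algebraMap k E (Q.coeff i) := by
      ring
    rw [h1]
    exact (na _ _).trans (max_le (hc i).le (kv_le v kv _))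
  -- x is integral
  have hx1 : v x ≤ 1 := by
    by_contra hgt
    push Not at hgt
    have h2 : P.eval x = 0 := hx
    rw [eval_eq_sum_range, Finset.sum_range_succ, coeff_natDegree, hP.leadingCoeff, one_mul] at h2
    have h3 : v (∑ i ∈ Finset.range P.natDegree, P.coeff i * x ^ i) < v (x ^ P.natDegree) := by
      rw [v.map_pow]
      refine v_sum_lt v na _ _ (pow_pos (lt_trans one_pos hgt) _) (fun i hi => ?_)
      rw [v.map_mul, v.map_pow]
      calc v (P.coeff i) * v x ^ i ≤ 1 * v x ^ i :=
            mul_le_mul_of_nonneg_right (hPle i) (pow_nonneg (v.nonneg _) _)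
        _ = v x ^ i := one_mul _
        _ < v x ^ P.natDegree := pow_lt_pow_right₀ hgt (Finset.mem_range.mp hi)
    have h4 : ∑ i ∈ Finset.range P.natDegree, P.coeff i * x ^ i = - x ^ P.natDegree :=
      eq_neg_of_add_eq_zero_left h2
    rw [h4, v.map_neg] at h3
    exact lt_irrefl _ h3
  -- Q(x) is small
  have hQx : v ((Q.map (algebraMap k E)).eval x) < 1 := by
    have h5 : (Q.map (algebraMap k E)).eval x =
        - ∑ i ∈ Finset.range (P.natDegree + 1), (P.coeff i - algebraMap k E (Q.coeff i)) * x ^ i := by
      have h6 : P.eval x = 0 := hx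
      rw [eval_eq_sum_range] at h6
      rw [eval_eq_sum_range, natDegree_map, hdeg, ← sub_eq_zero]
      simp only [sub_mul, Finset.sum_sub_distrib, h6, coeff_map]
      ring
    rw [h5, v.map_neg]
    refine v_sum_lt v na _ _ one_pos (fun i _ => ?_)
    rw [v.map_mul, v.map_pow]
    calc _ ≤ v (P.coeff i - algebraMap k E (Q.coeff i)) * 1 :=
          mul_le_mul_of_nonneg_left (pow_le_one₀ (v.nonneg _) hx1) (v.nonneg _)
      _ < 1 := by rw [mul_one]; exact hc i
  -- factor Q
  have hsplit := IsAlgClosed.splits Q
  have h7 : Q = (Q.roots.map (fun a => X - C a)).prod := by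
    have := hsplit.eq_prod_roots
    rw [hQ.leadingCoeff, C_1, one_mul] at this
    exact this
  by_contra hcon
  push Not at hcon
  have h8 : ∀ a ∈ Q.roots, 1 ≤ v (x - algebraMap k E a) := by
    intro a ha
    apply hcon
    rw [← hS]
    exact (mem_roots'.mp ha).2
  have h9 : (Q.map (algebraMap k E)).eval x = (Q.roots.map (fun a => x - algebraMap k E a)).prod := by
    conv_lhs => rw [h7]
    rw [Polynomial.map_multiset_prod, eval_multiset_prod, Multiset.map_map, Multiset.map_map]
    congr 1
    apply Multiset.map_congr rfl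
    intro a _
    simp
  rw [h9] at hQx
  have h10 : ∀ m : Multiset k, (∀ a ∈ m, 1 ≤ v (x - algebraMap k E a)) →
      1 ≤ v ((m.map (fun a => x - algebraMap k E a)).prod) := by
    intro m
    induction m using Multiset.induction_on with
    | empty => intro _; simp
    | cons a m ih =>
      intro hm
      rw [Multiset.map_cons, Multiset.prod_cons, v.map_mul]
      exact one_le_mul_of_one_le_of_one_le (hm a (Multiset.mem_cons_self _ _))
        (ih (fun b hb => hm b (Multiset.mem_cons_of_mem hb)))
  exact absurd hQx (not_lt.mpr (h10 _ h8))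

end

end Pool.Agent.Helper346.Cay
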