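import Mathlib

set_option autoImplicit false

open Polynomial

namespace Pool.Agent.Helper346.Cay

/-- index group -/
abbrev V (p : ℕ) := ZMod p × ZMod p

/-- pairing -/
def dot {p : ℕ} (x y : V p) : ZMod p := x.1 * y.1 + x.2 * y.2

/-- monomials -/
def ee {R : Type*} [Monoid R] (α β : R) {p : ℕ} (χ : V p) : R := α ^ χ.1.val * β ^ χ.2.val

/-- valued field data -/
structure Dat (p : ℕ) (k E : Type*) [Field k] [Field E] [Algebra k E] where
  v : AbsoluteValue E ℝ
  na : IsNonarchimedean v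
  K1 : Subfield E
  kK : ∀ c : k, algebraMap k E c ∈ K1
  kv : ∀ c : k, c ≠ 0 → v (algebraMap k E c) = 1
  val : ∀ z ∈ K1, z ≠ 0 → ∃ a b : ℤ, v z = Real.exp (-((p : ℝ) * (a + b * Real.sqrt 2)))
  α : E
  β : E
  hα : v α = Real.exp (-1)
  hβ : v β = Real.exp (-(Real.sqrt 2))
  hαK : α ^ p ∈ K1
  hβK : β ^ p ∈ K1

/-- the field `E(t)` -/
abbrev Et (E : Type*) [Field E] := FractionRing E[X]

/-- constants -/
noncomputable def cE (E : Type*) [Field E] : E →+* Et E :=
  (algebraMap E[X] (Et E)).comp Polynomial.C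

noncomputable def ck (k E : Type*) [Field k] [Field E] [Algebra k E] : k →+* Et E :=
  (cE E).comp (algebraMap k E)

section gauss

variable {E : Type*} [Field E] (v : AbsoluteValue E ℝ) (na : IsNonarchimedean v) (s : ℝ)

/-- Gauss valuation on polynomials with radius `exp (-s)` -/
noncomputable def GP : Valuation E[X] NNReal where
  toFun f := ⟨f.gaussNorm v (Real.exp (-s)), f.gaussNorm_nonneg v (Real.exp_pos _).le⟩
  map_zero' := by
    apply NNReal.eq
    show (0 : E[X]).gaussNorm v (Real.exp (-s)) = 0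
    simp
  map_one' := by
    apply NNReal.eq
    show (1 : E[X]).gaussNorm v (Real.exp (-s)) = 1
    have : (1 : E[X]) = Polynomial.C 1 := by simp
    rw [this, Polynomial.gaussNorm_C]
    simp
  map_mul' f g := by
    apply NNReal.eq
    exact Polynomial.gaussNorm_mul na (Real.exp_pos _) f g
  map_add_le_max' f g := by
    have h := Polynomial.isNonarchimedean_gaussNorm v na (Real.exp_pos (-s)).le f g
    rcases le_max_iff.mp h with h | h
    · exact le_max_of_le_left h
    · exact le_max_of_le_right h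

theorem GP_apply (f : E[X]) : ((GP v na s f : NNReal) : ℝ) = f.gaussNorm v (Real.exp (-s)) := rfl

theorem GP_supp : nonZeroDivisors E[X] ≤ (GP v na s).supp.primeCompl := by
  intro f hf
  have hf0 : f ≠ 0 := nonZeroDivisors.ne_zero hf
  show f ∉ (GP v na s).supp
  rw [Valuation.mem_supp_iff]
  intro h
  apply hf0
  have h1 : f.gaussNorm v (Real.exp (-s)) = 0 := by
    rw [← GP_apply v na s, h]; simp
  exact (Polynomial.gaussNorm_eq_zero_iff v f (fun x hx => (AbsoluteValue.eq_zero v).mp hx)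
    (Real.exp_pos _)).mp h1

/-- Gauss valuation on `E(t)` -/
noncomputable def GV : Valuation (Et E) NNReal :=
  (GP v na s).extendToLocalization (GP_supp v na s) (Et E)

theorem GV_alg (f : E[X]) : ((GV v na s (algebraMap E[X] (Et E) f) : NNReal) : ℝ) =
    f.gaussNorm v (Real.exp (-s)) := by
  unfold GV
  rw [Valuation.extendToLocalization_apply_map_apply]
  rfl

end gauss

/-- the subfield `K1(t)` of `E(t)` -/
noncomputable def KT {E : Type*} [Field E] (K1 : Subfield E) : Subfield (Et E) :=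
  (Subfield.closure ((algebraMap E[X] (Et E)) '' {f | ∀ i, f.coeff i ∈ K1}))

/-- reduction of a polynomial over `E(t)` -/
def Red {k E : Type*} [Field k] [Field E] [Algebra k E] (W : Valuation (Et E) NNReal)
    (P : (Et E)[X]) (S : Set k) : Prop :=
  ∃ Q : k[X], Q.Monic ∧ {x | Q.IsRoot x} = S ∧ ∀ i, W (P.coeff i - ck k E (Q.coeff i)) < 1

/-- reduction of a polynomial over `E` -/
def RedE {k E : Type*} [Field k] [Field E] [Algebra k E] (v : AbsoluteValue E ℝ)
    (P : E[X]) (S : Set k) : Prop :=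
  ∃ Q : k[X], Q.Monic ∧ {x | Q.IsRoot x} = S ∧ ∀ i, v (P.coeff i - algebraMap k E (Q.coeff i)) < 1

section PH

variable {KY K E S : Type*} [Field KY] [Field K] [Algebra KY K] [Field E] [CommRing S]
  {N : Type*} [Fintype N] {e : ℕ}

/-- a linear form in the entries of `X`, as a matrix -/
noncomputable def Zm (b : Module.Basis (Fin e) KY K) (X : Matrix N N K) (φ : KY →+* S) (ψ : E →+* S)
    (γ : N → N → E) : Matrix (Fin e) (Fin e) S :=
  ∑ i, ∑ j, ψ (γ i j) • ((Algebra.leftMulMatrix b (X i j)).map φ)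

/-- characteristic polynomial of the product of `p` conjugates -/
noncomputable def Ph (b : Module.Basis (Fin e) KY K) (X : Matrix N N K) (φ : KY →+* S) (ψ : E →+* S)
    (p : ℕ) (γ : V p → N → N → E) (h : V p) : S[X] :=
  (((List.range p).map (fun m : ℕ => Zm b X φ ψ (γ ((m : ZMod p) • h)))).prod).charpoly

/-- the value of the linear form under a homomorphism -/
noncomputable def xval {Ω : Type*} [Field Ω] (X : Matrix N N K) (ψ : E →+* Ω) (ι : K →+* Ω)
    (γ : N → N → E) : Ω := ∑ i, ∑ j, ψ (γ i j) * ι (X i j)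

end PH

section vec

variable {k E : Type*} [Field k] [Field E] [Algebra k E] {p : ℕ} {N : Type*} [Fintype N]

/-- common left eigenvector -/
noncomputable def rho (ζ : k) (α β : E) [NeZero p] (g' : Matrix (V p) N E) (τ : V p) (i : N) : E :=
  ∑ χ : V p, algebraMap k E ζ ^ (dot χ τ).val * ee α β χ * g' χ i

noncomputable def gam (ζ : k) (α β : E) [NeZero p] (g : Matrix N (V p) E) (g' : Matrix (V p) N E)
    (τ : V p) (i j : N) : E := rho ζ α β g' τ i * g j 0

end vec

/-- hypotheses of the local lemma -/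
structure LH {Ω Γ₀ : Type*} [Field Ω] [LinearOrderedCommGroupWithZero Γ₀] (W : Valuation Ω Γ₀)
    (p : ℕ) [Fact p.Prime] (ζ α β : Ω) (Kt K' : Subfield Ω) (χ₁ : V p) (e : ℕ) : Prop where
  sub : Kt ≤ K'
  ζp : IsPrimitiveRoot ζ p
  ζK : ζ ∈ Kt
  α0 : α ≠ 0
  β0 : β ≠ 0
  αK : α ^ p ∈ Kt
  βK : β ^ p ∈ Kt
  H1 : ∀ (i j : ℤ) (u : Ω), u ∈ Kt → W (α ^ i * β ^ j) = W u →
    ∃ c : ZMod p, (((i : ZMod p), (j : ZMod p)) : V p) = c • χ₁
  H2 : ∀ u : V p → Ω, (∀ χ, u χ ∈ Kt) → W (∑ χ, u χ * ee α β χ) < 1 →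
    ∀ χ, W (u χ * ee α β χ) < 1
  he : e < p
  H3 : ∀ θ ∈ K', ∃ q : Polynomial Ω, (∀ i, q.coeff i ∈ Kt) ∧ q ≠ 0 ∧ q.natDegree ≤ e ∧
    q.eval θ = 0

/-- `u` is a cyclic vector of `F` -/
def Cyc {L : Type*} [CommRing L] {n : ℕ} (F : Matrix (Fin n) (Fin n) L) (u : Fin n → L) : Prop :=
  ∀ i, ∃ q : L[X], (aeval F q).mulVec u = Pi.single i 1

end Pool.Agent.Helper346.Cay
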