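import Mathlib

set_option autoImplicit false

namespace Pool.Agent.Helper346.Cay

/-- The coordinate ring of `SL_n` over `k`: polynomials in the `n * n` entries `x i j` of a matrix,
modulo the equation `det x = 1`. -/
abbrev SLRing (n : ℕ) (k : Type*) [CommRing k] : Type _ :=
  MvPolynomial (Fin n × Fin n) k ⧸
    Ideal.span {(Matrix.mvPolynomialX (Fin n) (Fin n) k).det - 1}

/-- The generic matrix of `SL_n`, with entries in the function field `K` of `SL_n`. -/
noncomputable def genX (n : ℕ) (k K : Type*) [Field k] [Field K] [Algebra (SLRing n k) K] :
    Matrix (Fin n) (Fin n) K :=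
  Matrix.of fun i j => algebraMap (SLRing n k) K (Ideal.Quotient.mk _ (MvPolynomial.X (i, j)))

/-- `F` is a dominant `SL_n`-equivariant rational map from `SL_n` (acting on itself by
conjugation) to its Lie algebra `sl_n` of traceless matrices (with the adjoint action). -/
structure IsEquivariantDominant (n : ℕ) (k K : Type*) [Field k] [Field K] [Algebra k K]
    [Algebra (SLRing n k) K] (F : Matrix (Fin n) (Fin n) K) : Prop where
  trace_eq_zero : F.trace = 0
  equivariant : ∀ (g : Matrix.SpecialLinearGroup (Fin n) k) (c : K →ₐ[k] K),
    (genX n k K).map c = (g : Matrix (Fin n) (Fin n) k).map (algebraMap k K) * genX n k K *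
      ((g⁻¹ : Matrix.SpecialLinearGroup (Fin n) k) : Matrix (Fin n) (Fin n) k).map
        (algebraMap k K) →
    F.map c = (g : Matrix (Fin n) (Fin n) k).map (algebraMap k K) * F *
      ((g⁻¹ : Matrix.SpecialLinearGroup (Fin n) k) : Matrix (Fin n) (Fin n) k).map
        (algebraMap k K)
  dominant : ∀ P : MvPolynomial (Fin n × Fin n) k,
    MvPolynomial.aeval (fun ij : Fin n × Fin n => F ij.1 ij.2) P = 0 →
      P ∈ Ideal.span {(Matrix.mvPolynomialX (Fin n) (Fin n) k).trace}

/-- The subfield of the function field `K` generated over `k` by the entries of `F`, that is the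
image of the function field of `sl_n` under the pull back by the rational map `F`. -/
noncomputable abbrev fieldOf (n : ℕ) (k K : Type*) [Field k] [Field K] [Algebra k K]
    (F : Matrix (Fin n) (Fin n) K) : IntermediateField k K :=
  IntermediateField.adjoin k (Set.range fun ij : Fin n × Fin n => F ij.1 ij.2)

/-- The degree of the dominant rational map `F`: the degree of the function field of `SL_n` over the
function field of `sl_n`. -/
noncomputable def mapDegree (n : ℕ) (k K : Type*) [Field k] [Field K] [Algebra k K]
    (F : Matrix (Fin n) (Fin n) K) : ℕ :=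
  Module.finrank (fieldOf n k K F) K

end Pool.Agent.Helper346.Cay
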