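import Pool.Agent.Helper346.Cay.Defs
import Pool.Agent.Helper346.Cay.StDefs

set_option autoImplicit false

open Polynomial

namespace Pool.Agent.Helper346.Cay

/-- polynomials not vanishing at `0` -/
noncomputable def M0 (E : Type*) [Field E] : Submonoid E[X] :=
  (nonZeroDivisors E).comap (Polynomial.evalRingHom (0 : E))

theorem mem_M0 {E : Type*} [Field E] (f : E[X]) : f ∈ M0 E ↔ f.eval 0 ≠ 0 := by
  unfold M0
  rw [Submonoid.mem_comap, mem_nonZeroDivisors_iff_ne_zero]
  rfl

/-- local ring of `E[X]` at `X = 0` -/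
abbrev S0 (E : Type*) [Field E] : Type _ := Localization (M0 E)

/-- constants in `S0` -/
noncomputable def cS (E : Type*) [Field E] : E →+* S0 E := (algebraMap E[X] (S0 E)).comp Polynomial.C

/-- evaluation at `0` -/
noncomputable def evS (E : Type*) [Field E] : S0 E →+* E :=
  IsLocalization.lift (M := M0 E) (g := Polynomial.evalRingHom (0 : E))
    (fun y => isUnit_iff_ne_zero.mpr ((mem_M0 _).mp y.2))

/-- inclusion into the fraction field -/
noncomputable def jS (E : Type*) [Field E] : S0 E →+* Et E :=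
  IsLocalization.lift (M := M0 E) (g := algebraMap E[X] (Et E))
    (fun y => isUnit_iff_ne_zero.mpr (fun h => (mem_M0 _).mp y.2 (by
      have : (y : E[X]) = 0 := (IsFractionRing.injective E[X] (Et E)) (by rw [h, map_zero])
      rw [this]; simp)))

theorem evS_alg {E : Type*} [Field E] (f : E[X]) : evS E (algebraMap E[X] (S0 E) f) = f.eval 0 := by
  unfold evS
  rw [IsLocalization.lift_eq]
  rfl

theorem jS_alg {E : Type*} [Field E] (f : E[X]) :
    jS E (algebraMap E[X] (S0 E) f) = algebraMap E[X] (Et E) f := by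
  unfold jS
  rw [IsLocalization.lift_eq]

/-- the entries of `F` as elements of the subfield generated by them -/
noncomputable def FY (n : ℕ) (k K : Type*) [Field k] [Field K] [Algebra k K]
    (F : Matrix (Fin n) (Fin n) K) : Matrix (Fin n) (Fin n) (fieldOf n k K F) :=
  Matrix.of fun i j => ⟨F i j, IntermediateField.subset_adjoin _ _ ⟨(i, j), rfl⟩⟩

/-- matrix of multiplication by `∑ lam χ A^χ.1 B^χ.2` in the algebra `R[A,B]/(A^p-a,B^p-b)` -/
def WW {R : Type*} [CommRing R] {p : ℕ} (lam : V p → R) (a b : R) : Matrix (V p) (V p) R :=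
  Matrix.of fun χ χ' => lam (χ - χ') * a ^ (((χ - χ').1.val + χ'.1.val) / p) *
    b ^ (((χ - χ').2.val + χ'.2.val) / p)

/-- vanishing only modulo the equation of `SL_n` -/
def GenSL (n : ℕ) (k : Type*) {L : Type*} [Field k] [CommRing L] [Algebra k L]
    (Z : Matrix (Fin n) (Fin n) L) : Prop :=
  ∀ P : MvPolynomial (Fin n × Fin n) k,
    MvPolynomial.aeval (fun ij : Fin n × Fin n => Z ij.1 ij.2) P = 0 →
      P ∈ Ideal.span {(Matrix.mvPolynomialX (Fin n) (Fin n) k).det - 1}

/-- vanishing only modulo the trace -/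
def GenTr (n : ℕ) (k : Type*) {L : Type*} [Field k] [CommRing L] [Algebra k L]
    (Z : Matrix (Fin n) (Fin n) L) : Prop :=
  ∀ P : MvPolynomial (Fin n × Fin n) k,
    MvPolynomial.aeval (fun ij : Fin n × Fin n => Z ij.1 ij.2) P = 0 →
      P ∈ Ideal.span {(Matrix.mvPolynomialX (Fin n) (Fin n) k).trace}

end Pool.Agent.Helper346.Cay
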