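import Pool.Agent.Helper346.Cay.Defs2
import Pool.Agent.Helper346.Cay.KR

set_option autoImplicit false

open Polynomial

namespace Pool.Agent.Helper346.Cay

section NO



/-- the traceless part of a matrix -/
noncomputable def tl (n : ℕ) (k : Type*) {L : Type*} [Field k] [CommRing L] [Algebra k L]
    (Z : Matrix (Fin n) (Fin n) L) : Matrix (Fin n) (Fin n) L :=
  Z - (algebraMap k L ((n : k)⁻¹) * Z.trace) • 1

theorem tl_apply (n : ℕ) (k : Type*) {L : Type*} [Field k] [CommRing L] [Algebra k L]
    (Z : Matrix (Fin n) (Fin n) L) (i j : Fin n) :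
    tl n k Z i j = Z i j - algebraMap k L ((n : k)⁻¹) * Z.trace * (1 : Matrix (Fin n) (Fin n) L) i j := by
  unfold tl
  rw [Matrix.sub_apply, Matrix.smul_apply, smul_eq_mul]

theorem tl_trace (n : ℕ) (hn : 0 < n) (k : Type*) {L : Type*} [Field k] [CharZero k] [CommRing L]
    [Algebra k L] (Z : Matrix (Fin n) (Fin n) L) : (tl n k Z).trace = 0 := by
  unfold tl
  rw [Matrix.trace_sub, Matrix.trace_smul, Matrix.trace_one, Fintype.card_fin, smul_eq_mul]
  have h : algebraMap k L ((n : k)⁻¹) * (n : L) = 1 := by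
    have hn' : (n : k) ≠ 0 := Nat.cast_ne_zero.2 hn.ne'
    rw [← map_natCast (algebraMap k L) n, ← map_mul, inv_mul_cancel₀ hn', map_one]
  linear_combination (-Z.trace) * h

/-- evaluation of the traceless part of the generic matrix -/
theorem map_tl (n : ℕ) (k : Type*) {L L' : Type*} [Field k] [CommRing L] [Algebra k L]
    [CommRing L'] [Algebra k L'] (φ : L →ₐ[k] L') (Z : Matrix (Fin n) (Fin n) L) (i j : Fin n) :
    φ (tl n k Z i j) = tl n k (Z.map φ) i j := by
  rw [tl_apply, tl_apply, map_sub, map_mul, map_mul, AlgHom.commutes]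
  congr 2
  · congr 1
    rw [Matrix.trace, Matrix.trace, map_sum]
    rfl
  · by_cases h : i = j
    · subst h; simp
    · rw [Matrix.one_apply_ne h, Matrix.one_apply_ne h, map_zero]

theorem exists_det_one (n : ℕ) (hn : 0 < n) (k : Type*) [Field k] [IsAlgClosed k]
    (Y0 : Matrix (Fin n) (Fin n) k) : ∃ c : k, (Y0 + c • (1 : Matrix (Fin n) (Fin n) k)).det = 1 := by
  have hdeg : (-Y0).charpoly.degree = n := by
    rw [Matrix.charpoly_degree_eq_dim, Fintype.card_fin]
  have hpos : 0 < (-Y0).charpoly.degree := by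
    rw [hdeg]; exact_mod_cast hn
  obtain ⟨c, hc⟩ := IsAlgClosed.exists_root ((-Y0).charpoly - C 1) (by
    rw [degree_sub_C hpos]; exact hpos.ne')
  refine ⟨c, ?_⟩
  rw [IsRoot, eval_sub, eval_C, Matrix.eval_charpoly, sub_neg_eq_add, sub_eq_zero] at hc
  rw [← hc, add_comm]
  congr 2
  ext i j
  by_cases h : i = j
  · subst h; simp
  · simp [h]

theorem EX1 (n : ℕ) (hn : 0 < n) (k K : Type*) [Field k] [IsAlgClosed k] [CharZero k] [Field K]
    [Algebra k K] [Algebra (SLRing n k) K] [IsFractionRing (SLRing n k) K]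
    [IsScalarTower k (SLRing n k) K] :
    ∃ F : Matrix (Fin n) (Fin n) K, IsEquivariantDominant n k K F := by
  refine ⟨tl n k (genX n k K), ?_, ?_, ?_⟩
  · exact tl_trace n hn k _
  · intro g c hg
    set G : Matrix (Fin n) (Fin n) K := (g : Matrix (Fin n) (Fin n) k).map (algebraMap k K) with hG
    set G' : Matrix (Fin n) (Fin n) K :=
      ((g⁻¹ : Matrix.SpecialLinearGroup (Fin n) k) : Matrix (Fin n) (Fin n) k).map
        (algebraMap k K) with hG'
    have hGG' : G * G' = 1 := by
      rw [hG, hG', ← Matrix.map_mul, ← Matrix.SpecialLinearGroup.coe_mul, mul_inv_cancel]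
      simp
    have hG'G : G' * G = 1 := by
      rw [hG, hG', ← Matrix.map_mul, ← Matrix.SpecialLinearGroup.coe_mul, inv_mul_cancel]
      simp
    have h1 : (tl n k (genX n k K)).map c = tl n k ((genX n k K).map c) := by
      ext i j
      exact map_tl n k c (genX n k K) i j
    rw [h1, hg]
    unfold tl
    have htr : (G * genX n k K * G').trace = (genX n k K).trace := by
      rw [Matrix.trace_mul_comm, ← Matrix.mul_assoc, hG'G, Matrix.one_mul]
    rw [htr, Matrix.mul_sub, Matrix.sub_mul, Matrix.mul_smul, Matrix.smul_mul, Matrix.mul_one, hGG']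
  · intro P hP
    set φ : MvPolynomial (Fin n × Fin n) k →ₐ[k] K :=
      MvPolynomial.aeval (fun ij : Fin n × Fin n => genX n k K ij.1 ij.2) with hφ
    set X' : Matrix (Fin n) (Fin n) (MvPolynomial (Fin n × Fin n) k) :=
      Matrix.mvPolynomialX (Fin n) (Fin n) k with hX'
    have hX'a : ∀ i j, X' i j = MvPolynomial.X (i, j) := fun i j => rfl
    set Q : MvPolynomial (Fin n × Fin n) k :=
      MvPolynomial.aeval (fun ij : Fin n × Fin n => tl n k X' ij.1 ij.2) P with hQ
    have hXφ : X'.map φ = genX n k K := by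
      apply Matrix.ext
      intro i j
      show φ (X' i j) = _
      rw [hX'a, hφ, MvPolynomial.aeval_X]
    have hφQ : φ Q = 0 := by
      rw [hQ, MvPolynomial.comp_aeval_apply, ← hP]
      congr 2
      funext ij
      rw [map_tl, hXφ]
    have hQspan : Q ∈ Ideal.span {X'.det - 1} := (LF0 n k K).1 Q hφQ
    -- evaluation of `Q` at a matrix
    have hevQ : ∀ Z : Matrix (Fin n) (Fin n) k,
        MvPolynomial.aeval (fun ij : Fin n × Fin n => Z ij.1 ij.2) Q =
          MvPolynomial.aeval (fun ij : Fin n × Fin n => tl n k Z ij.1 ij.2) P := by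
      intro Z
      rw [hQ, MvPolynomial.comp_aeval_apply]
      congr 2
      funext ij
      rw [map_tl]
      congr 2
      ext i j
      show MvPolynomial.aeval (fun ij : Fin n × Fin n => Z ij.1 ij.2) (X' i j) = _
      rw [hX'a, MvPolynomial.aeval_X]
    have hQ0 : Q = 0 := by
      apply MvPolynomial.funext
      intro x0
      rw [map_zero]
      set Z0 : Matrix (Fin n) (Fin n) k := Matrix.of fun i j => x0 (i, j) with hZ0
      set Y0 := tl n k Z0 with hY0
      obtain ⟨c, hc⟩ := exists_det_one n hn k Y0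
      set X0 := Y0 + c • (1 : Matrix (Fin n) (Fin n) k) with hX0
      have hn' : (n : k) ≠ 0 := Nat.cast_ne_zero.2 hn.ne'
      have htl : tl n k X0 = Y0 := by
        have htr : X0.trace = n * c := by
          rw [hX0, Matrix.trace_add, hY0, tl_trace n hn k, Matrix.trace_smul, Matrix.trace_one,
            Fintype.card_fin, smul_eq_mul, zero_add, mul_comm]
        unfold tl
        rw [htr]
        have : algebraMap k k ((n : k)⁻¹) * (n * c) = c := by
          show (n : k)⁻¹ * (n * c) = c
          rw [← mul_assoc, inv_mul_cancel₀ hn', one_mul]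
        rw [this, hX0, add_sub_cancel_right]
      have h1 : MvPolynomial.aeval (fun ij : Fin n × Fin n => X0 ij.1 ij.2) Q = (0 : k) := by
        obtain ⟨a, ha⟩ := Ideal.mem_span_singleton.1 hQspan
        have h2 : MvPolynomial.aeval (fun ij : Fin n × Fin n => X0 ij.1 ij.2) X'.det = X0.det := by
          rw [AlgHom.map_det]
          congr 1
          ext i j
          show MvPolynomial.aeval (fun ij : Fin n × Fin n => X0 ij.1 ij.2) (X' i j) = _
          rw [hX'a, MvPolynomial.aeval_X]
        rw [ha, map_mul, map_sub, h2, map_one, hc, sub_self, zero_mul]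
      have h3 : MvPolynomial.eval x0 Q =
          MvPolynomial.aeval (fun ij : Fin n × Fin n => Z0 ij.1 ij.2) Q := by
        rw [← MvPolynomial.coe_aeval_eq_eval]
        rfl
      rw [h3, hevQ, ← hY0, ← htl, ← hevQ]
      exact h1
    rw [← Ideal.Quotient.eq_zero_iff_mem]
    have h4 : Ideal.Quotient.mk (Ideal.span {X'.trace}) P =
        Ideal.Quotient.mk (Ideal.span {X'.trace}) Q := by
      have e1 : ∀ p : MvPolynomial (Fin n × Fin n) k, Ideal.Quotient.mk (Ideal.span {X'.trace}) p =
          Ideal.Quotient.mkₐ k (Ideal.span {X'.trace}) p := fun p => rfl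
      have e2 : Ideal.Quotient.mkₐ k (Ideal.span {X'.trace}) X'.trace = 0 := by
        rw [← e1, Ideal.Quotient.eq_zero_iff_mem]
        exact Ideal.subset_span rfl
      rw [e1, e1, hQ, MvPolynomial.comp_aeval_apply]
      conv_lhs => rw [← MvPolynomial.aeval_X_left_apply P]
      rw [MvPolynomial.comp_aeval_apply]
      congr 2
      funext ij
      rw [tl_apply, map_sub, map_mul, map_mul, e2, mul_zero, zero_mul, sub_zero, hX'a]
    rw [h4, hQ0, map_zero]

end NO

end Pool.Agent.Helper346.Cay
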