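import Pool.Agent.Helper346.Cay.Defs2
import Pool.Agent.Helper346.Cay.KR

set_option autoImplicit false

open Polynomial

namespace Pool.Agent.Helper346.Cay

section NO


theorem K_ind (n : ℕ) (k K : Type*) [Field k] [Field K]
    [Algebra k K] [Algebra (SLRing n k) K] [IsFractionRing (SLRing n k) K]
    [IsScalarTower k (SLRing n k) K] (P : K → Prop) (hk : ∀ c : k, P (algebraMap k K c))
    (hX : ∀ i j, P (genX n k K i j)) (hadd : ∀ a b, P a → P b → P (a + b))
    (hmul : ∀ a b, P a → P b → P (a * b)) (hinv : ∀ a, P a → P a⁻¹) : ∀ a, P a := by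
  have h1 : ∀ Q : MvPolynomial (Fin n × Fin n) k,
      P (algebraMap (SLRing n k) K (Ideal.Quotient.mk _ Q)) := by
    intro Q
    induction Q using MvPolynomial.induction_on with
    | C a =>
      have : algebraMap (SLRing n k) K (Ideal.Quotient.mk _ (MvPolynomial.C a)) =
          algebraMap k K a := by
        rw [IsScalarTower.algebraMap_apply k (SLRing n k) K a]
        rfl
      rw [this]
      exact hk a
    | add p q hp hq =>
      rw [map_add, map_add]
      exact hadd _ _ hp hq
    | mul_X p ij hp =>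
      rw [map_mul, map_mul]
      exact hmul _ _ hp (hX ij.1 ij.2)
  intro a
  obtain ⟨x, y, _, rfl⟩ := IsFractionRing.div_surjective (A := SLRing n k) a
  obtain ⟨x, rfl⟩ := Ideal.Quotient.mk_surjective x
  obtain ⟨y, rfl⟩ := Ideal.Quotient.mk_surjective y
  rw [div_eq_mul_inv]
  exact hmul _ _ (h1 x) (hinv _ (h1 y))

theorem alg_aux (m : ℕ) (k K : Type*) [Field k] [Field K]
    [Algebra k K] [Algebra (SLRing (m + 1) k) K] [IsFractionRing (SLRing (m + 1) k) K]
    [IsScalarTower k (SLRing (m + 1) k) K] :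
    Algebra.IsAlgebraic (Algebra.adjoin k (Set.range (fun ij :
      {ij : Fin (m + 1) × Fin (m + 1) // ij ≠ (0, 0)} => genX (m + 1) k K ij.1.1 ij.1.2))) K := by
  set s := Set.range (fun ij :
      {ij : Fin (m + 1) × Fin (m + 1) // ij ≠ (0, 0)} => genX (m + 1) k K ij.1.1 ij.1.2) with hs
  set A := Algebra.adjoin k s with hA
  have hmemX : ∀ i j, (i, j) ≠ ((0 : Fin (m + 1)), (0 : Fin (m + 1))) →
      genX (m + 1) k K i j ∈ A := by
    intro i j hij
    exact Algebra.subset_adjoin ⟨⟨(i, j), hij⟩, rfl⟩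
  have halg : ∀ a ∈ A, IsAlgebraic A a := by
    intro a ha
    exact isAlgebraic_algebraMap (⟨a, ha⟩ : A)
  have hdet : ∀ c : Fin m → Fin (m + 1),
      ((genX (m + 1) k K).submatrix Fin.succ c).det ∈ A := by
    intro c
    rw [Matrix.det_apply']
    apply Subalgebra.sum_mem
    intro σ _
    apply Subalgebra.mul_mem
    · exact Subalgebra.intCast_mem _ _
    · apply Subalgebra.prod_mem
      intro i _
      rw [Matrix.submatrix_apply]
      apply hmemX
      intro h
      exact Fin.succ_ne_zero _ (Prod.mk.inj h).1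
  obtain ⟨hG, hdet1⟩ := LF0 (m + 1) k K
  have hM : ((genX (m + 1) k K).submatrix Fin.succ Fin.succ).det ≠ 0 := by
    intro h0
    set Z := Matrix.mvPolynomialX (Fin (m + 1)) (Fin (m + 1)) k with hZ
    have h1 : MvPolynomial.aeval (fun ij : Fin (m + 1) × Fin (m + 1) =>
        genX (m + 1) k K ij.1 ij.2) ((Z.submatrix Fin.succ Fin.succ).det) = 0 := by
      rw [← h0, AlgHom.map_det]
      congr 1
      ext i j
      simp [hZ, Matrix.mvPolynomialX_apply]
    have h2 := hG _ h1
    rw [Ideal.mem_span_singleton] at h2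
    obtain ⟨q, hq⟩ := h2
    have h3 := congrArg (MvPolynomial.eval (fun ij : Fin (m + 1) × Fin (m + 1) =>
      (1 : Matrix (Fin (m + 1)) (Fin (m + 1)) k) ij.1 ij.2)) hq
    rw [map_mul, map_sub, RingHom.map_det, RingHom.map_det, map_one] at h3
    have h4 : (MvPolynomial.eval (fun ij : Fin (m + 1) × Fin (m + 1) =>
      (1 : Matrix (Fin (m + 1)) (Fin (m + 1)) k) ij.1 ij.2)).mapMatrix Z = 1 := by
      ext i j
      simp [hZ, Matrix.mvPolynomialX_apply]
    have h5 : (MvPolynomial.eval (fun ij : Fin (m + 1) × Fin (m + 1) =>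
      (1 : Matrix (Fin (m + 1)) (Fin (m + 1)) k) ij.1 ij.2)).mapMatrix
        (Z.submatrix Fin.succ Fin.succ) = 1 := by
      ext i j
      simp [hZ, Matrix.mvPolynomialX_apply, Matrix.one_apply]
    rw [h4, h5] at h3
    simp at h3
  have h00 : IsAlgebraic A (genX (m + 1) k K 0 0) := by
    have h1 := hdet1
    rw [Matrix.det_succ_row_zero, Fin.sum_univ_succ, Fin.succAbove_zero, Fin.val_zero,
      pow_zero, one_mul] at h1
    have h2 : genX (m + 1) k K 0 0 =
        (1 - ∑ i : Fin m, (-1) ^ ((i.succ : Fin (m + 1)) : ℕ) * genX (m + 1) k K 0 i.succ *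
          ((genX (m + 1) k K).submatrix Fin.succ (i.succ).succAbove).det) *
        (((genX (m + 1) k K).submatrix Fin.succ Fin.succ).det)⁻¹ := by
      rw [eq_mul_inv_iff_mul_eq₀ hM]
      exact eq_sub_of_add_eq h1
    rw [h2]
    apply IsAlgebraic.mul
    · apply halg
      apply Subalgebra.sub_mem _ (Subalgebra.one_mem _)
      apply Subalgebra.sum_mem
      intro i _
      apply Subalgebra.mul_mem
      · apply Subalgebra.mul_mem
        · apply Subalgebra.pow_mem
          exact Subalgebra.neg_mem _ (Subalgebra.one_mem _)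
        · apply hmemX
          intro h
          exact Fin.succ_ne_zero _ (Prod.mk.inj h).2
      · exact hdet _
    · exact (halg _ (hdet _)).inv
  constructor
  apply K_ind (m + 1) k K
  · intro c
    exact halg _ (Subalgebra.algebraMap_mem _ _)
  · intro i j
    by_cases hij : (i, j) = ((0 : Fin (m + 1)), (0 : Fin (m + 1)))
    · obtain ⟨rfl, rfl⟩ := Prod.mk.inj hij
      exact h00
    · exact halg _ (hmemX i j hij)
  · intro a b ha hb
    exact ha.add hb
  · intro a b ha hb
    exact ha.mul hb
  · intro a ha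
    exact ha.inv

theorem indep_aux (m : ℕ) (k K : Type*) [Field k] [Field K]
    [Algebra k K] (F : Matrix (Fin (m + 1)) (Fin (m + 1)) K) (hF : GenTr (m + 1) k F) :
    AlgebraicIndependent k (fun ij :
      {ij : Fin (m + 1) × Fin (m + 1) // ij ≠ (0, 0)} => F ij.1.1 ij.1.2) := by
  rw [algebraicIndependent_iff]
  intro Q hQ
  have h1 : MvPolynomial.aeval (fun ij : Fin (m + 1) × Fin (m + 1) => F ij.1 ij.2)
      (MvPolynomial.rename Subtype.val Q) = 0 := by
    rw [MvPolynomial.aeval_rename]
    exact hQ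
  have h2 := hF _ h1
  rw [Ideal.mem_span_singleton] at h2
  obtain ⟨q, hq⟩ := h2
  let I := {ij : Fin (m + 1) × Fin (m + 1) // ij ≠ (0, 0)}
  let g : Fin (m + 1) × Fin (m + 1) → MvPolynomial I k := fun ij =>
    if h : ij = (0, 0) then - ∑ i : Fin m, MvPolynomial.X (⟨(i.succ, i.succ), fun h =>
      Fin.succ_ne_zero _ (Prod.mk.inj h).1⟩ : I) else MvPolynomial.X ⟨ij, h⟩
  have h3 := congrArg (MvPolynomial.aeval g) hq
  rw [map_mul, MvPolynomial.aeval_rename] at h3
  have h4 : MvPolynomial.aeval g
      ((Matrix.mvPolynomialX (Fin (m + 1)) (Fin (m + 1)) k).trace) = 0 := by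
    rw [Matrix.trace, map_sum, Fin.sum_univ_succ]
    have e0 : MvPolynomial.aeval g ((Matrix.mvPolynomialX (Fin (m + 1)) (Fin (m + 1)) k).diag 0) =
        - ∑ i : Fin m, MvPolynomial.X (⟨(i.succ, i.succ), fun h =>
      Fin.succ_ne_zero _ (Prod.mk.inj h).1⟩ : I) := by
      rw [Matrix.diag_apply, Matrix.mvPolynomialX_apply, MvPolynomial.aeval_X]
      exact dif_pos rfl
    rw [e0]
    have e1 : ∀ i : Fin m, MvPolynomial.aeval g
        ((Matrix.mvPolynomialX (Fin (m + 1)) (Fin (m + 1)) k).diag i.succ) =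
        MvPolynomial.X (⟨(i.succ, i.succ), fun h =>
      Fin.succ_ne_zero _ (Prod.mk.inj h).1⟩ : I) := by
      intro i
      rw [Matrix.diag_apply, Matrix.mvPolynomialX_apply, MvPolynomial.aeval_X]
      simp only [g]
      rw [dif_neg]
    rw [Finset.sum_congr rfl (fun i _ => e1 i)]
    simp
  have h5 : (g ∘ Subtype.val : I → MvPolynomial I k) = MvPolynomial.X := by
    funext ij
    simp only [Function.comp, g]
    rw [dif_neg ij.2]
  rw [h4, zero_mul, h5] at h3
  simpa using h3

theorem FN1 (n : ℕ) (hn : 0 < n) (k K : Type*) [Field k] [Field K]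
    [Algebra k K] [Algebra (SLRing n k) K] [IsFractionRing (SLRing n k) K]
    [IsScalarTower k (SLRing n k) K] (F : Matrix (Fin n) (Fin n) K) (hF : GenTr n k F) :
    FiniteDimensional (fieldOf n k K F) K := by
  obtain ⟨m, rfl⟩ : ∃ m, n = m + 1 := ⟨n - 1, by omega⟩
  have hind := indep_aux m k K F hF
  have halg := alg_aux m k K
  have htr := Algebra.IsAlgebraic.trdeg_le_cardinalMk k (Set.range (fun ij :
      {ij : Fin (m + 1) × Fin (m + 1) // ij ≠ (0, 0)} => genX (m + 1) k K ij.1.1 ij.1.2))
  have hle : Cardinal.lift.{0} (Algebra.trdeg k K) ≤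
      Cardinal.lift (Cardinal.mk {ij : Fin (m + 1) × Fin (m + 1) // ij ≠ (0, 0)}) := by
    refine le_trans (Cardinal.lift_le.mpr htr) ?_
    exact Cardinal.mk_range_le_lift
  have hb := hind.isTranscendenceBasis_of_lift_trdeg_le_of_finite hle
  have hfa := hb.isAlgebraic_field
  have hle2 : IntermediateField.adjoin k (Set.range (fun ij :
      {ij : Fin (m + 1) × Fin (m + 1) // ij ≠ (0, 0)} => F ij.1.1 ij.1.2)) ≤
      fieldOf (m + 1) k K F := by
    apply IntermediateField.adjoin.mono
    rintro _ ⟨ij, rfl⟩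
    exact ⟨ij.1, rfl⟩
  have halg2 : ∀ z : K, IsIntegral (fieldOf (m + 1) k K F) z := by
    intro z
    have h1 := hfa.isAlgebraic z
    letI : Algebra (IntermediateField.adjoin k (Set.range (fun ij :
      {ij : Fin (m + 1) × Fin (m + 1) // ij ≠ (0, 0)} => F ij.1.1 ij.1.2)))
      (fieldOf (m + 1) k K F) := (IntermediateField.inclusion hle2).toRingHom.toAlgebra
    haveI : IsScalarTower (IntermediateField.adjoin k (Set.range (fun ij :
      {ij : Fin (m + 1) × Fin (m + 1) // ij ≠ (0, 0)} => F ij.1.1 ij.1.2)))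
      (fieldOf (m + 1) k K F) K := IsScalarTower.of_algebraMap_eq (fun _ => rfl)
    have h2 : IsAlgebraic (fieldOf (m + 1) k K F) z := h1.tower_top _
    exact h2.isIntegral
  set S : Set K := Set.range (fun ij : Fin (m + 1) × Fin (m + 1) =>
    genX (m + 1) k K ij.1 ij.2) with hS
  haveI : Finite S := Set.finite_range _
  have hfd : FiniteDimensional (fieldOf (m + 1) k K F)
      (IntermediateField.adjoin (fieldOf (m + 1) k K F) S) :=
    IntermediateField.finiteDimensional_adjoin (fun x _ => halg2 x)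
  have htop : IntermediateField.adjoin (fieldOf (m + 1) k K F) S = ⊤ := by
    rw [eq_top_iff]
    intro z _
    revert z
    have := K_ind (m + 1) k K
      (fun z => z ∈ IntermediateField.adjoin (fieldOf (m + 1) k K F) S)
      (fun c => by
        have h1 : algebraMap k K c =
            algebraMap (fieldOf (m + 1) k K F) K (algebraMap k (fieldOf (m + 1) k K F) c) := rfl
        rw [h1]
        exact IntermediateField.algebraMap_mem _ _)
      (fun i j => IntermediateField.subset_adjoin _ _ ⟨(i, j), rfl⟩)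
      (fun a b ha hb => add_mem ha hb)
      (fun a b ha hb => mul_mem ha hb)
      (fun a ha => inv_mem ha)
    intro z _
    exact this z
  rw [htop] at hfd
  exact Module.Finite.equiv (IntermediateField.topEquiv (F := fieldOf (m + 1) k K F)
    (E := K)).toLinearEquiv

end NO

end Pool.Agent.Helper346.Cay
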