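import Pool.Agent.Helper346.Cay.CayDeg
import Pool.Agent.Helper346.Cay.Core
import Pool.Agent.Helper346.Cay.QB
import Pool.Agent.Helper346.Cay.QC

set_option autoImplicit false

namespace Pool.Agent.Helper346.Cay

theorem le_cayleyDegree (k : Type*) [Field k] [IsAlgClosed k] [CharZero k] (p : ℕ)
    (hp : p.Prime) : p ≤ cayleyDegree (p ^ 2) k := by
  haveI : Fact p.Prime := ⟨hp⟩
  have hn : 0 < p ^ 2 := pow_pos hp.pos 2
  unfold cayleyDegree
  apply le_csInf
  · obtain ⟨F, hF⟩ := EX1 (p ^ 2) hn k (FractionRing (SLRing (p ^ 2) k))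
    exact ⟨_, F, hF, rfl⟩
  · rintro d ⟨F, hF, rfl⟩
    haveI := FN1 (p ^ 2) hn k (FractionRing (SLRing (p ^ 2) k)) F hF.dominant
    exact core p (p ^ 2) rfl k (FractionRing (SLRing (p ^ 2) k)) F hF
      (Module.finBasis (fieldOf (p ^ 2) k (FractionRing (SLRing (p ^ 2) k)) F)
        (FractionRing (SLRing (p ^ 2) k)))

theorem unbounded (k : Type*) [Field k] [IsAlgClosed k] [CharZero k] (d : ℕ) :
    ∃ n : ℕ, 2 ≤ n ∧ d < cayleyDegree n k := by
  obtain ⟨p, hdp, hp⟩ := Nat.exists_infinite_primes (d + 1)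
  refine ⟨p ^ 2, ?_, lt_of_lt_of_le hdp (le_cayleyDegree k p hp)⟩
  have := hp.two_le
  nlinarith

theorem two_lt_nine (k : Type*) [Field k] [IsAlgClosed k] [CharZero k] :
    2 < cayleyDegree 9 k := le_cayleyDegree k 3 Nat.prime_three

end Pool.Agent.Helper346.Cay
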