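import Pool.Agent.Helper346.Cay.All

set_option autoImplicit false

open Polynomial

namespace Pool.Agent.Helper346.Cay

section alg

variable {k E : Type*} [Field k] [Field E] [Algebra k E]

theorem algEt (c : k) : algebraMap k (Et E) c = cE E (algebraMap k E c) := by
  unfold cE
  rw [RingHom.comp_apply, IsScalarTower.algebraMap_apply k E[X] (Et E)]
  rfl

theorem algS0 (c : k) : algebraMap k (S0 E) c = cS E (algebraMap k E c) := by
  unfold cS
  rw [RingHom.comp_apply, IsScalarTower.algebraMap_apply k E[X] (S0 E)]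
  rfl

theorem jS_cS (c : E) : jS E (cS E c) = cE E c := by
  unfold cS cE
  rw [RingHom.comp_apply, jS_alg]
  rfl

theorem evS_cS (c : E) : evS E (cS E c) = c := by
  unfold cS
  rw [RingHom.comp_apply, evS_alg]
  simp

noncomputable def jA (k E : Type*) [Field k] [Field E] [Algebra k E] : S0 E →ₐ[k] Et E :=
  { jS E with
    commutes' := by
      intro c
      show jS E (algebraMap k (S0 E) c) = _
      rw [algS0, jS_cS, algEt] }

noncomputable def evA (k E : Type*) [Field k] [Field E] [Algebra k E] : S0 E →ₐ[k] E :=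
  { evS E with
    commutes' := by
      intro c
      show evS E (algebraMap k (S0 E) c) = _
      rw [algS0, evS_cS] }

theorem jA_apply (x : S0 E) : jA k E x = jS E x := rfl
theorem evA_apply (x : S0 E) : evA k E x = evS E x := rfl

end alg

/-- the segment from `Y0` to `Y1` -/
noncomputable def seg {E : Type*} [Field E] {n : ℕ} (Y0 Y1 : Matrix (Fin n) (Fin n) E) :
    Matrix (Fin n) (Fin n) E[X] :=
  Matrix.of fun i j => C (Y0 i j) + X * C (Y1 i j - Y0 i j)

section half

variable {p : ℕ} [Fact p.Prime] {n : ℕ} {k K E : Type*} [Field k] [Field K] [Algebra k K]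
  [Field E] [Algebra k E]

theorem mem_KT_of {K1 : Subfield E} (f : E[X]) (hf : ∀ i, f.coeff i ∈ K1) :
    algebraMap E[X] (Et E) f ∈ KT K1 := Subfield.subset_closure ⟨f, hf, rfl⟩

theorem half (hn : 2 ≤ n) (D : Dat p k E) (chi : ℝ → V p) (hchi0 : ∀ s, chi s ≠ 0)
    (hchi : ∀ s : ℝ, ∀ i j a b m : ℤ,
      (i + j * Real.sqrt 2 : ℝ) = (p : ℝ) * (a + b * Real.sqrt 2) + m * s →
      ∃ c : ZMod p, (((i : ZMod p), (j : ZMod p)) : V p) = c • (chi s))
    (ζ : k) (hζ : IsPrimitiveRoot ζ p)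
    (g : Matrix (Fin n) (V p) E) (g' : Matrix (V p) (Fin n) E)
    (hgg' : g * g' = 1) (hg'g : g' * g = 1) (hg : ∀ i χ, g i χ ∈ D.K1) (hg' : ∀ χ i, g' χ i ∈ D.K1)
    (F : Matrix (Fin n) (Fin n) K) (htr : F.trace = 0) (hF : GenTr n k F)
    {e : ℕ} (b : Module.Basis (Fin e) (fieldOf n k K F) K) (he : e < p)
    (X : Matrix (Fin n) (Fin n) K) (hdet : X.det = 1) (hXF : X * F = F * X)
    (φ0 : fieldOf n k K F →ₐ[k] E) (Y1 : Matrix (Fin n) (Fin n) E) (hY1 : Y1.trace = 0)
    (h0 : ∀ i j, φ0 (FY n k K F i j) ∈ D.K1) (h1 : ∀ i j, Y1 i j ∈ D.K1)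
    (hev0 : ∀ τ, ∃ y : E, Matrix.vecMul (rho ζ D.α D.β g' τ) ((FY n k K F).map φ0) =
      y • rho ζ D.α D.β g' τ)
    (hev1 : ∀ τ, ∃ y : E, Matrix.vecMul (rho ζ D.α D.β g' τ) Y1 = y • rho ζ D.α D.β g' τ) :
    ∃ (φt : fieldOf n k K F →ₐ[k] Et E) (S : Set k),
      (FY n k K F).map φt = (seg ((FY n k K F).map φ0) Y1).map (algebraMap E[X] (Et E)) ∧
      (∀ s h, dot (chi s) h ≠ 0 → Red (GV D.v D.na s)
        (Ph b X (φt : fieldOf n k K F →+* Et E) (cE E) p (gam ζ D.α D.β g g') h) S) ∧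
      (∃ s1 : ℝ, ∀ s ≥ s1, ∀ h, dot (chi s) h ≠ 0 → RedE D.v
        (Ph b X (φ0 : fieldOf n k K F →+* E) (RingHom.id E) p (gam ζ D.α D.β g g') h) S) := by
  classical
  set Y0 := (FY n k K F).map φ0 with hY0def
  have hFtr : (FY n k K F).trace = 0 := by
    have : (fieldOf n k K F).val (FY n k K F).trace = F.trace := by
      rw [Matrix.trace, Matrix.trace, map_sum]; rfl
    rw [htr] at this
    exact (map_eq_zero _).mp this
  have hY0 : Y0.trace = 0 := by
    have : Y0.trace = φ0 (FY n k K F).trace := by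
      rw [hY0def, Matrix.trace, Matrix.trace, map_sum]; rfl
    rw [this, hFtr, map_zero]
  set YS : Matrix (Fin n) (Fin n) (S0 E) := (seg Y0 Y1).map (algebraMap E[X] (S0 E)) with hYS
  have hseg : (seg Y0 Y1).trace = 0 := by
    simp only [seg, Matrix.trace, Matrix.diag_apply, Matrix.of_apply]
    rw [Finset.sum_add_distrib, ← Finset.mul_sum, ← map_sum, ← map_sum, Finset.sum_sub_distrib]
    have a0 : ∑ i, Y0 i i = 0 := hY0
    have a1 : ∑ i, Y1 i i = 0 := hY1
    rw [a0, a1]; simp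
  have hYStr : YS.trace = 0 := by
    have : YS.trace = algebraMap E[X] (S0 E) (seg Y0 Y1).trace := by
      rw [hYS, Matrix.trace, Matrix.trace, map_sum]; rfl
    rw [this, hseg, map_zero]
  have hevS : ∀ P : MvPolynomial (Fin n × Fin n) k,
      evS E (MvPolynomial.aeval (fun ij : Fin n × Fin n => YS ij.1 ij.2) P) =
      MvPolynomial.aeval (fun ij : Fin n × Fin n => Y0 ij.1 ij.2) P := by
    intro P
    rw [← evA_apply (k := k), MvPolynomial.comp_aeval_apply]
    congr 2
    funext ij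
    show evS E (algebraMap E[X] (S0 E) (seg Y0 Y1 ij.1 ij.2)) = _
    rw [evS_alg]
    simp [seg]
  have hunit : ∀ P : MvPolynomial (Fin n × Fin n) k,
      P ∉ Ideal.span {(Matrix.mvPolynomialX (Fin n) (Fin n) k).trace} →
      IsUnit (MvPolynomial.aeval (fun ij : Fin n × Fin n => YS ij.1 ij.2) P) := by
    intro P hP
    have hne : MvPolynomial.aeval (fun ij : Fin n × Fin n => Y0 ij.1 ij.2) P ≠ 0 := by
      intro h
      apply hP
      apply hF
      have h2 : φ0 (MvPolynomial.aeval (fun ij : Fin n × Fin n => FY n k K F ij.1 ij.2) P) = 0 := by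
        rw [MvPolynomial.comp_aeval_apply]; exact h
      have h3 := (map_eq_zero φ0).mp h2
      have h4 : (fieldOf n k K F).val
          (MvPolynomial.aeval (fun ij : Fin n × Fin n => FY n k K F ij.1 ij.2) P) = 0 := by
        rw [h3, map_zero]
      rw [MvPolynomial.comp_aeval_apply] at h4
      exact h4
    obtain ⟨f, w, hfw⟩ := IsLocalization.exists_mk'_eq (M0 E)
      (MvPolynomial.aeval (fun ij : Fin n × Fin n => YS ij.1 ij.2) P)
    have hev := hevS P
    rw [← hfw] at hev ⊢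
    have h5 : IsLocalization.mk' (S0 E) f w * algebraMap E[X] (S0 E) w = algebraMap E[X] (S0 E) f :=
      IsLocalization.mk'_spec _ _ _
    have h6 := congrArg (evS E) h5
    rw [map_mul, hev, evS_alg, evS_alg] at h6
    have hf0 : f.eval 0 ≠ 0 := by
      rw [← h6]; exact mul_ne_zero hne ((mem_M0 _).mp w.2)
    have hfu : IsUnit (algebraMap E[X] (S0 E) f) :=
      IsLocalization.map_units (S0 E) (⟨f, (mem_M0 f).mpr hf0⟩ : M0 E)
    rw [← h5] at hfu
    exact isUnit_of_mul_isUnit_left hfu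
  obtain ⟨φS, hφS⟩ := LF2 n k K F htr hF YS hYStr hunit
  let φt : fieldOf n k K F →ₐ[k] Et E := (jA k E).comp φS
  have hφt : (FY n k K F).map φt = (seg Y0 Y1).map (algebraMap E[X] (Et E)) := by
    have : (FY n k K F).map φt = ((FY n k K F).map φS).map (jA k E) := by
      rw [Matrix.map_map]; rfl
    rw [this, hφS, hYS, Matrix.map_map]
    ext i j
    show jS E (algebraMap E[X] (S0 E) (seg Y0 Y1 i j)) = _
    rw [jS_alg]; rfl
  have hev : (evA k E).comp φS = φ0 := by
    apply LF3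
    have : (FY n k K F).map ((evA k E).comp φS) = ((FY n k K F).map φS).map (evA k E) := by
      rw [Matrix.map_map]; rfl
    rw [this, hφS, hYS, Matrix.map_map]
    ext i j
    show evS E (algebraMap E[X] (S0 E) (seg Y0 Y1 i j)) = _
    rw [evS_alg]
    simp [seg, hY0def]
  have hkK : ∀ c : k, algebraMap k (Et E) c ∈ KT D.K1 := by
    intro c
    rw [algEt]
    exact mem_KT_of (C (algebraMap k E c)) (by
      intro i; rw [coeff_C]; split
      · exact D.kK c
      · exact D.K1.zero_mem)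
  have hφK : ∀ a, (φt : fieldOf n k K F →+* Et E) a ∈ KT D.K1 := by
    intro a
    apply LF4 n k K F φt (KT D.K1) hkK
    intro i j
    have : φt (FY n k K F i j) = algebraMap E[X] (Et E) (seg Y0 Y1 i j) := congrFun (congrFun hφt i) j
    rw [this]
    apply mem_KT_of
    intro m
    simp only [seg, Matrix.of_apply, coeff_add, coeff_C]
    have hY0ij : Y0 i j ∈ D.K1 := h0 i j
    have hd : Y1 i j - Y0 i j ∈ D.K1 := D.K1.sub_mem (h1 i j) hY0ij
    refine D.K1.add_mem ?_ ?_
    · split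
      · exact hY0ij
      · exact D.K1.zero_mem
    · cases m with
      | zero => simp only [mul_coeff_zero, coeff_X_zero, zero_mul]; exact D.K1.zero_mem
      | succ m =>
        rw [coeff_X_mul, coeff_C]
        split
        · exact hd
        · exact D.K1.zero_mem
  obtain ⟨u, hu⟩ := AC2 n hn k (FY n k K F) (by
    intro P hP
    apply hF
    have h4 : (fieldOf n k K F).val
        (MvPolynomial.aeval (fun ij : Fin n × Fin n => FY n k K F ij.1 ij.2) P) = 0 := by
      rw [hP, map_zero]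
    rw [MvPolynomial.comp_aeval_apply] at h4
    exact h4)
  have hXF' : X * (FY n k K F).map (algebraMap (fieldOf n k K F) K) =
      (FY n k K F).map (algebraMap (fieldOf n k K F) K) * X := hXF
  have hevt : ∀ τ, ∃ y : Et E, Matrix.vecMul (fun i => cE E (rho ζ D.α D.β g' τ i))
      ((FY n k K F).map (φt : fieldOf n k K F →+* Et E)) =
      y • (fun i => cE E (rho ζ D.α D.β g' τ i)) := by
    intro τ
    obtain ⟨y0, hy0⟩ := hev0 τ
    obtain ⟨y1, hy1⟩ := hev1 τ
    refine ⟨algebraMap E[X] (Et E) (C y0 + Polynomial.X * C (y1 - y0)), ?_⟩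
    have e1 : (FY n k K F).map (φt : fieldOf n k K F →+* Et E) =
      (seg Y0 Y1).map (algebraMap E[X] (Et E)) := hφt
    rw [e1]
    funext j
    have e2 : Matrix.vecMul (fun i => cE E (rho ζ D.α D.β g' τ i))
        ((seg Y0 Y1).map (algebraMap E[X] (Et E))) j =
        algebraMap E[X] (Et E) (∑ i, C (rho ζ D.α D.β g' τ i) * seg Y0 Y1 i j) := by
      rw [map_sum]
      simp only [Matrix.vecMul, dotProduct, Matrix.map_apply, map_mul]
      rfl
    rw [e2]
    have z0 : ∑ i, rho ζ D.α D.β g' τ i * Y0 i j = y0 * rho ζ D.α D.β g' τ j := congrFun hy0 j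
    have z1 : ∑ i, rho ζ D.α D.β g' τ i * Y1 i j = y1 * rho ζ D.α D.β g' τ j := congrFun hy1 j
    have e3 : (∑ i, C (rho ζ D.α D.β g' τ i) * seg Y0 Y1 i j) =
        (C y0 + Polynomial.X * C (y1 - y0)) * C (rho ζ D.α D.β g' τ j) := by
      have e4 : ∀ i, C (rho ζ D.α D.β g' τ i) * seg Y0 Y1 i j =
          C (rho ζ D.α D.β g' τ i * Y0 i j) +
            Polynomial.X * (C (rho ζ D.α D.β g' τ i * Y1 i j) - C (rho ζ D.α D.β g' τ i * Y0 i j)) := by
        intro i
        simp only [seg, Matrix.of_apply, map_mul, map_sub]; ring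
      rw [Finset.sum_congr rfl (fun i _ => e4 i), Finset.sum_add_distrib, ← Finset.mul_sum,
        Finset.sum_sub_distrib, ← map_sum, ← map_sum, z0, z1]
      simp only [map_mul, map_sub]; ring
    rw [e3, map_mul]
    rfl
  have hloc : ∀ s : ℝ, ∃ S : Set k, ∀ h, dot (chi s) h ≠ 0 →
      Red (GV D.v D.na s) (Ph b X (φt : fieldOf n k K F →+* Et E) (cE E) p
        (gam ζ D.α D.β g g') h) S := fun s =>
    LOC D s (chi s) (hchi s) ζ hζ g g' hgg' hg'g hg hg' b he X hdet (FY n k K F) hXF' u hu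
      (φt : fieldOf n k K F →+* Et E) hφK hevt
  obtain ⟨S, hS⟩ := PA D.v D.na D.kv p chi hchi0
    (fun h => Ph b X (φt : fieldOf n k K F →+* Et E) (cE E) p (gam ζ D.α D.β g g') h) hloc
  refine ⟨φt, S, hφt, hS, ?_⟩
  -- endpoint
  have hen : ∀ h : V p, ∃ s0 : ℝ, ∀ s ≥ s0, ∀ S : Set k,
      Red (GV D.v D.na s) (Ph b X (φt : fieldOf n k K F →+* Et E) (cE E) p
        (gam ζ D.α D.β g g') h) S →
      RedE D.v (Ph b X (φ0 : fieldOf n k K F →+* E) (RingHom.id E) p (gam ζ D.α D.β g g') h) S := by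
    intro h
    obtain ⟨s0, hs0⟩ := EN2 (k := k) D.v D.na
      (Ph b X (φS : fieldOf n k K F →+* S0 E) (cS E) p (gam ζ D.α D.β g g') h)
    refine ⟨s0, fun s hs T hT => ?_⟩
    have := hs0 s hs T
    rw [PH1, PH1] at this
    have c1 : (jS E).comp (φS : fieldOf n k K F →+* S0 E) = (φt : fieldOf n k K F →+* Et E) := rfl
    have c2 : (jS E).comp (cS E) = cE E := by ext x; exact jS_cS x
    have c3 : (evS E).comp (φS : fieldOf n k K F →+* S0 E) = (φ0 : fieldOf n k K F →+* E) := by
      rw [← hev]; rfl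
    have c4 : (evS E).comp (cS E) = RingHom.id E := by ext x; exact evS_cS x
    rw [c1, c2, c3, c4] at this
    exact this hT
  choose s0 hs0 using hen
  refine ⟨∑ h : V p, |s0 h|, fun s hs h hh => ?_⟩
  refine hs0 h s (le_trans ?_ hs) S (hS s h hh)
  exact (le_abs_self _).trans (Finset.single_le_sum (f := fun h => |s0 h|)
    (fun i _ => abs_nonneg _) (Finset.mem_univ h))

end half

end Pool.Agent.Helper346.Cay
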