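import Pool.Agent.Helper346.Cay.Two

set_option autoImplicit false

open Polynomial

namespace Pool.Agent.Helper346.Cay

theorem exists_good {p : ℕ} [Fact p.Prime] (χ : V p) (hχ : χ ≠ 0) : ∃ h, dot χ h ≠ 0 := by
  by_contra hcon
  push Not at hcon
  apply hχ
  have h1 := hcon (1, 0)
  have h2 := hcon (0, 1)
  simp [dot] at h1 h2
  exact Prod.ext h1 h2

theorem two {p : ℕ} [Fact p.Prime] {n : ℕ} {k K E : Type*} [Field k] [Field K] [Algebra k K]
    [Field E] [Algebra k E] (hn : 2 ≤ n) (D : Dat p k E) (chi : ℝ → V p) (hchi0 : ∀ s, chi s ≠ 0)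
    (hchi : ∀ s : ℝ, ∀ i j a b m : ℤ,
      (i + j * Real.sqrt 2 : ℝ) = (p : ℝ) * (a + b * Real.sqrt 2) + m * s →
      ∃ c : ZMod p, (((i : ZMod p), (j : ZMod p)) : V p) = c • (chi s))
    (ζ : k) (hζ : IsPrimitiveRoot ζ p)
    (g : Matrix (Fin n) (V p) E) (g' : Matrix (V p) (Fin n) E)
    (hgg' : g * g' = 1) (hg'g : g' * g = 1) (hg : ∀ i χ, g i χ ∈ D.K1) (hg' : ∀ χ i, g' χ i ∈ D.K1)
    (F : Matrix (Fin n) (Fin n) K) (htr : F.trace = 0) (hF : GenTr n k F)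
    {e : ℕ} (b : Module.Basis (Fin e) (fieldOf n k K F) K) (he : e < p)
    (X : Matrix (Fin n) (Fin n) K) (hdet : X.det = 1) (hXF : X * F = F * X)
    (φ0 φ1 : fieldOf n k K F →ₐ[k] E)
    (h0 : ∀ i j, φ0 (FY n k K F i j) ∈ D.K1) (h1 : ∀ i j, φ1 (FY n k K F i j) ∈ D.K1)
    (hev0 : ∀ τ, ∃ y : E, Matrix.vecMul (rho ζ D.α D.β g' τ) ((FY n k K F).map φ0) =
      y • rho ζ D.α D.β g' τ)
    (hev1 : ∀ τ, ∃ y : E, Matrix.vecMul (rho ζ D.α D.β g' τ) ((FY n k K F).map φ1) =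
      y • rho ζ D.α D.β g' τ) :
    ∃ (S : Set k),
      (∃ s1 : ℝ, ∀ s ≥ s1, ∀ h, dot (chi s) h ≠ 0 → RedE D.v
        (Ph b X (φ0 : fieldOf n k K F →+* E) (RingHom.id E) p (gam ζ D.α D.β g g') h) S) ∧
      (∃ s1 : ℝ, ∀ s ≥ s1, ∀ h, dot (chi s) h ≠ 0 → RedE D.v
        (Ph b X (φ1 : fieldOf n k K F →+* E) (RingHom.id E) p (gam ζ D.α D.β g g') h) S) := by
  have hFtr : (FY n k K F).trace = 0 := by
    have : (fieldOf n k K F).val (FY n k K F).trace = F.trace := by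
      rw [Matrix.trace, Matrix.trace, map_sum]; rfl
    rw [htr] at this
    exact (map_eq_zero _).mp this
  have htrφ : ∀ φ : fieldOf n k K F →ₐ[k] E, ((FY n k K F).map φ).trace = 0 := by
    intro φ
    have : ((FY n k K F).map φ).trace = φ (FY n k K F).trace := by
      rw [Matrix.trace, Matrix.trace, map_sum]; rfl
    rw [this, hFtr, map_zero]
  obtain ⟨φt, S, hφt, hS, hS1⟩ := half hn D chi hchi0 hchi ζ hζ g g' hgg' hg'g hg hg' F htr hF b he
    X hdet hXF φ0 ((FY n k K F).map φ1) (htrφ φ1) h0 h1 hev0 hev1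
  obtain ⟨φt', S', hφt', hS', hS1'⟩ := half hn D chi hchi0 hchi ζ hζ g g' hgg' hg'g hg hg' F htr hF
    b he X hdet hXF φ1 ((FY n k K F).map φ0) (htrφ φ0) h1 h0 hev1 hev0
  obtain ⟨θ, hθ, hθv⟩ := VT5 D.v D.na
  let θA : Et E →ₐ[k] Et E := { θ with
    commutes' := by
      intro c
      show θ (algebraMap k (Et E) c) = _
      rw [algEt]
      show θ (algebraMap E[X] (Et E) (C _)) = algebraMap E[X] (Et E) (C _)
      rw [hθ, C_comp] }
  have hcomp : θA.comp φt = φt' := by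
    apply LF3
    have e1 : (FY n k K F).map (θA.comp φt) = ((FY n k K F).map φt).map θA := by
      rw [Matrix.map_map]; rfl
    rw [e1, hφt, hφt', Matrix.map_map]
    ext i j
    show θ (algebraMap E[X] (Et E) (seg _ _ i j)) = algebraMap E[X] (Et E) (seg _ _ i j)
    rw [hθ]
    congr 1
    simp only [seg, Matrix.of_apply, add_comp, mul_comp, C_comp, X_comp, map_sub, sub_comp]
    ring
  have hSS : S = S' := by
    obtain ⟨h, hh⟩ := exists_good (chi 0) (hchi0 0)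
    have r1 := hS 0 h hh
    have r2 := hS' 0 h hh
    obtain ⟨Q, hQ1, hQ2, hQ3⟩ := r1
    refine RU D.v D.na D.kv 0 _ S S' ?_ r2
    have e2 : (Ph b X (φt' : fieldOf n k K F →+* Et E) (cE E) p (gam ζ D.α D.β g g') h) =
        (Ph b X (φt : fieldOf n k K F →+* Et E) (cE E) p (gam ζ D.α D.β g g') h).map θ := by
      rw [PH1]
      have c1 : θ.comp (φt : fieldOf n k K F →+* Et E) = (φt' : fieldOf n k K F →+* Et E) := by
        rw [← hcomp]; rfl
      have c2 : θ.comp (cE E) = cE E := by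
        ext x
        show θ (algebraMap E[X] (Et E) (C _)) = algebraMap E[X] (Et E) (C _)
        rw [hθ, C_comp]
      rw [c1, c2]
    rw [e2]
    refine ⟨Q, hQ1, hQ2, fun i => ?_⟩
    have e3 : ck k E (Q.coeff i) = θ (ck k E (Q.coeff i)) := by
      show algebraMap E[X] (Et E) (C _) = θ (algebraMap E[X] (Et E) (C _))
      rw [hθ, C_comp]
    rw [coeff_map, e3, ← map_sub, hθv]
    exact hQ3 i
  exact ⟨S, hS1, hSS ▸ hS1'⟩

end Pool.Agent.Helper346.Cay
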